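import Pool.Agent.H46.OP.Kinds
import Pool.Agent.H58.OP.Big

/-! **One bad place**: the field-theoretic theorem. -/

set_option autoImplicit false
set_option linter.unusedSectionVars false

namespace Pool.Agent.H46.OP

open NumberField IsDedekindDomain Polynomial
open scoped Pointwise
open Pool.Agent.R433.MD (fx fixed_mem unit_mem perm_unit)
open Pool.Agent.H46.SP (res res_apply res_smul under_smul under_under exists_above exists_under
  smul_ne_bot exists_L exists_int hyper_count2)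

/-- subgroups of the integers -/
theorem exists_gen {V : Type} [AddCommGroup V] (B : Submodule ℤ V) (e : V) (Pr : Set ℕ) (m0 : ℕ)
    (hm0 : m0 ≠ 0) (h0 : (m0 : ℤ) • e ∈ B)
    (h : ∀ p ∈ Pr, p.Prime → ∃ m : ℕ, ¬ p ∣ m ∧ (m : ℤ) • e ∈ B) :
    ∃ m : ℕ, m ≠ 0 ∧ (∀ p ∈ Pr, p.Prime → ¬ p ∣ m) ∧ (m : ℤ) • e ∈ B := by
  let I : AddSubgroup ℤ := B.toAddSubgroup.comap
    ((LinearMap.toSpanSingleton ℤ V e).toAddMonoidHom)
  have hI : ∀ z : ℤ, z ∈ I ↔ z • e ∈ B := fun z => Iff.rfl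
  obtain ⟨g, hg⟩ := Int.subgroup_cyclic I
  rw [← AddSubgroup.zmultiples_eq_closure] at hg
  have hgI : g ∈ I := by
    rw [hg]
    exact AddSubgroup.mem_zmultiples g
  have hdvd : ∀ z ∈ I, g ∣ z := by
    intro z hz
    rw [hg, Int.mem_zmultiples_iff] at hz
    exact hz
  refine ⟨g.natAbs, ?_, ?_, ?_⟩
  · intro h1
    rw [Int.natAbs_eq_zero] at h1
    have h2 := hdvd _ ((hI m0).2 h0)
    rw [h1, zero_dvd_iff] at h2
    exact hm0 (by exact_mod_cast h2)
  · intro p hp hpp h1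
    obtain ⟨m, hm, hmB⟩ := h p hp hpp
    apply hm
    have h2 := hdvd _ ((hI m).2 hmB)
    have h3 : g.natAbs ∣ m := Int.natAbs_dvd_natAbs.2 h2
    exact h1.trans h3
  · rcases Int.natAbs_eq g with h1 | h1
    · rw [← h1]
      exact hgI
    · have h2 : ((g.natAbs : ℕ) : ℤ) = -g := by rw [h1]; simp
      rw [h2]
      exact I.neg_mem hgI

/-- **One bad place.** -/
theorem one_place (K M : Type) [Field K] [NumberField K] [Field M] [NumberField M] [Algebra K M]
    [IsGalois K M] (S : Finset (HeightOneSpectrum (𝓞 K))) :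
    ∃ (L : Type) (_ : Field L) (_ : NumberField L) (_ : Algebra K L) (_ : Algebra M L)
      (_ : IsScalarTower K M L) (_ : IsGalois K L),
      (∃ m : ℕ, m ≠ 0 ∧ (∀ p : ℕ, p.Prime → p ∣ m → p ∣ Nat.card Gal(M/K)) ∧
        (fun _ : Gal(L/K) => (m : ℤ)) ∈ Submodule.span ℤ
          (fx '' {H | OneBadA ((⊥ : Subgroup Gal(M/K)) : Set Gal(M/K)) S H})) ∧
      (fun _ : Gal(L/K) => (1 : ℤ)) ∈ Submodule.span ℤ
          (fx '' {H | OneBadA ((⊥ : Subgroup Gal(M/K)) : Set Gal(M/K)) S H ∨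
            ∃ p : ℕ, p.Prime ∧ p ∣ Nat.card Gal(M/K) ∧ OneBadA (Kp (⊥ : Subgroup Gal(M/K)) p) S H}) ∧
      ∀ p : ℕ, p.Prime → p ∣ Nat.card Gal(M/K) → ∃ m : ℕ, m ≠ 0 ∧ ¬ p ∣ m ∧
        (fun _ : Gal(L/K) => (m : ℤ)) ∈ Submodule.span ℤ (fx '' {H | OneBadA (Kp (⊥ : Subgroup Gal(M/K)) p) S H}) := by
  classical
  set c := Nat.card Gal(M/K) with hc
  have hc0 : c ≠ 0 := Nat.card_pos.ne'
  obtain ⟨M1, _, _, _, _, _, hG1, hbig⟩ := Pool.Agent.H58.OP.exists_big_index K M S c hc0
  let N : Subgroup Gal(M1/K) := (res K M : Gal(M1/K) →* Gal(M/K)).ker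
  have hNn : N.Normal := MonoidHom.normal_ker _
  have hNi : N.index = c := by
    rw [Subgroup.index_ker, hc]
    have h1 : (res K M : Gal(M1/K) →* Gal(M/K)).range = ⊤ :=
      MonoidHom.range_eq_top.2 (AlgEquiv.restrictNormalHom_surjective (F := K) (K₁ := M) M1)
    rw [h1]
    exact Nat.card_congr Subgroup.topEquiv.toEquiv
  -- the kinds
  let ι := Option c.primeFactors
  let A : ι → Set Gal(M1/K) := fun i => match i with
    | none => (N : Set Gal(M1/K))
    | some p => Kp N p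
  let m' : ι → ℕ := fun i => match i with
    | none => N.index
    | some p => ordCompl[(p : ℕ)] N.index
  have hpp : ∀ p : c.primeFactors, (p : ℕ).Prime := fun p => Nat.prime_of_mem_primeFactors p.2
  obtain ⟨L, _, _, _, _, _, hGL, hmain⟩ := coreA K M1 S ι A m'
    (by
      rintro (_ | p) x hx y
      · exact hNn.conj_mem x hx y
      · exact Kp.conj hx y)
    (by
      rintro (_ | p) x hx k
      · exact N.zpow_mem hx k
      · exact Kp.zpow hx k)
    (by
      rintro (_ | p)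
      · exact N.one_mem
      · exact Kp.one N p)
    (by
      rintro (_ | p) w n hn
      · exact hasModel_N N w n hn
      · exact hasModel_Kp N (hpp p) w n hn)
  let _ : Algebra M L := ((algebraMap M1 L).comp (algebraMap M M1)).toAlgebra
  have t1 : IsScalarTower M M1 L := IsScalarTower.of_algebraMap_eq fun x => rfl
  have t2 : IsScalarTower K M L := IsScalarTower.of_algebraMap_eq fun x => by
    rw [IsScalarTower.algebraMap_apply K M1 L, IsScalarTower.algebraMap_apply M M1 L,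
      IsScalarTower.algebraMap_apply K M M1]
  have hresres : ∀ g : Gal(L/K), res K M (res K M1 g) = res K M g := by
    intro g
    ext x
    apply (algebraMap M L).injective
    rw [res_apply, IsScalarTower.algebraMap_apply M M1 L, IsScalarTower.algebraMap_apply M M1 L,
      res_apply, res_apply]
  -- translations
  have hN : ∀ g : Gal(L/K), res K M1 g ∈ N ↔ res K M g ∈ (⊥ : Subgroup Gal(M/K)) := by
    intro g
    rw [MonoidHom.mem_ker, hresres, Subgroup.mem_bot]
  have hNp : ∀ (p : ℕ) (g : Gal(L/K)), res K M1 g ∈ Kp N p ↔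
      res K M g ∈ Kp (⊥ : Subgroup Gal(M/K)) p := by
    intro p g
    unfold Kp
    simp only [Set.mem_ofPred_eq]
    refine exists_congr fun k => ?_
    rw [← map_pow, hN, map_pow]
  have htrans : ∀ H : Subgroup Gal(L/K), OneBadA (N : Set Gal(M1/K)) S H →
      OneBadA ((⊥ : Subgroup Gal(M/K)) : Set Gal(M/K)) S H := by
    intro H hH W W' hW hW' hb hb'
    have key : ∀ W, BadAtA ((⊥ : Subgroup Gal(M/K)) : Set Gal(M/K)) H W →
        BadAtA (N : Set Gal(M1/K)) H W := by
      rintro W ⟨h, h1, h2, h3⟩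
      exact ⟨h, h1, h2, fun h4 => h3 ((hN h).1 h4)⟩
    exact hH W W' hW hW' (key W hb) (key W' hb')
  have htransp : ∀ (p : ℕ) (H : Subgroup Gal(L/K)), OneBadA (Kp N p) S H →
      OneBadA (Kp (⊥ : Subgroup Gal(M/K)) p) S H := by
    intro p H hH W W' hW hW' hb hb'
    have key : ∀ W, BadAtA (Kp (⊥ : Subgroup Gal(M/K)) p) H W → BadAtA (Kp N p) H W := by
      rintro W ⟨h, h1, h2, h3⟩
      exact ⟨h, h1, h2, fun h4 => h3 ((hNp p h).1 h4)⟩
    exact hH W W' hW hW' (key W hb) (key W' hb')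
  -- the local conditions
  have hcard : ∀ w : HeightOneSpectrum (𝓞 M1), Over S w → ∀ d : Dec K w,
      N.index * orderOf d ∣ Nat.card (Dec K w) := by
    intro w hw d
    have h4 := hbig w hw d.1 d.2
    rw [Subgroup.orderOf_coe, ← hNi] at h4
    exact h4
  have hz : ∀ w : HeightOneSpectrum (𝓞 M1), Over S w → ∀ d : Dec K w,
      N.index ∣ (Subgroup.zpowers d).index := by
    intro w hw d
    have h4 := hcard w hw d
    have h5 : (Subgroup.zpowers d).index * orderOf d = Nat.card (Dec K w) := by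
      rw [← Nat.card_zpowers]
      exact Subgroup.index_mul_card _
    rw [← h5] at h4
    exact Nat.dvd_of_mul_dvd_mul_right (orderOf_pos _) h4
  have hN0 : N.index ≠ 0 := by rw [hNi]; exact hc0
  have hm'dvd : ∀ i, m' i ∣ N.index := by
    rintro (_ | p)
    · exact dvd_rfl
    · exact Nat.ordCompl_dvd _ _
  have hloc0 : ∀ i, ∀ w : HeightOneSpectrum (𝓞 M1), Over S w → ∀ d : Dec K w,
      ∃ U : Subgroup (Dec K w), m' i ∣ U.index ∧ fx U d ≠ 0 := fun i w hw d =>
    ⟨Subgroup.zpowers d, (hm'dvd i).trans (hz w hw d),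
      fx_ne_zero_of_mem (Subgroup.mem_zpowers d)⟩
  -- the kind of a prime
  have hkind : ∀ p : ℕ, p.Prime → ∃ i : ι, ordCompl[p] N.index = m' i ∧
      (∀ (x : Gal(M1/K)) (k : ℕ), x ^ p ^ k ∈ A i → x ∈ A i) ∧
      ((p ∣ c ∧ A i = Kp N p) ∨ (¬ p ∣ c ∧ A i = (N : Set Gal(M1/K)))) := by
    intro p hp
    by_cases hpc : p ∣ c
    · refine ⟨some ⟨p, Nat.mem_primeFactors.2 ⟨hp, hpc, hc0⟩⟩, rfl, fun x k h => Kp.root h,
        Or.inl ⟨hpc, rfl⟩⟩
    · refine ⟨none, ?_, fun x k h => root_of_coprime hp (by rw [hNi]; exact hpc) h,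
        Or.inr ⟨hpc, rfl⟩⟩
      change ordCompl[p] N.index = N.index
      rw [hNi]
      exact (Nat.ordCompl_eq_self_iff_zero_or_not_dvd c hp).2 (Or.inr hpc)
  have hprime : ∀ p : ℕ, p.Prime → ∃ (i : ι) (m : ℕ),
      ((p ∣ c ∧ A i = Kp N p) ∨ (¬ p ∣ c ∧ A i = (N : Set Gal(M1/K)))) ∧ m ≠ 0 ∧ ¬ p ∣ m ∧
        (fun _ : Gal(L/K) => (m : ℤ)) ∈ Submodule.span ℤ (fx '' {H | OneBadA (A i) S H}) := by
    intro p hp
    obtain ⟨i, hi1, hi2, hi3⟩ := hkind p hp
    obtain ⟨m, hm0, hm1, hm2⟩ := hmain i {p}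
      (fun q hq _ => by
        rw [Set.mem_singleton_iff] at hq
        subst hq
        exact hi2)
      (hloc0 i) (fun w hw d q hq _ => by
        rw [Set.mem_singleton_iff] at hq
        subst hq
        obtain ⟨H, hH, hfx⟩ := hyper_count2 hp d
        refine ⟨H, ?_, hfx⟩
        rw [← hi1]
        exact index_dvd hp H d hH hN0 (hcard w hw d))
    exact ⟨i, m, hi3, hm0, hm1 p rfl hp, hm2⟩
  have hsmul : ∀ m : ℕ, ((m : ℤ) • (fun _ : Gal(L/K) => (1 : ℤ))) = fun _ => (m : ℤ) := by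
    intro m
    funext g
    simp
  refine ⟨L, inferInstance, inferInstance, inferInstance, inferInstance, t2, hGL, ?_, ?_, ?_⟩
  · obtain ⟨m0, hm0, -, hm0'⟩ := hmain none ∅ (fun p hp => absurd hp (Set.notMem_empty p))
      (hloc0 none) (fun w hw d p hp => absurd hp (Set.notMem_empty p))
    obtain ⟨m, h1, h2, h3⟩ := exists_gen (Submodule.span ℤ
      (fx '' {H | OneBadA ((⊥ : Subgroup Gal(M/K)) : Set Gal(M/K)) S H}))
      (fun _ : Gal(L/K) => (1 : ℤ)) {p | ¬ p ∣ c} m0 hm0 (by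
        rw [hsmul]
        exact Submodule.span_mono (Set.image_mono fun H hH => htrans H hH) hm0')
      (fun p hpc hp => by
        obtain ⟨i, m, hi, -, hm1, hm2⟩ := hprime p hp
        rcases hi with ⟨h4, -⟩ | ⟨-, hi⟩
        · exact absurd h4 hpc
        · refine ⟨m, hm1, ?_⟩
          rw [hsmul]
          rw [hi] at hm2
          exact Submodule.span_mono (Set.image_mono fun H hH => htrans H hH) hm2)
    rw [hsmul] at h3
    refine ⟨m, h1, fun p hp hpm => ?_, h3⟩
    by_contra hpc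
    exact h2 p hpc hp hpm
  · obtain ⟨m0, hm0, -, hm0'⟩ := hmain none ∅ (fun p hp => absurd hp (Set.notMem_empty p))
      (hloc0 none) (fun w hw d p hp => absurd hp (Set.notMem_empty p))
    obtain ⟨m, h1, h2, h3⟩ := exists_gen (Submodule.span ℤ
      (fx '' {H | OneBadA ((⊥ : Subgroup Gal(M/K)) : Set Gal(M/K)) S H ∨
            ∃ p : ℕ, p.Prime ∧ p ∣ Nat.card Gal(M/K) ∧ OneBadA (Kp (⊥ : Subgroup Gal(M/K)) p) S H}))
      (fun _ : Gal(L/K) => (1 : ℤ)) Set.univ m0 hm0 (by
        rw [hsmul]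
        exact Submodule.span_mono (Set.image_mono fun H hH => Or.inl (htrans H hH)) hm0')
      (fun p _ hp => by
        obtain ⟨i, m, hi, -, hm1, hm2⟩ := hprime p hp
        refine ⟨m, hm1, ?_⟩
        rw [hsmul]
        rcases hi with ⟨h4, hi⟩ | ⟨-, hi⟩
        · rw [hi] at hm2
          exact Submodule.span_mono (Set.image_mono fun H hH =>
            Or.inr ⟨p, hp, h4, htransp p H hH⟩) hm2
        · rw [hi] at hm2
          exact Submodule.span_mono (Set.image_mono fun H hH => Or.inl (htrans H hH)) hm2)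
    have hm1 : m = 1 := by
      by_contra hne
      obtain ⟨p, hp, hpm⟩ := Nat.exists_prime_and_dvd hne
      exact h2 p trivial hp hpm
    rw [hsmul, hm1, Nat.cast_one] at h3
    exact h3
  · intro p hp hpc
    obtain ⟨i, m, hi, hm0, hm1, hm2⟩ := hprime p hp
    rcases hi with ⟨-, hi⟩ | ⟨h4, -⟩
    · refine ⟨m, hm0, hm1, ?_⟩
      rw [hi] at hm2
      exact Submodule.span_mono (Set.image_mono fun H hH => htransp p H hH) hm2
    · exact absurd hpc h4

end Pool.Agent.H46.OP
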