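import Mathlib

/-! Reduction of elliptic curves: good or split multiplicative reduction at a prime. -/

set_option autoImplicit false

namespace Pool.Agent.H46.OP

open NumberField IsDedekindDomain
open scoped Pointwise

/-- `E` has good or split multiplicative reduction at the prime `w` of `F`: it has a model with
coefficients in `𝓞 F` whose discriminant is prime to `w`, or whose reduction modulo `w` is the cubic
`y² + c x y = x³` with `c ≠ 0` (a node with rational tangents). -/
def GoodOrSplit {F : Type} [Field F] [NumberField F] (E : WeierstrassCurve F)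
    (w : HeightOneSpectrum (𝓞 F)) : Prop :=
  ∃ V : WeierstrassCurve (𝓞 F),
    (∃ C : WeierstrassCurve.VariableChange F, C • V.map (algebraMap (𝓞 F) F) = E) ∧
    (V.Δ ∉ w.asIdeal ∨ (V.a₁ ∉ w.asIdeal ∧ V.a₂ ∈ w.asIdeal ∧ V.a₃ ∈ w.asIdeal ∧
      V.a₄ ∈ w.asIdeal ∧ V.a₆ ∈ w.asIdeal))

end Pool.Agent.H46.OP
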