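import Pool.Agent.H46.OP.Rel

/-! Classes of number fields which suffice for all laws. -/

set_option autoImplicit false
set_option linter.unusedSectionVars false

namespace Pool.Agent.H46.OP

open NumberField IsDedekindDomain Pool.Agent.W353.NF Pool.Agent.W401.Cheb
  Pool.Agent.Q5.BR
open Pool.Agent.Q5.VL (IsLaw)

section
variable {K : Type} [Field K] [NumberField K]

/-- every extension of `K` has a relation with sum `1` between fields of the class -/
def Suffices (C : ∀ (F : Type) [Field F] [NumberField F] [Algebra K F], Prop) : Prop :=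
  ∀ (F : Type) [Field F] [NumberField F] [Algebra K F],
    ∃ (ι : Type) (_ : Fintype ι) (Y : ι → Ext F) (a : ι → ℤ),
      (∀ (j) [Algebra K (Y j).F] [IsScalarTower K F (Y j).F], C (Y j).F) ∧
      ∀ σ : GK F, ∑ j, a j * (fixn F (Y j).F σ : ℤ) = 1

variable {C : ∀ (F : Type) [Field F] [NumberField F] [Algebra K F], Prop}

theorem Suffices.law (hC : Suffices C)
    {P : ∀ (F : Type) [Field F] [NumberField F] [Algebra K F], ℤ → Prop} (hP : IsLaw P)
    (h : ∀ (F : Type) [Field F] [NumberField F] [Algebra K F], C F → P F 1)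
    (F : Type) [Field F] [NumberField F] [Algebra K F] : P F 1 := by
  obtain ⟨ι, _, Y, a, h1, h2⟩ := hC F
  let _ : ∀ j, Algebra K (Y j).F := fun j =>
    ((algebraMap F (Y j).F).comp (algebraMap K F)).toAlgebra
  have : ∀ j, IsScalarTower K F (Y j).F := fun j => IsScalarTower.of_algebraMap_eq fun x => rfl
  have h3 := hP.step F ι Y a 1 h2 1 fun j => h (Y j).F (h1 j)
  rwa [one_mul] at h3

theorem Suffices.above (hC : Suffices C) (F : Type) [Field F] [NumberField F] [Algebra K F] :
    ∃ Y : Ext F, ∀ [Algebra K Y.F] [IsScalarTower K F Y.F], C Y.F := by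
  obtain ⟨ι, _, Y, a, h1, h2⟩ := hC F
  have hne : Nonempty ι := by
    by_contra h
    rw [not_nonempty_iff] at h
    have h3 := h2 1
    rw [Finset.univ_eq_empty, Finset.sum_empty] at h3
    exact zero_ne_one h3
  obtain ⟨j⟩ := hne
  exact ⟨Y j, h1 j⟩

end

theorem suffices_special (K : Type) [Field K] [NumberField K]
    (S : Set (HeightOneSpectrum (𝓞 K))) (hS : S.Finite) (X : ℕ) (T : Type) [Field T]
    [NumberField T] [Algebra K T] : Suffices (K := K) (fun F _ _ _ => SpecialP S X T F) :=
  fun F _ _ _ => one_bad_place_relation_over K S hS X T F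

end Pool.Agent.H46.OP
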