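import Pool.Agent.H46.SP.CaseB
import Pool.Agent.H46.OP.Defs

/-! Approximation of elements fixed by a decomposition group. -/

set_option autoImplicit false
set_option linter.unusedSectionVars false

namespace Pool.Agent.H46.OP

open NumberField IsDedekindDomain Polynomial
open scoped Pointwise

section
variable {K L : Type} [Field K] [NumberField K] [Field L] [NumberField L] [Algebra K L]

theorem smul_pow (σ : Gal(L/K)) (W : Ideal (𝓞 L)) (k : ℕ) : σ • (W ^ k) = (σ • W) ^ k := by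
  rw [Ideal.pointwise_smul_def, Ideal.pointwise_smul_def, Ideal.map_pow]

theorem smul_mem_pow {σ : Gal(L/K)} {W : Ideal (𝓞 L)} {k : ℕ} {x : 𝓞 L} :
    σ • x ∈ (σ • W) ^ k ↔ x ∈ W ^ k := by
  rw [← smul_pow, Ideal.smul_mem_pointwise_smul_iff]

theorem smul_mem_pow' {σ : Gal(L/K)} {W : Ideal (𝓞 L)} (hσ : σ • W = W) {k : ℕ} {x : 𝓞 L} :
    σ • x ∈ W ^ k ↔ x ∈ W ^ k := by
  conv_lhs => rw [← hσ]
  exact smul_mem_pow

variable [IsGalois K L]

theorem approx (W : Ideal (𝓞 L)) (hW : W.IsPrime) (hW0 : W ≠ ⊥) (c : 𝓞 L)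
    (hc : ∀ σ : Gal(L/K), σ • W = W → σ • c = c) (k : ℕ) :
    ∃ a : 𝓞 K, algebraMap (𝓞 K) (𝓞 L) a - c ∈ W ^ k := by
  classical
  let G := Gal(L/K)
  let _ : Fintype G := Fintype.ofFinite G
  let Q : Finset (Ideal (𝓞 L)) := Finset.univ.image fun σ : G => σ • W
  have hQ : ∀ q, q ∈ Q ↔ ∃ σ : G, σ • W = q := fun q => by simp [Q]
  have hprime : ∀ q ∈ Q, Prime q := by
    intro q hq
    obtain ⟨σ, rfl⟩ := (hQ q).1 hq
    have h1 : (σ • W).IsPrime := inferInstance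
    exact (Ideal.prime_iff_isPrime (Pool.Agent.H46.SP.smul_ne_bot hW0 σ)).2 h1
  obtain ⟨x, hx⟩ := IsDedekindDomain.exists_forall_sub_mem_ideal (s := Q) (fun q => q)
    (fun _ => k) hprime (fun i _ j _ h => h) (fun q => if q.1 = W then 1 else 0)
  have hWQ : W ∈ Q := (hQ W).2 ⟨1, one_smul _ _⟩
  have hx1 : x - 1 ∈ W ^ k := by
    have := hx W hWQ
    simpa using this
  have hx2 : ∀ q ∈ Q, q ≠ W → x ∈ q ^ k := by
    intro q hq hne
    have := hx q hq
    simpa [hne] using this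
  let D : Finset G := Finset.univ.filter fun τ => τ • W = W
  have hD : ∀ τ, τ ∈ D ↔ τ • W = W := fun τ => by simp [D]
  let y : 𝓞 L := ∏ τ ∈ D, τ • x
  have hy1 : y - 1 ∈ W ^ k := by
    have h : Ideal.Quotient.mk (W ^ k) y = 1 := by
      rw [map_prod]
      refine Finset.prod_eq_one fun τ hτ => ?_
      rw [← map_one (Ideal.Quotient.mk (W ^ k)), Ideal.Quotient.eq]
      have h2 : τ • x - 1 = τ • (x - 1) := by rw [smul_sub, smul_one]
      rw [h2, smul_mem_pow' ((hD τ).1 hτ)]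
      exact hx1
    rw [← map_one (Ideal.Quotient.mk (W ^ k)), Ideal.Quotient.eq] at h
    exact h
  have hy2 : ∀ q ∈ Q, q ≠ W → y ∈ q ^ k := by
    intro q hq hne
    have h1 : (1 : G) ∈ D := (hD 1).2 (one_smul _ _)
    have h2 : y = (1 : G) • x * ∏ τ ∈ D.erase 1, τ • x := (Finset.mul_prod_erase D _ h1).symm
    rw [h2, one_smul]
    exact Ideal.mul_mem_right _ _ (hx2 q hq hne)
  have hy3 : ∀ τ : G, τ • W = W → τ • y = y := by
    intro τ hτ
    rw [Finset.smul_prod']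
    refine Finset.prod_bij (fun ρ _ => τ * ρ) ?_ ?_ ?_ ?_
    · intro ρ hρ
      rw [hD] at hρ ⊢
      rw [mul_smul, hρ, hτ]
    · intro a _ b _ h
      exact mul_left_cancel h
    · intro ρ hρ
      refine ⟨τ⁻¹ * ρ, ?_, by group⟩
      rw [hD] at hρ ⊢
      rw [mul_smul, hρ, inv_smul_eq_iff, hτ]
    · intro ρ _
      rw [mul_smul]
  let z : 𝓞 L := c * y
  have hz3 : ∀ τ : G, τ • W = W → τ • z = z := by
    intro τ hτ
    rw [smul_mul', hc τ hτ, hy3 τ hτ]
  have hsig : ∀ q : Q, ∃ σ : G, σ • W = q.1 := fun q => (hQ q.1).1 q.2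
  choose s hs using hsig
  have hkey : ∀ (q : Q) (σ : G), σ • W = q.1 → σ • z = s q • z := by
    intro q σ hσ
    have h1 : ((s q)⁻¹ * σ) • W = W := by
      rw [mul_smul, hσ, ← hs q, inv_smul_smul]
    have h2 := hz3 _ h1
    rw [mul_smul, inv_smul_eq_iff] at h2
    exact h2
  let a' : 𝓞 L := ∑ q : Q, s q • z
  have hinv : ∀ ρ : G, ρ • a' = a' := by
    intro ρ
    have hmem : ∀ (ρ : G) (q : Q), ρ • q.1 ∈ Q := by
      intro ρ q
      obtain ⟨σ, hσ⟩ := (hQ q.1).1 q.2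
      exact (hQ _).2 ⟨ρ * σ, by rw [mul_smul, hσ]⟩
    let e : Q ≃ Q :=
      { toFun := fun q => ⟨ρ • q.1, hmem ρ q⟩
        invFun := fun q => ⟨ρ⁻¹ • q.1, hmem ρ⁻¹ q⟩
        left_inv := fun q => Subtype.ext (inv_smul_smul ρ q.1)
        right_inv := fun q => Subtype.ext (smul_inv_smul ρ q.1) }
    rw [Finset.smul_sum]
    have h1 : ∀ q : Q, ρ • s q • z = s (e q) • z := by
      intro q
      rw [← mul_smul]
      exact hkey (e q) (ρ * s q) (by
        rw [mul_smul, hs q]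
        rfl)
    rw [Finset.sum_congr rfl fun q _ => h1 q]
    exact Equiv.sum_comp e fun q => s q • z
  obtain ⟨a, ha⟩ := Algebra.IsInvariant.isInvariant (A := 𝓞 K) (G := G) a' hinv
  refine ⟨a, ?_⟩
  rw [ha]
  have hsum : a' - z ∈ W ^ k := by
    have h1 : a' = s ⟨W, hWQ⟩ • z + ∑ q ∈ Finset.univ.erase (⟨W, hWQ⟩ : Q), s q • z :=
      (Finset.add_sum_erase _ (fun q => s q • z) (Finset.mem_univ _)).symm
    have h2 : s ⟨W, hWQ⟩ • z = z := hz3 _ (hs ⟨W, hWQ⟩)
    rw [h1, h2, add_sub_cancel_left]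
    refine Ideal.sum_mem _ fun q hq => ?_
    have hne : q.1 ≠ W := fun h => (Finset.mem_erase.1 hq).1 (Subtype.ext h)
    have h3 : (s q)⁻¹ • W ≠ W := by
      intro h
      apply hne
      rw [← hs q]
      conv_lhs => rw [← h]
      exact smul_inv_smul _ _
    have h4 : y ∈ ((s q)⁻¹ • W) ^ k := hy2 _ ((hQ _).2 ⟨_, rfl⟩) h3
    have h5 : s q • y ∈ W ^ k := by
      have h6 := (smul_mem_pow (σ := s q)).2 h4
      rwa [smul_inv_smul] at h6
    change s q • (c * y) ∈ W ^ k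
    rw [smul_mul']
    exact Ideal.mul_mem_left _ _ h5
  have h7 : a' - c = (a' - z) + c * (y - 1) := by
    change a' - c = (a' - c * y) + c * (y - 1)
    ring
  rw [h7]
  exact Ideal.add_mem _ hsum (Ideal.mul_mem_left _ _ hy1)

end

end Pool.Agent.H46.OP
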