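import Pool.Agent.H46.OP.Approx

/-! Polynomials with roots close to given elements. -/

set_option autoImplicit false
set_option linter.unusedSectionVars false

namespace Pool.Agent.H46.OP

open NumberField IsDedekindDomain Polynomial
open scoped Pointwise

section
variable {L : Type} [Field L] [NumberField L]

theorem mul_notMem (W : HeightOneSpectrum (𝓞 L)) {a b : 𝓞 L} {i j : ℕ} (ha : a ∉ W.asIdeal ^ i)
    (hb : b ∉ W.asIdeal ^ j) : a * b ∉ W.asIdeal ^ (i + j) := by
  rw [← W.intValuation_le_pow_iff_mem, not_le] at ha hb ⊢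
  rw [map_mul]
  have h1 : WithZero.exp (-((i + j : ℕ) : ℤ)) = WithZero.exp (-(i : ℤ)) * WithZero.exp (-(j : ℤ)) := by
    rw [← WithZero.exp_add]
    congr 1
    push_cast
    ring
  rw [h1]
  exact mul_lt_mul'' ha hb zero_le zero_le

theorem exists_mem_of_prod (W : HeightOneSpectrum (𝓞 L)) (t : ℕ) (s : Multiset (𝓞 L)) :
    s ≠ 0 → s.prod ∈ W.asIdeal ^ (s.card * t) → ∃ x ∈ s, x ∈ W.asIdeal ^ t := by
  induction s using Multiset.induction_on with
  | empty => exact fun h => absurd rfl h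
  | cons a s ih =>
    intro _ h
    by_cases ha : a ∈ W.asIdeal ^ t
    · exact ⟨a, Multiset.mem_cons_self a s, ha⟩
    · by_cases hs : s = 0
      · subst hs
        rw [Multiset.prod_cons, Multiset.prod_zero, mul_one, Multiset.card_cons, Multiset.card_zero,
          zero_add, one_mul] at h
        exact ⟨a, Multiset.mem_cons_self a _, h⟩
      · have h1 : s.prod ∈ W.asIdeal ^ (s.card * t) := by
          by_contra h2
          have h3 := mul_notMem W ha h2
          apply h3
          rw [Multiset.prod_cons, Multiset.card_cons] at h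
          rwa [add_comm, ← Nat.succ_mul]
        obtain ⟨x, hx, hx2⟩ := ih hs h1
        exact ⟨x, Multiset.mem_cons_of_mem hx, hx2⟩

/-- the roots of `f` are close to the given elements -/
theorem exists_match {ι : Type} [Fintype ι] {n : ℕ} (hn : n ≠ 0) (hι : Fintype.card ι = n)
    (W : HeightOneSpectrum (𝓞 L)) (t : ℕ) (μ : ι → 𝓞 L)
    (hμ : ∀ i j, i ≠ j → μ i - μ j ∉ W.asIdeal ^ t) (f : (𝓞 L)[X]) (hm : f.Monic)
    (hd : f.natDegree = n) (hs : f.Splits)
    (hc : ∀ j, (f - ∏ i, (X - C (μ i))).coeff j ∈ W.asIdeal ^ (n * t)) :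
    ∃ b : ι → 𝓞 L, (∀ i, f.eval (b i) = 0 ∧ μ i - b i ∈ W.asIdeal ^ t) ∧
      Function.Injective b ∧ (∀ β, f.eval β = 0 → ∃ i, b i = β) ∧
      ∀ i β, f.eval β = 0 → μ i - β ∈ W.asIdeal ^ t → β = b i := by
  classical
  have hf0 : f ≠ 0 := hm.ne_zero
  have hcard : f.roots.card = n := by rw [← hd, hs.natDegree_eq_card_roots]
  have hprod : ∀ x : 𝓞 L, f.eval x = (f.roots.map fun β => x - β).prod := by
    intro x
    conv_lhs => rw [hs.eq_prod_roots, hm.leadingCoeff, C_1, one_mul]
    rw [eval_multiset_prod, Multiset.map_map]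
    congr 1
    refine Multiset.map_congr rfl fun β _ => ?_
    simp
  have hex : ∀ i, ∃ β, f.eval β = 0 ∧ μ i - β ∈ W.asIdeal ^ t := by
    intro i
    have h1 : f.eval (μ i) ∈ W.asIdeal ^ (n * t) := by
      have h2 : (∏ i, (X - C (μ i)) : (𝓞 L)[X]).eval (μ i) = 0 := by
        rw [eval_prod]
        exact Finset.prod_eq_zero (Finset.mem_univ i) (by simp)
      have h3 : f.eval (μ i) = (f - ∏ i, (X - C (μ i))).eval (μ i) := by
        rw [eval_sub, h2, sub_zero]
      rw [h3, eval_eq_sum_range]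
      exact Ideal.sum_mem _ fun j _ => Ideal.mul_mem_right _ _ (hc j)
    rw [hprod] at h1
    obtain ⟨x, hx, hx2⟩ := exists_mem_of_prod W t (f.roots.map fun β => μ i - β) (by
      rw [Ne, ← Multiset.card_eq_zero, Multiset.card_map, hcard]
      exact hn) (by rwa [Multiset.card_map, hcard])
    rw [Multiset.mem_map] at hx
    obtain ⟨β, hβ, rfl⟩ := hx
    exact ⟨β, (mem_roots hf0).1 hβ, hx2⟩
  choose b hb using hex
  have huniq : ∀ i j β, μ i - β ∈ W.asIdeal ^ t → μ j - β ∈ W.asIdeal ^ t → i = j := by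
    intro i j β h1 h2
    by_contra hne
    apply hμ i j hne
    have h3 := Ideal.sub_mem _ h1 h2
    rwa [sub_sub_sub_cancel_right] at h3
  have hinj : Function.Injective b := by
    intro i j hij
    exact huniq i j (b i) (hb i).2 (by rw [hij]; exact (hb j).2)
  have hsurj : ∀ β, f.eval β = 0 → ∃ i, b i = β := by
    intro β hβ
    have h1 : Finset.univ.image b ⊆ f.roots.toFinset := by
      intro x hx
      obtain ⟨i, -, rfl⟩ := Finset.mem_image.1 hx
      rw [Multiset.mem_toFinset, mem_roots hf0]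
      exact (hb i).1
    have h2 : f.roots.toFinset.card ≤ (Finset.univ.image b).card := by
      rw [Finset.card_image_of_injective _ hinj, Finset.card_univ, hι, ← hcard]
      exact Multiset.toFinset_card_le _
    have h3 := Finset.eq_of_subset_of_card_le h1 h2
    have h4 : β ∈ f.roots.toFinset := by
      rw [Multiset.mem_toFinset, mem_roots hf0]
      exact hβ
    rw [← h3] at h4
    obtain ⟨i, -, hi⟩ := Finset.mem_image.1 h4
    exact ⟨i, hi⟩
  refine ⟨b, hb, hinj, hsurj, fun i β hβ h => ?_⟩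
  obtain ⟨j, rfl⟩ := hsurj β hβ
  rw [huniq i j (b j) h (hb j).2]

/-- finitely many elements are separated modulo a high power of a prime -/
theorem exists_sep {ι : Type} [Finite ι] (W : HeightOneSpectrum (𝓞 L)) (μ : ι → 𝓞 L)
    (hμ : Function.Injective μ) : ∃ t : ℕ, ∀ i j, i ≠ j → μ i - μ j ∉ W.asIdeal ^ t := by
  classical
  have h1 : ∀ x : 𝓞 L, x ≠ 0 → ∃ t : ℕ, x ∉ W.asIdeal ^ t := by
    intro x hx
    by_contra h
    push Not at h
    apply hx
    have h2 : x ∈ ⨅ i : ℕ, W.asIdeal ^ i := by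
      rw [Ideal.mem_iInf]
      exact h
    rwa [Ideal.iInf_pow_eq_bot_of_isDomain _ W.isPrime.ne_top, Ideal.mem_bot] at h2
  have h2 : ∀ p : ι × ι, ∃ t : ℕ, p.1 ≠ p.2 → μ p.1 - μ p.2 ∉ W.asIdeal ^ t := by
    intro p
    by_cases hp : p.1 = p.2
    · exact ⟨0, fun h => absurd hp h⟩
    · obtain ⟨t, ht⟩ := h1 (μ p.1 - μ p.2) (sub_ne_zero.2 fun h => hp (hμ h))
      exact ⟨t, fun _ => ht⟩
  choose T hT using h2
  let _ : Fintype ι := Fintype.ofFinite ι
  refine ⟨Finset.univ.sup T, fun i j hij h => hT (i, j) hij ?_⟩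
  exact Ideal.pow_le_pow_right (Finset.le_sup (Finset.mem_univ _)) h

end

end Pool.Agent.H46.OP
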