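import Pool.Agent.H46.SP.ExistL
import Pool.Agent.H46.OP.Match

/-! Tools for towers of number fields. -/

set_option autoImplicit false
set_option linter.unusedSectionVars false

namespace Pool.Agent.H46.OP

open NumberField IsDedekindDomain Polynomial
open scoped Pointwise
open Pool.Agent.H46.SP (res res_apply res_smul under_smul under_under exists_above exists_under
  smul_ne_bot exists_L exists_int)

section
variable {M L : Type} [Field M] [NumberField M] [Field L] [NumberField L] [Algebra M L]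

/-- powers of primes above -/
theorem exists_pow_iff (w : HeightOneSpectrum (𝓞 M)) (W : HeightOneSpectrum (𝓞 L))
    (h : W.asIdeal.under (𝓞 M) = w.asIdeal) :
    ∃ e : ℕ, e ≠ 0 ∧ ∀ (x : 𝓞 M) (j : ℕ),
      algebraMap (𝓞 M) (𝓞 L) x ∈ W.asIdeal ^ (e * j) ↔ x ∈ w.asIdeal ^ j := by
  have hl : W.asIdeal.LiesOver w.asIdeal := ⟨h.symm⟩
  have he := Ideal.IsDedekindDomain.ramificationIdx'_ne_zero_of_liesOver W.asIdeal w.ne_bot
  refine ⟨w.asIdeal.ramificationIdx' W.asIdeal, he, fun x j => ?_⟩
  rw [← W.intValuation_le_pow_iff_mem, ← w.intValuation_le_pow_iff_mem,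
    ← HeightOneSpectrum.intValuation_liesOver w W]
  have h1 : WithZero.exp (-((w.asIdeal.ramificationIdx' W.asIdeal * j : ℕ) : ℤ)) =
      WithZero.exp (-(j : ℤ)) ^ w.asIdeal.ramificationIdx' W.asIdeal := by
    rw [← WithZero.exp_nsmul]
    congr 1
    push_cast
    rw [nsmul_eq_mul]
    ring
  rw [h1]
  exact pow_le_pow_iff_left₀ zero_le zero_le he

theorem splits_of_map {f : (𝓞 L)[X]} (hm : f.Monic) (hs : (f.map (algebraMap (𝓞 L) L)).Splits) :
    f.Splits := by
  have h0 : f.map (algebraMap (𝓞 L) L) ≠ 0 := (hm.map _).ne_zero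
  have h1 : ∀ r ∈ (f.map (algebraMap (𝓞 L) L)).roots, ∃ b : 𝓞 L, algebraMap (𝓞 L) L b = r := by
    intro r hr
    rw [mem_roots h0, IsRoot.def, eval_map_algebraMap] at hr
    obtain ⟨b, hb, -⟩ := exists_int (K := L) (L := L) hm hr
    exact ⟨b, hb⟩
  choose! b hb using h1
  have h2 : f = (((f.map (algebraMap (𝓞 L) L)).roots.map b).map fun a => X - C a).prod := by
    apply Polynomial.map_injective _ (FaithfulSMul.algebraMap_injective (𝓞 L) L)
    conv_lhs => rw [hs.eq_prod_roots, (hm.map _).leadingCoeff, C_1, one_mul]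
    rw [Polynomial.map_multiset_prod, Multiset.map_map, Multiset.map_map]
    congr 1
    refine Multiset.map_congr rfl fun r hr => ?_
    rw [Function.comp_apply, Function.comp_apply, Polynomial.map_sub, map_X, map_C, hb r hr]
  rw [h2]
  refine Splits.multisetProd ?_
  intro p hp
  obtain ⟨a, -, rfl⟩ := Multiset.mem_map.1 hp
  exact Splits.X_sub_C a

end

section
variable {K M : Type} [Field K] [NumberField K] [Field M] [NumberField M] [Algebra K M]

theorem finite_above [IsGalois K M] (S : Finset (HeightOneSpectrum (𝓞 K))) :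
    {w : HeightOneSpectrum (𝓞 M) | ∃ v ∈ S, w.asIdeal.under (𝓞 K) = v.asIdeal}.Finite := by
  classical
  choose m1 hm1 using fun v : HeightOneSpectrum (𝓞 K) => exists_above (M := K) (L := M) v
  have h1 : (⋃ v ∈ S, {m : HeightOneSpectrum (𝓞 M) | m.asIdeal.under (𝓞 K) = v.asIdeal}).Finite := by
    refine Set.Finite.biUnion S.finite_toSet fun v _ => ?_
    refine Set.Finite.of_finite_image (f := fun m : HeightOneSpectrum (𝓞 M) => m.asIdeal)
      ((Set.finite_range (fun σ : Gal(M/K) => σ • (m1 v).asIdeal)).subset ?_) ?_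
    · rintro _ ⟨m, hm, rfl⟩
      obtain ⟨σ, hσ⟩ := Algebra.IsInvariant.exists_smul_of_under_eq (𝓞 K) (𝓞 M) Gal(M/K)
        (m1 v).asIdeal m.asIdeal ((hm1 v).trans (Eq.symm hm))
      exact ⟨σ, hσ.symm⟩
    · intro m _ m' _ h
      exact HeightOneSpectrum.ext h
  refine h1.subset ?_
  rintro m ⟨v, hv, hm⟩
  exact Set.mem_biUnion hv hm

/-- an integral element with trivial stabilizer -/
theorem exists_prim (K M : Type) [Field K] [NumberField K] [Field M] [NumberField M] [Algebra K M] :
    ∃ θ : 𝓞 M, ∀ σ : Gal(M/K), σ • θ = θ → σ = 1 := by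
  obtain ⟨α, hα⟩ := Field.exists_primitive_element K M
  have halg : IsAlgebraic ℤ α := by
    have h1 : IsAlgebraic ℚ α := Algebra.IsAlgebraic.isAlgebraic α
    exact (IsFractionRing.isAlgebraic_iff ℤ ℚ M).2 h1
  obtain ⟨d, hd0, hd⟩ := halg.exists_integral_multiple
  refine ⟨⟨d • α, hd⟩, fun σ hσ => ?_⟩
  have h1 : σ (d • α) = d • α := congrArg (fun x : 𝓞 M => (x : M)) hσ
  rw [map_zsmul] at h1
  have h2 : σ α = α := by
    have hd0' : (d : M) ≠ 0 := by exact_mod_cast hd0
    rw [zsmul_eq_mul, zsmul_eq_mul] at h1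
    exact mul_left_cancel₀ hd0' h1
  have h3 : (⊤ : IntermediateField K M) ≤ IntermediateField.fixedField (Subgroup.zpowers σ) := by
    rw [← hα, IntermediateField.adjoin_simple_le_iff, IntermediateField.mem_fixedField_iff]
    rintro _ ⟨i, rfl⟩
    have h7 : σ ∈ MulAction.stabilizer Gal(M/K) α := h2
    exact Subgroup.zpow_mem _ h7 i
  ext x
  have h9 : x ∈ IntermediateField.fixedField (Subgroup.zpowers σ) := h3 IntermediateField.mem_top
  rw [IntermediateField.mem_fixedField_iff] at h9
  exact h9 σ (Subgroup.mem_zpowers σ)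

end

end Pool.Agent.H46.OP
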