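import Pool.Agent.H46.OP.PolyVC

/-! The relation between fields with at most one bad place. -/

set_option autoImplicit false
set_option linter.unusedSectionVars false

namespace Pool.Agent.H46.OP

open NumberField IsDedekindDomain Polynomial
open scoped Pointwise
open Pool.Agent.R433.MD (fx fixed_mem)
open Pool.Agent.H46.SP (res res_apply res_smul under_smul under_under exists_above exists_under
  smul_ne_bot exists_L exists_int)

section
variable {K L : Type} [Field K] [NumberField K] [Field L] [NumberField L] [Algebra K L]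

/-- the action on primes -/
noncomputable def sH (σ : Gal(L/K)) (W : HeightOneSpectrum (𝓞 L)) : HeightOneSpectrum (𝓞 L) :=
  ⟨σ • W.asIdeal, inferInstance, smul_ne_bot W.ne_bot σ⟩

theorem sH_asIdeal (σ : Gal(L/K)) (W : HeightOneSpectrum (𝓞 L)) :
    (sH σ W).asIdeal = σ • W.asIdeal := rfl

/-- `W` lies over a prime in `S` -/
def Over (S : Finset (HeightOneSpectrum (𝓞 K))) (W : HeightOneSpectrum (𝓞 L)) : Prop :=
  ∃ v ∈ S, W.asIdeal.under (𝓞 K) = v.asIdeal

theorem under_K_smul (σ : Gal(L/K)) (w : Ideal (𝓞 L)) : (σ • w).under (𝓞 K) = w.under (𝓞 K) := by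
  ext x
  change algebraMap (𝓞 K) (𝓞 L) x ∈ σ • w ↔ algebraMap (𝓞 K) (𝓞 L) x ∈ w
  rw [Ideal.mem_pointwise_smul_iff_inv_smul_mem]
  have h1 : σ⁻¹ • algebraMap (𝓞 K) (𝓞 L) x = algebraMap (𝓞 K) (𝓞 L) x := by
    apply RingOfIntegers.coe_injective (K := L)
    exact (σ⁻¹).commutes (x : K)
  rw [h1]

theorem exists_smul_over [IsGalois K L] (W W' : HeightOneSpectrum (𝓞 L))
    (h : W.asIdeal.under (𝓞 K) = W'.asIdeal.under (𝓞 K)) :
    ∃ σ : Gal(L/K), σ • W.asIdeal = W'.asIdeal := by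
  obtain ⟨σ, hσ⟩ := Algebra.IsInvariant.exists_smul_of_under_eq (𝓞 K) (𝓞 L) Gal(L/K)
    W.asIdeal W'.asIdeal h
  exact ⟨σ, hσ.symm⟩

variable [IsGalois K L]

/-- the roots -/
@[ext] structure Rt (L : Type) [Field L] [NumberField L] [Algebra K L] (f : (𝓞 K)[X]) : Type where
  /-- the root -/
  val : 𝓞 L
  /-- it is a root -/
  prop : aeval val f = 0

theorem Rt_finite {f : (𝓞 K)[X]} (hf : f.Monic) : Finite (Rt L f) := by
  classical
  have h0 : f.map (algebraMap (𝓞 K) (𝓞 L)) ≠ 0 := (hf.map _).ne_zero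
  have h1 : ∀ b : Rt L f, b.val ∈ (f.map (algebraMap (𝓞 K) (𝓞 L))).roots.toFinset := by
    rintro ⟨b, hb⟩
    rw [Multiset.mem_toFinset, mem_roots h0, IsRoot.def, eval_map_algebraMap]
    exact hb
  exact Finite.of_injective (fun b : Rt L f =>
    (⟨b.val, h1 b⟩ : {x // x ∈ (f.map (algebraMap (𝓞 K) (𝓞 L))).roots.toFinset})) (by
      intro b b' h
      exact Rt.ext (congrArg (fun z => z.1) h))

noncomputable instance (f : (𝓞 K)[X]) : MulAction Gal(L/K) (Rt L f) where
  smul g b := ⟨g • b.val, Pool.Agent.H46.SP.aeval_smul g b.prop⟩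
  one_smul b := Rt.ext (one_smul _ b.val)
  mul_smul g h b := Rt.ext (mul_smul g h b.val)

theorem Rt_smul (f : (𝓞 K)[X]) (g : Gal(L/K)) (b : Rt L f) : (g • b).val = g • b.val := rfl

/-- the number of roots fixed by `g` -/
noncomputable def psi (L : Type) [Field L] [NumberField L] [Algebra K L] [IsGalois K L]
    (f : (𝓞 K)[X]) (g : Gal(L/K)) : ℤ := (Nat.card {b : Rt L f // g • b = b} : ℤ)

theorem psi_conj (f : (𝓞 K)[X]) (g x : Gal(L/K)) : psi L f (x * g * x⁻¹) = psi L f g := by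
  unfold psi
  congr 1
  refine Nat.card_congr
    { toFun := fun b => ⟨x⁻¹ • b.1, ?_⟩
      invFun := fun b => ⟨x • b.1, ?_⟩
      left_inv := fun b => Subtype.ext (smul_inv_smul x b.1)
      right_inv := fun b => Subtype.ext (inv_smul_smul x b.1) }
  · have h := b.2
    rw [mul_smul, mul_smul] at h
    rw [eq_inv_smul_iff]
    exact h
  · rw [mul_smul, mul_smul, inv_smul_smul, b.2]

end

section
variable {K M L : Type} [Field K] [NumberField K] [Field M] [NumberField M] [Field L]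
  [NumberField L] [Algebra K M] [Algebra M L] [Algebra K L] [IsScalarTower K M L]
  [IsGalois K M] [IsGalois K L]

/-- every prime is conjugate to one above a given prime of `M` -/
theorem exists_conj_over (W : HeightOneSpectrum (𝓞 L)) (w : HeightOneSpectrum (𝓞 M))
    (h : W.asIdeal.under (𝓞 K) = w.asIdeal.under (𝓞 K)) :
    ∃ σ : Gal(L/K), (σ • W.asIdeal).under (𝓞 M) = w.asIdeal := by
  obtain ⟨W0, hW0⟩ := exists_above (M := M) (L := L) w
  obtain ⟨σ, hσ⟩ := exists_smul_over W W0 (by rw [h, ← hW0, under_under])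
  exact ⟨σ, by rw [hσ, hW0]⟩

/-- decomposition groups of a tower -/
theorem lift_dec (W : HeightOneSpectrum (𝓞 L)) (d : Gal(M/K))
    (hd : d • (W.asIdeal.under (𝓞 M)) = W.asIdeal.under (𝓞 M)) :
    ∃ δ : Gal(L/K), res K M δ = d ∧ δ • W.asIdeal = W.asIdeal := by
  obtain ⟨δ1, hδ1⟩ := AlgEquiv.restrictNormalHom_surjective (F := K) (K₁ := M) L d
  have h1 : (δ1 • W.asIdeal).under (𝓞 M) = W.asIdeal.under (𝓞 M) := by
    rw [under_smul]
    change AlgEquiv.restrictNormalHom M δ1 • _ = _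
    rw [hδ1, hd]
  have hGM : IsGalois M L := IsGalois.tower_top_of_isGalois K M L
  obtain ⟨ε, hε⟩ := exists_smul_over (K := M) (sH δ1 W) W h1
  let ε' : Gal(L/K) := ε.restrictScalars K
  have hε' : ∀ x : 𝓞 L, ε' • x = ε • x := by
    intro x
    apply RingOfIntegers.coe_injective (K := L)
    rfl
  have hres : res K M ε' = 1 := by
    ext x
    apply (algebraMap M L).injective
    rw [res_apply]
    exact ε.commutes x
  refine ⟨ε' * δ1, ?_, ?_⟩
  · rw [map_mul, hres, one_mul]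
    exact hδ1
  · rw [mul_smul]
    have h2 : ε' • (δ1 • W.asIdeal) = ε • (δ1 • W.asIdeal) := by
      ext x
      have e1 : x ∈ ε' • (δ1 • W.asIdeal) ↔ ε'⁻¹ • x ∈ δ1 • W.asIdeal :=
        Ideal.mem_pointwise_smul_iff_inv_smul_mem
      have e2 : x ∈ ε • (δ1 • W.asIdeal) ↔ ε⁻¹ • x ∈ δ1 • W.asIdeal :=
        Ideal.mem_pointwise_smul_iff_inv_smul_mem
      have h3 : ε'⁻¹ • x = ε⁻¹ • x := by
        rw [inv_smul_eq_iff, hε', smul_inv_smul]
      rw [e1, e2, h3]
    rw [h2]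
    exact hε

/-- the bad primes of the field of `H` -/
def BadAt (N : Subgroup Gal(M/K)) (H : Subgroup Gal(L/K)) (W : HeightOneSpectrum (𝓞 L)) : Prop :=
  ∃ h ∈ H, h • W.asIdeal = W.asIdeal ∧ res K M h ∉ N

/-- at most one bad prime -/
def OneBad (N : Subgroup Gal(M/K)) (S : Finset (HeightOneSpectrum (𝓞 K)))
    (H : Subgroup Gal(L/K)) : Prop :=
  ∀ W W' : HeightOneSpectrum (𝓞 L), Over S W → Over S W' → BadAt N H W → BadAt N H W' →
    ∃ τ ∈ H, τ • W.asIdeal = W'.asIdeal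

/-- no bad prime -/
def NoBad (N : Subgroup Gal(M/K)) (S : Finset (HeightOneSpectrum (𝓞 K)))
    (H : Subgroup Gal(L/K)) : Prop :=
  ∀ W : HeightOneSpectrum (𝓞 L), Over S W → ¬ BadAt N H W

theorem NoBad.oneBad {N : Subgroup Gal(M/K)} {S : Finset (HeightOneSpectrum (𝓞 K))}
    {H : Subgroup Gal(L/K)} (h : NoBad N S H) : OneBad N S H :=
  fun W _ hW _ hb _ => absurd hb (h W hW)

theorem NoBad.le {N : Subgroup Gal(M/K)} {S : Finset (HeightOneSpectrum (𝓞 K))}
    {H H' : Subgroup Gal(L/K)} (h : NoBad N S H) (hle : H' ≤ H) : NoBad N S H' :=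
  fun W hW ⟨x, hx, h2⟩ => h W hW ⟨x, hle hx, h2⟩

theorem NoBad.conj {N : Subgroup Gal(M/K)} [N.Normal] {S : Finset (HeightOneSpectrum (𝓞 K))}
    {H : Subgroup Gal(L/K)} (h : NoBad N S H) (x : Gal(L/K)) :
    NoBad N S (H.map (MulAut.conj x).toMonoidHom) := by
  rintro W hW ⟨_, ⟨y, hy, rfl⟩, h1, h2⟩
  refine h (sH x⁻¹ W) ?_ ⟨y, hy, ?_, ?_⟩
  · obtain ⟨v, hv, hv2⟩ := hW
    exact ⟨v, hv, by rw [sH_asIdeal, under_K_smul, hv2]⟩
  · rw [sH_asIdeal]
    have h3 : (x * y * x⁻¹) • W.asIdeal = W.asIdeal := h1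
    rw [mul_smul, mul_smul] at h3
    rw [eq_inv_smul_iff]
    exact h3
  · intro h3
    apply h2
    change res K M (x * y * x⁻¹) ∈ N
    rw [map_mul, map_mul, map_inv]
    exact Subgroup.Normal.conj_mem inferInstance _ h3 _

/-- the roots lie in the smaller field -/
theorem psi_res {f : (𝓞 K)[X]} (hm : f.Monic) (hs : (f.map (algebraMap (𝓞 K) M)).Splits)
    (g : Gal(L/K)) : psi L f g = psi M f (res K M g) := by
  unfold psi
  congr 1
  symm
  have t0 : IsScalarTower (𝓞 K) M L := IsScalarTower.of_algebraMap_eq fun x =>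
    IsScalarTower.algebraMap_apply K M L (x : K)
  have t1 : IsScalarTower (𝓞 K) (𝓞 M) (𝓞 L) := IsScalarTower.of_algebraMap_eq fun x => by
    apply RingOfIntegers.coe_injective (K := L)
    exact IsScalarTower.algebraMap_apply K M L (x : K)
  have h1 : ∀ b : 𝓞 M, aeval b f = 0 ↔ aeval (algebraMap (𝓞 M) (𝓞 L) b) f = 0 := by
    intro b
    rw [aeval_algebraMap_apply, map_eq_zero_iff _ (FaithfulSMul.algebraMap_injective (𝓞 M) (𝓞 L))]
  have hinj := FaithfulSMul.algebraMap_injective (𝓞 M) (𝓞 L)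
  refine Nat.card_congr (Equiv.ofBijective
    (fun b => (⟨⟨algebraMap (𝓞 M) (𝓞 L) b.1.val, (h1 _).1 b.1.prop⟩, ?_⟩ :
      {b : Rt L f // g • b = b})) ⟨?_, ?_⟩)
  · apply Rt.ext
    rw [Rt_smul]
    change g • algebraMap (𝓞 M) (𝓞 L) b.1.val = algebraMap (𝓞 M) (𝓞 L) b.1.val
    rw [← res_smul (K := K) (M := M)]
    have h2 := congrArg Rt.val b.2
    rw [Rt_smul] at h2
    rw [h2]
  · intro b b' h
    have h2 : algebraMap (𝓞 M) (𝓞 L) b.1.val = algebraMap (𝓞 M) (𝓞 L) b'.1.val :=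
      congrArg (fun z => z.1.val) h
    exact Subtype.ext (Rt.ext (hinj h2))
  · rintro ⟨⟨b, hb⟩, hgb⟩
    have hb' : aeval (b : L) f = 0 := Pool.Agent.H46.SP.aeval_coe hb
    have hmap : f.map (algebraMap (𝓞 K) L) = (f.map (algebraMap (𝓞 K) M)).map (algebraMap M L) := by
      rw [Polynomial.map_map, ← IsScalarTower.algebraMap_eq]
    have h2 : (b : L) ∈ (algebraMap M L).range := by
      refine hs.mem_range_of_isRoot (hm.map _).ne_zero ?_
      rw [← hmap, IsRoot.def, eval_map_algebraMap, hb']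
    obtain ⟨c, hc⟩ := h2
    have hc0 : aeval c f = 0 := by
      apply (algebraMap M L).injective
      rw [map_zero, ← aeval_algebraMap_apply, hc, hb']
    obtain ⟨c', hc', hc0'⟩ := exists_int hm hc0
    have hcb : algebraMap (𝓞 M) (𝓞 L) c' = b := by
      apply RingOfIntegers.coe_injective (K := L)
      change algebraMap M L (c' : M) = (b : L)
      rw [hc', hc]
    subst hcb
    refine ⟨⟨⟨c', hc0'⟩, ?_⟩, rfl⟩
    apply Rt.ext
    rw [Rt_smul]
    apply hinj
    rw [res_smul]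
    exact congrArg Rt.val hgb

end

end Pool.Agent.H46.OP
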