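import Pool.Agent.H46.OP.Core

/-! The relation between fields with at most one bad place: the main step. -/

set_option autoImplicit false
set_option linter.unusedSectionVars false

namespace Pool.Agent.H46.OP

open NumberField IsDedekindDomain Polynomial
open scoped Pointwise
open Pool.Agent.R433.MD (fx fixed_mem)
open Pool.Agent.H46.SP (res res_apply res_smul under_smul under_under exists_above exists_under
  smul_ne_bot exists_L exists_int)

section
variable {K M : Type} [Field K] [NumberField K] [Field M] [NumberField M] [Algebra K M]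
  [IsGalois K M]

/-- the property of the polynomial of `U` -/
def PolyProp (S : Finset (HeightOneSpectrum (𝓞 K)))
    (P : HeightOneSpectrum (𝓞 K) → HeightOneSpectrum (𝓞 M)) (N : Subgroup Gal(M/K))
    (v : HeightOneSpectrum (𝓞 K)) (U : Subgroup (Dec K (P v))) (f : (𝓞 K)[X]) : Prop :=
  ∀ (L : Type) [Field L] [NumberField L] [Algebra K L] [Algebra M L]
      [IsScalarTower K M L] [IsGalois K L], (f.map (algebraMap (𝓞 K) L)).Splits →
      (∀ W : HeightOneSpectrum (𝓞 L), W.asIdeal.under (𝓞 M) = (P v).asIdeal →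
        ∃ b : Dec K (P v) ⧸ U → 𝓞 L, Function.Injective b ∧ (∀ c, aeval (b c) f = 0) ∧
          (∀ β : 𝓞 L, aeval β f = 0 → ∃ c, b c = β) ∧
          ∀ (g : Gal(L/K)), g • W.asIdeal = W.asIdeal → ∀ (d : Dec K (P v)),
            (d : Gal(M/K)) = res K M g → ∀ c, g • b c = b (d • c)) ∧
      ∀ u ∈ S, u ≠ v → ∀ W : HeightOneSpectrum (𝓞 L), W.asIdeal.under (𝓞 M) = (P u).asIdeal →
        ∀ g : Gal(L/K), g • W.asIdeal = W.asIdeal → ∀ β : 𝓞 L, aeval β f = 0 → g • β = β →
          res K M g ∈ N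

variable {S : Finset (HeightOneSpectrum (𝓞 K))}
  {P : HeightOneSpectrum (𝓞 K) → HeightOneSpectrum (𝓞 M)} {N : Subgroup Gal(M/K)}
  {L : Type} [Field L] [NumberField L] [Algebra K L] [Algebra M L] [IsScalarTower K M L]
  [IsGalois K L]

theorem psi_eq {v : HeightOneSpectrum (𝓞 K)} {U : Subgroup (Dec K (P v))} {f : (𝓞 K)[X]}
    (hf : PolyProp S P N v U f) (hs : (f.map (algebraMap (𝓞 K) L)).Splits)
    {W : HeightOneSpectrum (𝓞 L)} (hW : W.asIdeal.under (𝓞 M) = (P v).asIdeal) {g : Gal(L/K)}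
    (hg : g • W.asIdeal = W.asIdeal) (d : Dec K (P v)) (hd : (d : Gal(M/K)) = res K M g) :
    psi L f g = fx U d := by
  obtain ⟨b, hb1, hb2, hb3, hb4⟩ := (hf L hs).1 W hW
  unfold psi fx
  congr 1
  symm
  refine Nat.card_congr (Equiv.ofBijective
    (fun c => (⟨⟨b c.1, hb2 c.1⟩, ?_⟩ : {b : Rt L f // g • b = b})) ⟨?_, ?_⟩)
  · apply Rt.ext
    rw [Rt_smul]
    change g • b c.1 = b c.1
    rw [hb4 g hg d hd, c.2]
  · intro c c' h
    exact Subtype.ext (hb1 (congrArg (fun z => z.1.val) h))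
  · rintro ⟨⟨β, hβ⟩, hgβ⟩
    obtain ⟨c, rfl⟩ := hb3 β hβ
    refine ⟨⟨c, ?_⟩, rfl⟩
    apply hb1
    rw [← hb4 g hg d hd]
    exact congrArg Rt.val hgβ

theorem psi_zero {v u : HeightOneSpectrum (𝓞 K)} {U : Subgroup (Dec K (P v))} {f : (𝓞 K)[X]}
    (hf : PolyProp S P N v U f) (hs : (f.map (algebraMap (𝓞 K) L)).Splits) (hu : u ∈ S)
    (huv : u ≠ v) {W : HeightOneSpectrum (𝓞 L)} (hW : W.asIdeal.under (𝓞 M) = (P u).asIdeal)
    {g : Gal(L/K)} (hg : g • W.asIdeal = W.asIdeal) (hN : res K M g ∉ N) : psi L f g = 0 := by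
  unfold psi
  have h : IsEmpty {b : Rt L f // g • b = b} := by
    constructor
    rintro ⟨⟨β, hβ⟩, hgβ⟩
    exact hN ((hf L hs).2 u hu huv W hW g hg β hβ (congrArg Rt.val hgβ))
  rw [Nat.card_of_isEmpty]
  rfl

/-- the sum of the permutation characters at a bad element -/
theorem sum_eq (f : ∀ v, Subgroup (Dec K (P v)) → (𝓞 K)[X])
    (hf : ∀ v ∈ S, ∀ U : Subgroup (Dec K (P v)), N.index ∣ U.index → PolyProp S P N v U (f v U))
    (hs : ∀ v ∈ S, ∀ U, ((f v U).map (algebraMap (𝓞 K) L)).Splits)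
    (n : HeightOneSpectrum (𝓞 K) → ℕ) (a : ∀ v, Subgroup (Dec K (P v)) → ℤ)
    (ha : ∀ v ∈ S, ∀ U, ¬ N.index ∣ U.index → a v U = 0)
    (hsum : ∀ v ∈ S, ∀ d : Dec K (P v), ∑ᶠ U, a v U * fx U d = n v)
    (c : HeightOneSpectrum (𝓞 K) → ℤ)
    {u : HeightOneSpectrum (𝓞 K)} (hu : u ∈ S)
    {W : HeightOneSpectrum (𝓞 L)} (hW : W.asIdeal.under (𝓞 M) = (P u).asIdeal) {g : Gal(L/K)}
    (hg : g • W.asIdeal = W.asIdeal) (hN : res K M g ∉ N) :
    ∑ v ∈ S, c v * ∑ᶠ U, a v U * psi L (f v U) g = c u * n u := by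
  classical
  rw [Finset.sum_eq_single u]
  · have hd : res K M g • (P u).asIdeal = (P u).asIdeal := by
      rw [← hW, ← under_smul, hg]
    rw [← hsum u hu ⟨res K M g, hd⟩]
    congr 1
    refine finsum_congr fun U => ?_
    by_cases hU : N.index ∣ U.index
    · rw [psi_eq (hf u hu U hU) (hs u hu U) hW hg ⟨res K M g, hd⟩ rfl]
    · rw [ha u hu U hU, zero_mul, zero_mul]
  · intro v hv hvu
    have h1 : ∀ U, a v U * psi L (f v U) g = 0 := by
      intro U
      by_cases hU : N.index ∣ U.index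
      · rw [psi_zero (hf v hv U hU) (hs v hv U) hu hvu.symm hW hg hN, mul_zero]
      · rw [ha v hv U hU, zero_mul]
    rw [finsum_congr h1, finsum_zero, mul_zero]
  · exact fun h => absurd hu h

/-- the fields of the roots have at most one bad prime -/
theorem oneBad_stab (hP : ∀ v, (P v).asIdeal.under (𝓞 K) = v.asIdeal) [N.Normal]
    {v : HeightOneSpectrum (𝓞 K)} {U : Subgroup (Dec K (P v))} {f : (𝓞 K)[X]}
    (hf : PolyProp S P N v U f) (hs : (f.map (algebraMap (𝓞 K) L)).Splits) (y : Rt L f) :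
    OneBad N S (MulAction.stabilizer Gal(L/K) y) := by
  -- the bad primes lie over `v`
  have key : ∀ W : HeightOneSpectrum (𝓞 L), Over S W →
      BadAt N (MulAction.stabilizer Gal(L/K) y) W → ∃ σ : Gal(L/K),
        (σ • W.asIdeal).under (𝓞 M) = (P v).asIdeal := by
    rintro W ⟨u, hu, hWu⟩ ⟨h, hhy, hhW, hhN⟩
    obtain ⟨σ, hσ⟩ := exists_conj_over W (P u) (by rw [hWu, hP])
    have huv : u = v := by
      by_contra huv
      refine hhN ?_
      have h1 : (σ * h * σ⁻¹) • (sH σ W).asIdeal = (sH σ W).asIdeal := by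
        rw [sH_asIdeal, mul_smul, mul_smul, inv_smul_smul, hhW]
      have h2 : (σ * h * σ⁻¹) • (σ • y).val = (σ • y).val := by
        have h3 : (σ * h * σ⁻¹) • (σ • y) = σ • y := by
          rw [mul_smul, mul_smul, inv_smul_smul]
          congr 1
        exact congrArg Rt.val h3
      have h4 := (hf L hs).2 u hu huv (sH σ W) hσ _ h1 _ (σ • y).prop h2
      rw [map_mul, map_mul, map_inv] at h4
      have h5 := Subgroup.Normal.conj_mem inferInstance _ h4 (res K M σ)⁻¹
      have e : (res K M σ)⁻¹ * (res K M σ * res K M h * (res K M σ)⁻¹) * (res K M σ)⁻¹⁻¹ =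
        res K M h := by group
      rwa [e] at h5
    subst huv
    exact ⟨σ, hσ⟩
  intro W W' hW hW' hb hb'
  obtain ⟨σ, hσ⟩ := key W hW hb
  obtain ⟨σ', hσ'⟩ := key W' hW' hb'
  -- the same prime of `L`
  have hGM : IsGalois M L := IsGalois.tower_top_of_isGalois K M L
  obtain ⟨ρ, hρ⟩ : ∃ ρ : Gal(L/K), ρ • (σ • W.asIdeal) = σ' • W'.asIdeal := by
    obtain ⟨ρ, hρ⟩ := exists_smul_over (K := K) (sH σ W) (sH σ' W') (by
      rw [← under_under (M := M), ← under_under (M := M) (sH σ' W').asIdeal]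
      rw [sH_asIdeal, sH_asIdeal, hσ, hσ'])
    exact ⟨ρ, hρ⟩
  obtain ⟨b, hb1, hb2, hb3, hb4⟩ := (hf L hs).1 (sH σ' W') hσ'
  obtain ⟨c1, hc1⟩ := hb3 ((ρ * σ) • y).val ((ρ * σ) • y).prop
  obtain ⟨c2, hc2⟩ := hb3 (σ' • y).val (σ' • y).prop
  obtain ⟨x1, rfl⟩ := QuotientGroup.mk_surjective c1
  obtain ⟨x2, rfl⟩ := QuotientGroup.mk_surjective c2
  obtain ⟨δ, hδ, hδW⟩ := lift_dec (K := K) (M := M) (sH σ' W') ((x2 * x1⁻¹ : Dec K (P v)) : Gal(M/K))
    (by
      have h1 : (sH σ' W').asIdeal.under (𝓞 M) = (P v).asIdeal := hσ'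
      rw [h1]
      exact (x2 * x1⁻¹ : Dec K (P v)).2)
  have h1 := hb4 δ hδW (x2 * x1⁻¹) hδ.symm (x1 : Dec K (P v) ⧸ U)
  have h2 : (x2 * x1⁻¹ : Dec K (P v)) • (x1 : Dec K (P v) ⧸ U) = x2 := by
    change ((x2 * x1⁻¹ * x1 : Dec K (P v)) : Dec K (P v) ⧸ U) = x2
    rw [inv_mul_cancel_right]
  rw [h2, hc1, hc2] at h1
  have h3 : (δ * (ρ * σ)) • y = σ' • y := by
    rw [mul_smul]
    exact Rt.ext h1
  refine ⟨σ'⁻¹ * (δ * (ρ * σ)), ?_, ?_⟩
  · rw [MulAction.mem_stabilizer_iff, mul_smul, h3, inv_smul_smul]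
  · rw [mul_smul, mul_smul, mul_smul, hρ]
    have h4 : δ • (σ' • W'.asIdeal) = σ' • W'.asIdeal := hδW
    rw [h4, inv_smul_smul]

end

/-- **The relation.** -/
theorem core (K M : Type) [Field K] [NumberField K] [Field M] [NumberField M] [Algebra K M]
    [IsGalois K M] (S : Finset (HeightOneSpectrum (𝓞 K))) (N : Subgroup Gal(M/K)) [N.Normal]
    (hbig : ∀ w : HeightOneSpectrum (𝓞 M), Over S w → ∀ g : Gal(M/K),
      g • w.asIdeal = w.asIdeal → N.index * orderOf g ∣ Nat.card (Dec K w)) :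
    ∃ (L : Type) (_ : Field L) (_ : NumberField L) (_ : Algebra K L) (_ : Algebra M L)
      (_ : IsScalarTower K M L) (_ : IsGalois K L), ∃ m : ℕ, m ≠ 0 ∧
        (fun _ : Gal(L/K) => (m : ℤ)) ∈ Submodule.span ℤ (fx '' {H | OneBad N S H}) := by
  classical
  choose P hP using fun v : HeightOneSpectrum (𝓞 K) => exists_above (M := K) (L := M) v
  -- the local relations
  have hloc : ∀ v, ∃ (n : ℕ) (a : Subgroup (Dec K (P v)) → ℤ), n ≠ 0 ∧ (v ∈ S →
      (∀ U, ¬ N.index ∣ U.index → a U = 0) ∧ ∀ d : Dec K (P v), ∑ᶠ U, a U * fx U d = n) := by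
    intro v
    by_cases hv : v ∈ S
    · obtain ⟨n, a, h1, h2, h3⟩ := exists_local_artin (Dec K (P v)) N.index (by
        intro d
        have h4 := hbig (P v) ⟨v, hv, hP v⟩ d.1 d.2
        have h5 : (Subgroup.zpowers d).index * orderOf (d : Gal(M/K)) = Nat.card (Dec K (P v)) := by
          rw [Subgroup.orderOf_coe, ← Nat.card_zpowers]
          exact Subgroup.index_mul_card _
        rw [← h5] at h4
        exact Nat.dvd_of_mul_dvd_mul_right (orderOf_pos _) h4)
      exact ⟨n, a, h1, fun _ => ⟨h2, h3⟩⟩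
    · exact ⟨1, 0, one_ne_zero, fun h => absurd h hv⟩
  choose n a hn hna using hloc
  -- the polynomials
  have hpol : ∀ (v : HeightOneSpectrum (𝓞 K)) (U : Subgroup (Dec K (P v))), ∃ f : (𝓞 K)[X],
      f.Monic ∧ (v ∈ S → N.index ∣ U.index → PolyProp S P N v U f) := by
    intro v U
    by_cases h : v ∈ S ∧ N.index ∣ U.index
    · obtain ⟨f, h1, h2⟩ := exists_poly S P hP N v h.1 U h.2
      exact ⟨f, h1, fun _ _ => h2⟩
    · exact ⟨1, monic_one, fun h1 h2 => absurd ⟨h1, h2⟩ h⟩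
  choose f hfm hf using hpol
  -- the field of the roots
  let _ : ∀ v, Fintype (Subgroup (Dec K (P v))) := fun v => Fintype.ofFinite _
  let Q : M[X] := ∏ v ∈ S, ∏ U : Subgroup (Dec K (P v)), (f v U).map (algebraMap (𝓞 K) M)
  have hQ0 : Q ≠ 0 := Finset.prod_ne_zero_iff.2 fun v _ => Finset.prod_ne_zero_iff.2 fun U _ =>
    ((hfm v U).map _).ne_zero
  obtain ⟨L0, _, _, _, _, _, hG0, hs0, -⟩ := exists_L K M Q hQ0
  have hs0' : ∀ v ∈ S, ∀ U, ((f v U).map (algebraMap (𝓞 K) L0)).Splits := by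
    intro v hv U
    have t0 : IsScalarTower (𝓞 K) M L0 := IsScalarTower.of_algebraMap_eq fun x =>
      IsScalarTower.algebraMap_apply K M L0 (x : K)
    have h1 : (f v U).map (algebraMap (𝓞 K) L0) =
        ((f v U).map (algebraMap (𝓞 K) M)).map (algebraMap M L0) := by
      rw [Polynomial.map_map, ← IsScalarTower.algebraMap_eq]
    rw [h1]
    refine hs0.of_dvd (map_ne_zero hQ0) (Polynomial.map_dvd _ ?_)
    exact (Finset.dvd_prod_of_mem (fun U => (f v U).map (algebraMap (𝓞 K) M))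
      (Finset.mem_univ U)).trans (Finset.dvd_prod_of_mem (fun v =>
        ∏ U : Subgroup (Dec K (P v)), (f v U).map (algebraMap (𝓞 K) M)) hv)
  obtain ⟨L, _, _, _, _, _, hGL, hsep⟩ := exists_separating K L0 S
  let _ : Algebra M L := ((algebraMap L0 L).comp (algebraMap M L0)).toAlgebra
  have t1 : IsScalarTower M L0 L := IsScalarTower.of_algebraMap_eq fun x => rfl
  have t2 : IsScalarTower K M L := IsScalarTower.of_algebraMap_eq fun x => by
    rw [IsScalarTower.algebraMap_apply K L0 L, IsScalarTower.algebraMap_apply M L0 L,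
      IsScalarTower.algebraMap_apply K M L0]
  have hresres : ∀ g : Gal(L/K), res K M (res K L0 g) = res K M g := by
    intro g
    ext x
    apply (algebraMap M L).injective
    rw [res_apply, IsScalarTower.algebraMap_apply M L0 L, IsScalarTower.algebraMap_apply M L0 L,
      res_apply, res_apply]
  have hunder : ∀ W : Ideal (𝓞 L), (W.under (𝓞 L0)).under (𝓞 M) = W.under (𝓞 M) := by
    intro W
    ext x
    change algebraMap (𝓞 L0) (𝓞 L) (algebraMap (𝓞 M) (𝓞 L0) x) ∈ W ↔ algebraMap (𝓞 M) (𝓞 L) x ∈ W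
    have h1 : algebraMap (𝓞 L0) (𝓞 L) (algebraMap (𝓞 M) (𝓞 L0) x) = algebraMap (𝓞 M) (𝓞 L) x := by
      apply RingOfIntegers.coe_injective (K := L)
      rfl
    rw [h1]
  have hsL : ∀ v ∈ S, ∀ U, ((f v U).map (algebraMap (𝓞 K) L)).Splits := by
    intro v hv U
    have t0 : IsScalarTower (𝓞 K) L0 L := IsScalarTower.of_algebraMap_eq fun x =>
      IsScalarTower.algebraMap_apply K L0 L (x : K)
    have h1 : (f v U).map (algebraMap (𝓞 K) L) =
        ((f v U).map (algebraMap (𝓞 K) L0)).map (algebraMap L0 L) := by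
      rw [Polynomial.map_map, ← IsScalarTower.algebraMap_eq]
    rw [h1]
    exact (hs0' v hv U).map _
  -- the function
  let c : HeightOneSpectrum (𝓞 K) → ℤ := fun v => ∏ u ∈ S.erase v, (n u : ℤ)
  let T : ℤ := ∏ u ∈ S, (n u : ℤ)
  have hcT : ∀ v ∈ S, c v * n v = T := fun v hv => Finset.prod_erase_mul S _ hv
  have hT0 : T ≠ 0 := Finset.prod_ne_zero_iff.2 fun u _ => by exact_mod_cast hn u
  let θ : Gal(L/K) → ℤ := fun g => T - ∑ v ∈ S, c v * ∑ᶠ U, a v U * psi L (f v U) g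
  have hpsi : ∀ v ∈ S, ∀ U, N.index ∣ U.index →
      psi L (f v U) ∈ Submodule.span ℤ (fx '' {H : Subgroup Gal(L/K) | OneBad N S H}) := by
    intro v hv U hU
    have hfin : Finite (Rt L (f v U)) := Rt_finite (hfm v U)
    exact fixed_mem (Rt L (f v U)) _ fun y => Submodule.subset_span
      ⟨_, oneBad_stab hP (hf v U hv hU) (hsL v hv U) y, rfl⟩
  have hsumA : ∀ A : Submodule ℤ (Gal(L/K) → ℤ), (∀ v ∈ S, ∀ U, N.index ∣ U.index →
      psi L (f v U) ∈ A) → (fun g => ∑ v ∈ S, c v * ∑ᶠ U, a v U * psi L (f v U) g) ∈ A := by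
    intro A hA
    have h1 : (fun g => ∑ v ∈ S, c v * ∑ᶠ U, a v U * psi L (f v U) g) =
        ∑ v ∈ S, c v • ∑ U : Subgroup (Dec K (P v)), a v U • psi L (f v U) := by
      funext g
      rw [Finset.sum_apply]
      refine Finset.sum_congr rfl fun v _ => ?_
      rw [Pi.smul_apply, smul_eq_mul, Finset.sum_apply, finsum_eq_sum_of_fintype]
      congr 1
    rw [h1]
    refine Submodule.sum_mem _ fun v hv => Submodule.smul_mem _ _
      (Submodule.sum_mem _ fun U _ => ?_)
    by_cases hU : N.index ∣ U.index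
    · exact Submodule.smul_mem _ _ (hA v hv U hU)
    · rw [(hna v hv).1 U hU, zero_smul]
      exact Submodule.zero_mem _
  have hone : ∀ t : ℤ, (fun _ : Gal(L/K) => t) ∈
      Submodule.span ℤ (Set.range (fx (G := Gal(L/K)))) := by
    intro t
    have h1 : (fun _ : Gal(L/K) => t) = t • fx (⊤ : Subgroup Gal(L/K)) := by
      funext g
      rw [Pi.smul_apply, fx, smul_eq_mul]
      have hsub : Subsingleton (Gal(L/K) ⧸ (⊤ : Subgroup Gal(L/K))) :=
        QuotientGroup.subsingleton_quotient_top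
      have h2 : Nat.card {c : Gal(L/K) ⧸ (⊤ : Subgroup Gal(L/K)) // g • c = c} = 1 := by
        rw [Nat.card_eq_one_iff_unique]
        refine ⟨⟨fun x y => Subtype.ext (Subsingleton.elim _ _)⟩, ⟨⟨((1 : Gal(L/K)) : _), ?_⟩⟩⟩
        exact Subsingleton.elim _ _
      rw [h2, Nat.cast_one, mul_one]
    rw [h1]
    exact Submodule.smul_mem _ _ (Submodule.subset_span ⟨_, rfl⟩)
  have hθ : θ ∈ Submodule.span ℤ (Set.range (fx (G := Gal(L/K)))) := by
    refine Submodule.sub_mem _ (hone T) (hsumA _ fun v hv U hU => ?_)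
    exact Submodule.span_mono (Set.image_subset_range _ _) (hpsi v hv U hU)
  -- vanishing
  have hvan : ∀ g : Gal(L/K), Subgroup.zpowers g ∉ {H : Subgroup Gal(L/K) | NoBad N S H} →
      θ g = 0 := by
    intro g hg
    rw [Set.mem_ofPred_eq] at hg
    unfold NoBad at hg
    push Not at hg
    obtain ⟨W, hW, h, hh, hhW, hhN⟩ := hg
    obtain ⟨i, hi⟩ := hh
    have hi : g ^ i = h := hi
    have hcomm : g * h = h * g := by
      rw [← hi]
      exact (Commute.refl g).zpow_right i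
    have hgW : h • (g • W.asIdeal) = g • W.asIdeal := by
      rw [← mul_smul, ← hcomm, mul_smul, hhW]
    have hsame : (g • W.asIdeal).under (𝓞 L0) = W.asIdeal.under (𝓞 L0) := by
      by_contra hne
      have h1 := hsep (sH g W) W (by
        obtain ⟨v, hv, hv2⟩ := hW
        exact ⟨v, hv, by rw [sH_asIdeal, under_K_smul, hv2]⟩) hW hne h hgW hhW
      apply hhN
      rw [← hresres, h1, map_one]
      exact N.one_mem
    have hgN : res K M g ∉ N := by
      intro h1
      apply hhN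
      rw [← hi, map_zpow]
      exact N.zpow_mem h1 i
    -- down to `L0`
    obtain ⟨w, hw⟩ := exists_under (K := L0) W
    have hg0 : res K L0 g • w.asIdeal = w.asIdeal := by
      rw [← hw, ← under_smul, hsame]
    obtain ⟨u, hu, hWu⟩ := hW
    obtain ⟨ρ, hρ⟩ := exists_conj_over (K := K) (M := M) w (P u) (by
      rw [← hw, under_under, hWu, hP])
    have hsum := sum_eq (L := L0) (S := S) (N := N) f (fun v hv U hU => hf v U hv hU) hs0' n a
      (fun v hv => (hna v hv).1) (fun v hv => (hna v hv).2) c hu (W := sH ρ w) hρ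
      (g := ρ * res K L0 g * ρ⁻¹) (by
        rw [sH_asIdeal, mul_smul, mul_smul, inv_smul_smul, hg0]) (by
        intro h1
        rw [map_mul, map_mul, map_inv, hresres] at h1
        have h5 := Subgroup.Normal.conj_mem inferInstance _ h1 (res K M ρ)⁻¹
        have e : (res K M ρ)⁻¹ * (res K M ρ * res K M g * (res K M ρ)⁻¹) * (res K M ρ)⁻¹⁻¹ =
          res K M g := by group
        rw [e] at h5
        exact hgN h5)
    have h6 : ∀ v ∈ S, ∀ U, psi L0 (f v U) (ρ * res K L0 g * ρ⁻¹) = psi L (f v U) g := by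
      intro v hv U
      rw [psi_conj, ← psi_res (L := L) (hfm v U) (hs0' v hv U) g]
    have h7 : ∑ v ∈ S, c v * ∑ᶠ U, a v U * psi L (f v U) g = c u * n u := by
      rw [← hsum]
      refine Finset.sum_congr rfl fun v hv => ?_
      congr 1
      exact finsum_congr fun U => by rw [h6 v hv U]
    change T - ∑ v ∈ S, c v * ∑ᶠ U, a v U * psi L (f v U) g = 0
    rw [h7, hcT u hu, sub_self]
  obtain ⟨m, hm0, hm⟩ := span_of_vanish {H : Subgroup Gal(L/K) | NoBad N S H}
    (fun H hH H' hle => NoBad.le hH hle) (fun H hH x => NoBad.conj hH x) θ hθ hvan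
  have h8 : (fun _ : Gal(L/K) => (m : ℤ) * T) ∈
      Submodule.span ℤ (fx '' {H : Subgroup Gal(L/K) | OneBad N S H}) := by
    have h9 : (fun _ : Gal(L/K) => (m : ℤ) * T) = (m : ℤ) • θ + (m : ℤ) •
        (fun g => ∑ v ∈ S, c v * ∑ᶠ U, a v U * psi L (f v U) g) := by
      funext g
      simp only [θ, Pi.add_apply, Pi.smul_apply, smul_eq_mul]
      ring
    rw [h9]
    refine Submodule.add_mem _ ?_ (Submodule.smul_mem _ _ (hsumA _ hpsi))
    exact Submodule.span_mono (Set.image_mono fun H hH => NoBad.oneBad hH) hm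
  refine ⟨L, inferInstance, inferInstance, inferInstance, inferInstance, t2, hGL,
    m * T.natAbs, mul_ne_zero hm0 (Int.natAbs_ne_zero.2 hT0), ?_⟩
  push_cast
  rcases abs_cases T with h | h
  · rw [h.1]
    exact h8
  · rw [h.1]
    have h10 := Submodule.neg_mem _ h8
    have e : -(fun _ : Gal(L/K) => (m : ℤ) * T) = fun _ => (m : ℤ) * -T := by
      funext g
      simp
    rwa [e] at h10

end Pool.Agent.H46.OP
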