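import Pool.Agent.H46.OP.Core2

/-! The relation for several kinds of bad places at once. -/

set_option autoImplicit false
set_option linter.unusedSectionVars false

namespace Pool.Agent.H46.OP

open NumberField IsDedekindDomain Polynomial
open scoped Pointwise
open Pool.Agent.R433.MD (fx fixed_mem unit_mem)
open Pool.Agent.H46.SP (res res_apply res_smul under_smul under_under exists_above exists_under
  smul_ne_bot exists_L exists_int)

section
variable {K M : Type} [Field K] [NumberField K] [Field M] [NumberField M] [Algebra K M]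
  [IsGalois K M]

/-- a set of order `n` with an action of the decomposition group with stabilizers in `A` -/
def HasModel (A : Set Gal(M/K)) (w : HeightOneSpectrum (𝓞 M)) (n : ℕ) : Prop :=
  ∃ (Y : Type) (_ : Fintype Y) (_ : MulAction (Dec K w) Y), Fintype.card Y = n ∧
    ∀ (d : Dec K w) (y : Y), d • y = y → (d : Gal(M/K)) ∈ A

/-- **The polynomial of a subgroup of a decomposition group.** -/
theorem exists_polyA (S : Finset (HeightOneSpectrum (𝓞 K)))
    (P : HeightOneSpectrum (𝓞 K) → HeightOneSpectrum (𝓞 M))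
    (hP : ∀ v, (P v).asIdeal.under (𝓞 K) = v.asIdeal) (A : Set Gal(M/K))
    (v : HeightOneSpectrum (𝓞 K)) (hv : v ∈ S) (U : Subgroup (Dec K (P v)))
    (hU : ∀ u, HasModel A (P u) U.index) :
    ∃ f : (𝓞 K)[X], f.Monic ∧ ∀ (L : Type) [Field L] [NumberField L] [Algebra K L] [Algebra M L]
      [IsScalarTower K M L] [IsGalois K L], (f.map (algebraMap (𝓞 K) L)).Splits →
      (∀ W : HeightOneSpectrum (𝓞 L), W.asIdeal.under (𝓞 M) = (P v).asIdeal →
        ∃ b : Dec K (P v) ⧸ U → 𝓞 L, Function.Injective b ∧ (∀ c, aeval (b c) f = 0) ∧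
          (∀ β : 𝓞 L, aeval β f = 0 → ∃ c, b c = β) ∧
          ∀ (g : Gal(L/K)), g • W.asIdeal = W.asIdeal → ∀ (d : Dec K (P v)),
            (d : Gal(M/K)) = res K M g → ∀ c, g • b c = b (d • c)) ∧
      ∀ u ∈ S, u ≠ v → ∀ W : HeightOneSpectrum (𝓞 L), W.asIdeal.under (𝓞 M) = (P u).asIdeal →
        ∀ g : Gal(L/K), g • W.asIdeal = W.asIdeal → ∀ β : 𝓞 L, aeval β f = 0 → g • β = β →
          res K M g ∈ A := by
  classical
  set n := U.index with hn
  have hn0 : n ≠ 0 := Subgroup.index_ne_zero_of_finite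
  let _ : Fintype (Dec K (P v) ⧸ U) := Fintype.ofFinite _
  have hcardU : Fintype.card (Dec K (P v) ⧸ U) = n := Fintype.card_eq_nat_card
  obtain ⟨μ0, hμ0i, hμ0⟩ := exists_embed (K := K) (M := M) (Dec K (P v)) (Dec K (P v) ⧸ U)
  obtain ⟨t0, ht0⟩ := exists_sep (P v) μ0 hμ0i
  choose Y hYf hYa hY1 hY4 using hU
  choose μ hY2 hY3 using fun u => exists_embed (K := K) (M := M) (Dec K (P u)) (Y u)
  have hsep : ∀ u, ∃ t, ∀ i j, i ≠ j → μ u i - μ u j ∉ (P u).asIdeal ^ t := fun u =>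
    exists_sep (P u) (μ u) (hY2 u)
  choose t ht using hsep
  let T := max t0 (S.sup t)
  let F : HeightOneSpectrum (𝓞 K) → (𝓞 M)[X] := fun u =>
    if u = v then ∏ y, (X - C (μ0 y)) else ∏ y, (X - C (μ u y))
  obtain ⟨f, hfm, hfd, hfc⟩ := exists_krasner S P hP n F (by
    intro u _
    by_cases huv : u = v
    · simp only [F, if_pos huv]
      have := monic_poly (M := M) μ0
      rwa [hcardU] at this
    · simp only [F, if_neg huv]
      have := monic_poly (M := M) (μ u)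
      rwa [hY1] at this) (by
    intro u _ σ hσ
    by_cases huv : u = v
    · subst huv
      simp only [F, if_pos rfl]
      exact stable_poly (P u) μ0 hμ0 σ hσ
    · simp only [F, if_neg huv]
      exact stable_poly (P u) (μ u) (hY3 u) σ hσ) (n * T)
  refine ⟨f, hfm, ?_⟩
  intro L _ _ _ _ _ _ hs
  have tKM : IsScalarTower (𝓞 K) (𝓞 M) L := IsScalarTower.of_algebraMap_eq fun x =>
    IsScalarTower.algebraMap_apply K M L (x : K)
  have tKML : IsScalarTower (𝓞 K) (𝓞 M) (𝓞 L) := IsScalarTower.of_algebraMap_eq fun x => by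
    apply RingOfIntegers.coe_injective (K := L)
    exact IsScalarTower.algebraMap_apply K M L (x : K)
  have hs' : ((f.map (algebraMap (𝓞 K) (𝓞 M))).map (algebraMap (𝓞 M) L)).Splits := by
    rw [Polynomial.map_map, ← IsScalarTower.algebraMap_eq]
    exact hs
  have haev : ∀ β : 𝓞 L, aeval β (f.map (algebraMap (𝓞 K) (𝓞 M))) = aeval β f := fun β =>
    aeval_map_algebraMap _ _ _
  have hfix : ∀ g : Gal(M/K), (f.map (algebraMap (𝓞 K) (𝓞 M))).map (sm g) =
      f.map (algebraMap (𝓞 K) (𝓞 M)) := by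
    intro g
    rw [Polynomial.map_map]
    congr 1
    ext x
    change ((g • algebraMap (𝓞 K) (𝓞 M) x : 𝓞 M) : M) = _
    exact g.commutes (x : K)
  have hroot : ∀ (g : Gal(L/K)) (β : 𝓞 L), aeval β f = 0 → aeval (g • β) f = 0 := by
    intro g β hβ
    rw [← haev] at hβ ⊢
    exact smul_root (hfix _) hβ
  constructor
  · intro W hW
    obtain ⟨T1, b, hb1, hb2, hb3, hb4⟩ := match_above hn0 hcardU (P v) W hW T μ0
      (fun i j hij h => ht0 i j hij (Ideal.pow_le_pow_right (le_max_left _ _) h))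
      (f.map (algebraMap (𝓞 K) (𝓞 M))) (hfm.map _) (by rw [hfm.natDegree_map, hfd]) hs' (by
        have h1 := hfc v hv
        simp only [F, if_pos rfl] at h1
        exact h1)
    simp only [haev] at hb1 hb3 hb4
    refine ⟨b, hb2, fun c => (hb1 c).1, hb3, fun g hg d hd c => ?_⟩
    apply hb4
    · exact hroot g _ (hb1 c).1
    · rw [← hμ0, hd, res_smul, ← smul_sub, smul_mem_pow' hg]
      exact (hb1 c).2
  · intro u hu huv W hW g hg β hβ hgβ
    obtain ⟨T1, b, hb1, hb2, hb3, hb4⟩ := match_above hn0 (hY1 u) (P u) W hW T (μ u)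
      (fun i j hij h => ht u i j hij (Ideal.pow_le_pow_right
        ((Finset.le_sup hu).trans (le_max_right _ _)) h))
      (f.map (algebraMap (𝓞 K) (𝓞 M))) (hfm.map _) (by rw [hfm.natDegree_map, hfd]) hs' (by
        have h1 := hfc u hu
        simp only [F, if_neg huv] at h1
        exact h1)
    simp only [haev] at hb1 hb3 hb4
    obtain ⟨c, rfl⟩ := hb3 β hβ
    have hd : res K M g • (P u).asIdeal = (P u).asIdeal := by
      rw [← hW, ← under_smul, hg]
    let d : Dec K (P u) := ⟨res K M g, hd⟩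
    refine hY4 u d c ?_
    have h1 : g • b c = b (d • c) := by
      apply hb4
      · exact hroot g _ (hb1 c).1
      · rw [← hY3]
        change algebraMap (𝓞 M) (𝓞 L) (res K M g • μ u c) - _ ∈ _
        rw [res_smul, ← smul_sub, smul_mem_pow' hg]
        exact (hb1 c).2
    rw [hgβ] at h1
    exact (hb2 h1).symm


end

section
variable {K M L : Type} [Field K] [NumberField K] [Field M] [NumberField M] [Field L]
  [NumberField L] [Algebra K M] [Algebra M L] [Algebra K L] [IsScalarTower K M L]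
  [IsGalois K M] [IsGalois K L]

/-- the bad primes of the field of `H` -/
def BadAtA (A : Set Gal(M/K)) (H : Subgroup Gal(L/K)) (W : HeightOneSpectrum (𝓞 L)) : Prop :=
  ∃ h ∈ H, h • W.asIdeal = W.asIdeal ∧ res K M h ∉ A

/-- at most one bad prime -/
def OneBadA (A : Set Gal(M/K)) (S : Finset (HeightOneSpectrum (𝓞 K)))
    (H : Subgroup Gal(L/K)) : Prop :=
  ∀ W W' : HeightOneSpectrum (𝓞 L), Over S W → Over S W' → BadAtA A H W → BadAtA A H W' →
    ∃ τ ∈ H, τ • W.asIdeal = W'.asIdeal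

/-- no bad prime -/
def NoBadA (A : Set Gal(M/K)) (S : Finset (HeightOneSpectrum (𝓞 K)))
    (H : Subgroup Gal(L/K)) : Prop :=
  ∀ W : HeightOneSpectrum (𝓞 L), Over S W → ¬ BadAtA A H W

theorem NoBadA.oneBad {A : Set Gal(M/K)} {S : Finset (HeightOneSpectrum (𝓞 K))}
    {H : Subgroup Gal(L/K)} (h : NoBadA A S H) : OneBadA A S H :=
  fun W _ hW _ hb _ => absurd hb (h W hW)

theorem NoBadA.le {A : Set Gal(M/K)} {S : Finset (HeightOneSpectrum (𝓞 K))}
    {H H' : Subgroup Gal(L/K)} (h : NoBadA A S H) (hle : H' ≤ H) : NoBadA A S H' :=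
  fun W hW ⟨x, hx, h2⟩ => h W hW ⟨x, hle hx, h2⟩

theorem NoBadA.conj {A : Set Gal(M/K)} (hA : ∀ x ∈ A, ∀ y, y * x * y⁻¹ ∈ A)
    {S : Finset (HeightOneSpectrum (𝓞 K))}
    {H : Subgroup Gal(L/K)} (h : NoBadA A S H) (x : Gal(L/K)) :
    NoBadA A S (H.map (MulAut.conj x).toMonoidHom) := by
  rintro W hW ⟨_, ⟨y, hy, rfl⟩, h1, h2⟩
  refine h (sH x⁻¹ W) ?_ ⟨y, hy, ?_, ?_⟩
  · obtain ⟨v, hv, hv2⟩ := hW
    exact ⟨v, hv, by rw [sH_asIdeal, under_K_smul, hv2]⟩
  · rw [sH_asIdeal]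
    have h3 : (x * y * x⁻¹) • W.asIdeal = W.asIdeal := h1
    rw [mul_smul, mul_smul] at h3
    rw [eq_inv_smul_iff]
    exact h3
  · intro h3
    apply h2
    change res K M (x * y * x⁻¹) ∈ A
    rw [map_mul, map_mul, map_inv]
    exact hA _ h3 _

end

section
variable {K M : Type} [Field K] [NumberField K] [Field M] [NumberField M] [Algebra K M]
  [IsGalois K M]

/-- the property of the polynomial of `U` -/
def PolyPropA (S : Finset (HeightOneSpectrum (𝓞 K)))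
    (P : HeightOneSpectrum (𝓞 K) → HeightOneSpectrum (𝓞 M)) (A : Set Gal(M/K))
    (v : HeightOneSpectrum (𝓞 K)) (U : Subgroup (Dec K (P v))) (f : (𝓞 K)[X]) : Prop :=
  ∀ (L : Type) [Field L] [NumberField L] [Algebra K L] [Algebra M L]
      [IsScalarTower K M L] [IsGalois K L], (f.map (algebraMap (𝓞 K) L)).Splits →
      (∀ W : HeightOneSpectrum (𝓞 L), W.asIdeal.under (𝓞 M) = (P v).asIdeal →
        ∃ b : Dec K (P v) ⧸ U → 𝓞 L, Function.Injective b ∧ (∀ c, aeval (b c) f = 0) ∧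
          (∀ β : 𝓞 L, aeval β f = 0 → ∃ c, b c = β) ∧
          ∀ (g : Gal(L/K)), g • W.asIdeal = W.asIdeal → ∀ (d : Dec K (P v)),
            (d : Gal(M/K)) = res K M g → ∀ c, g • b c = b (d • c)) ∧
      ∀ u ∈ S, u ≠ v → ∀ W : HeightOneSpectrum (𝓞 L), W.asIdeal.under (𝓞 M) = (P u).asIdeal →
        ∀ g : Gal(L/K), g • W.asIdeal = W.asIdeal → ∀ β : 𝓞 L, aeval β f = 0 → g • β = β →
          res K M g ∈ A

variable {S : Finset (HeightOneSpectrum (𝓞 K))}
  {P : HeightOneSpectrum (𝓞 K) → HeightOneSpectrum (𝓞 M)} {A : Set Gal(M/K)}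
  {L : Type} [Field L] [NumberField L] [Algebra K L] [Algebra M L] [IsScalarTower K M L]
  [IsGalois K L]

theorem psi_eqA {v : HeightOneSpectrum (𝓞 K)} {U : Subgroup (Dec K (P v))} {f : (𝓞 K)[X]}
    (hf : PolyPropA S P A v U f) (hs : (f.map (algebraMap (𝓞 K) L)).Splits)
    {W : HeightOneSpectrum (𝓞 L)} (hW : W.asIdeal.under (𝓞 M) = (P v).asIdeal) {g : Gal(L/K)}
    (hg : g • W.asIdeal = W.asIdeal) (d : Dec K (P v)) (hd : (d : Gal(M/K)) = res K M g) :
    psi L f g = fx U d := by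
  obtain ⟨b, hb1, hb2, hb3, hb4⟩ := (hf L hs).1 W hW
  unfold psi fx
  congr 1
  symm
  refine Nat.card_congr (Equiv.ofBijective
    (fun c => (⟨⟨b c.1, hb2 c.1⟩, ?_⟩ : {b : Rt L f // g • b = b})) ⟨?_, ?_⟩)
  · apply Rt.ext
    rw [Rt_smul]
    change g • b c.1 = b c.1
    rw [hb4 g hg d hd, c.2]
  · intro c c' h
    exact Subtype.ext (hb1 (congrArg (fun z => z.1.val) h))
  · rintro ⟨⟨β, hβ⟩, hgβ⟩
    obtain ⟨c, rfl⟩ := hb3 β hβ
    refine ⟨⟨c, ?_⟩, rfl⟩
    apply hb1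
    rw [← hb4 g hg d hd]
    exact congrArg Rt.val hgβ

theorem psi_zeroA {v u : HeightOneSpectrum (𝓞 K)} {U : Subgroup (Dec K (P v))} {f : (𝓞 K)[X]}
    (hf : PolyPropA S P A v U f) (hs : (f.map (algebraMap (𝓞 K) L)).Splits) (hu : u ∈ S)
    (huv : u ≠ v) {W : HeightOneSpectrum (𝓞 L)} (hW : W.asIdeal.under (𝓞 M) = (P u).asIdeal)
    {g : Gal(L/K)} (hg : g • W.asIdeal = W.asIdeal) (hN : res K M g ∉ A) : psi L f g = 0 := by
  unfold psi
  have h : IsEmpty {b : Rt L f // g • b = b} := by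
    constructor
    rintro ⟨⟨β, hβ⟩, hgβ⟩
    exact hN ((hf L hs).2 u hu huv W hW g hg β hβ (congrArg Rt.val hgβ))
  rw [Nat.card_of_isEmpty]
  rfl

/-- the sum of the permutation characters at a bad element -/
theorem sum_eqA (m' : ℕ) (f : ∀ v, Subgroup (Dec K (P v)) → (𝓞 K)[X])
    (hf : ∀ v ∈ S, ∀ U : Subgroup (Dec K (P v)), m' ∣ U.index → PolyPropA S P A v U (f v U))
    (hs : ∀ v ∈ S, ∀ U, ((f v U).map (algebraMap (𝓞 K) L)).Splits)
    (n : HeightOneSpectrum (𝓞 K) → ℕ) (a : ∀ v, Subgroup (Dec K (P v)) → ℤ)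
    (ha : ∀ v ∈ S, ∀ U, ¬ m' ∣ U.index → a v U = 0)
    (hsum : ∀ v ∈ S, ∀ d : Dec K (P v), ∑ᶠ U, a v U * fx U d = n v)
    (c : HeightOneSpectrum (𝓞 K) → ℤ)
    {u : HeightOneSpectrum (𝓞 K)} (hu : u ∈ S)
    {W : HeightOneSpectrum (𝓞 L)} (hW : W.asIdeal.under (𝓞 M) = (P u).asIdeal) {g : Gal(L/K)}
    (hg : g • W.asIdeal = W.asIdeal) (hN : res K M g ∉ A) :
    ∑ v ∈ S, c v * ∑ᶠ U, a v U * psi L (f v U) g = c u * n u := by
  classical
  rw [Finset.sum_eq_single u]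
  · have hd : res K M g • (P u).asIdeal = (P u).asIdeal := by
      rw [← hW, ← under_smul, hg]
    rw [← hsum u hu ⟨res K M g, hd⟩]
    congr 1
    refine finsum_congr fun U => ?_
    by_cases hU : m' ∣ U.index
    · rw [psi_eqA (hf u hu U hU) (hs u hu U) hW hg ⟨res K M g, hd⟩ rfl]
    · rw [ha u hu U hU, zero_mul, zero_mul]
  · intro v hv hvu
    have h1 : ∀ U, a v U * psi L (f v U) g = 0 := by
      intro U
      by_cases hU : m' ∣ U.index
      · rw [psi_zeroA (hf v hv U hU) (hs v hv U) hu hvu.symm hW hg hN, mul_zero]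
      · rw [ha v hv U hU, zero_mul]
    rw [finsum_congr h1, finsum_zero, mul_zero]
  · exact fun h => absurd hu h

/-- the fields of the roots have at most one bad prime -/
theorem oneBad_stabA (hP : ∀ v, (P v).asIdeal.under (𝓞 K) = v.asIdeal)
    (hA : ∀ x ∈ A, ∀ y, y * x * y⁻¹ ∈ A)
    {v : HeightOneSpectrum (𝓞 K)} {U : Subgroup (Dec K (P v))} {f : (𝓞 K)[X]}
    (hf : PolyPropA S P A v U f) (hs : (f.map (algebraMap (𝓞 K) L)).Splits) (y : Rt L f) :
    OneBadA A S (MulAction.stabilizer Gal(L/K) y) := by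
  -- the bad primes lie over `v`
  have key : ∀ W : HeightOneSpectrum (𝓞 L), Over S W →
      BadAtA A (MulAction.stabilizer Gal(L/K) y) W → ∃ σ : Gal(L/K),
        (σ • W.asIdeal).under (𝓞 M) = (P v).asIdeal := by
    rintro W ⟨u, hu, hWu⟩ ⟨h, hhy, hhW, hhN⟩
    obtain ⟨σ, hσ⟩ := exists_conj_over W (P u) (by rw [hWu, hP])
    have huv : u = v := by
      by_contra huv
      refine hhN ?_
      have h1 : (σ * h * σ⁻¹) • (sH σ W).asIdeal = (sH σ W).asIdeal := by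
        rw [sH_asIdeal, mul_smul, mul_smul, inv_smul_smul, hhW]
      have h2 : (σ * h * σ⁻¹) • (σ • y).val = (σ • y).val := by
        have h3 : (σ * h * σ⁻¹) • (σ • y) = σ • y := by
          rw [mul_smul, mul_smul, inv_smul_smul]
          congr 1
        exact congrArg Rt.val h3
      have h4 := (hf L hs).2 u hu huv (sH σ W) hσ _ h1 _ (σ • y).prop h2
      rw [map_mul, map_mul, map_inv] at h4
      have h5 := hA _ h4 (res K M σ)⁻¹
      have e : (res K M σ)⁻¹ * (res K M σ * res K M h * (res K M σ)⁻¹) * (res K M σ)⁻¹⁻¹ =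
        res K M h := by group
      rwa [e] at h5
    subst huv
    exact ⟨σ, hσ⟩
  intro W W' hW hW' hb hb'
  obtain ⟨σ, hσ⟩ := key W hW hb
  obtain ⟨σ', hσ'⟩ := key W' hW' hb'
  -- the same prime of `L`
  have hGM : IsGalois M L := IsGalois.tower_top_of_isGalois K M L
  obtain ⟨ρ, hρ⟩ : ∃ ρ : Gal(L/K), ρ • (σ • W.asIdeal) = σ' • W'.asIdeal := by
    obtain ⟨ρ, hρ⟩ := exists_smul_over (K := K) (sH σ W) (sH σ' W') (by
      rw [← under_under (M := M), ← under_under (M := M) (sH σ' W').asIdeal]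
      rw [sH_asIdeal, sH_asIdeal, hσ, hσ'])
    exact ⟨ρ, hρ⟩
  obtain ⟨b, hb1, hb2, hb3, hb4⟩ := (hf L hs).1 (sH σ' W') hσ'
  obtain ⟨c1, hc1⟩ := hb3 ((ρ * σ) • y).val ((ρ * σ) • y).prop
  obtain ⟨c2, hc2⟩ := hb3 (σ' • y).val (σ' • y).prop
  obtain ⟨x1, rfl⟩ := QuotientGroup.mk_surjective c1
  obtain ⟨x2, rfl⟩ := QuotientGroup.mk_surjective c2
  obtain ⟨δ, hδ, hδW⟩ := lift_dec (K := K) (M := M) (sH σ' W') ((x2 * x1⁻¹ : Dec K (P v)) : Gal(M/K))
    (by
      have h1 : (sH σ' W').asIdeal.under (𝓞 M) = (P v).asIdeal := hσ'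
      rw [h1]
      exact (x2 * x1⁻¹ : Dec K (P v)).2)
  have h1 := hb4 δ hδW (x2 * x1⁻¹) hδ.symm (x1 : Dec K (P v) ⧸ U)
  have h2 : (x2 * x1⁻¹ : Dec K (P v)) • (x1 : Dec K (P v) ⧸ U) = x2 := by
    change ((x2 * x1⁻¹ * x1 : Dec K (P v)) : Dec K (P v) ⧸ U) = x2
    rw [inv_mul_cancel_right]
  rw [h2, hc1, hc2] at h1
  have h3 : (δ * (ρ * σ)) • y = σ' • y := by
    rw [mul_smul]
    exact Rt.ext h1
  refine ⟨σ'⁻¹ * (δ * (ρ * σ)), ?_, ?_⟩
  · rw [MulAction.mem_stabilizer_iff, mul_smul, h3, inv_smul_smul]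
  · rw [mul_smul, mul_smul, mul_smul, hρ]
    have h4 : δ • (σ' • W'.asIdeal) = σ' • W'.asIdeal := hδW
    rw [h4, inv_smul_smul]

end


/-- **A function which vanishes at the `g` with `⟨g⟩` outside of a stable family** (with a set of
primes prime to which the factor can be chosen). -/
theorem span_of_vanishP {G : Type} [Group G] [Finite G] (𝓗 : Set (Subgroup G))
    (hle : ∀ H ∈ 𝓗, ∀ H' ≤ H, H' ∈ 𝓗)
    (hconj : ∀ H ∈ 𝓗, ∀ x : G, H.map (MulAut.conj x).toMonoidHom ∈ 𝓗) (P : Set ℕ)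
    (hP : ∀ g, Subgroup.zpowers g ∈ 𝓗 → ∀ p ∈ P, p.Prime → ∃ H ∈ 𝓗, ¬ (p : ℤ) ∣ fx H g) :
    ∃ m : ℕ, m ≠ 0 ∧ (∀ p ∈ P, p.Prime → ¬ p ∣ m) ∧ ∀ (θ : G → ℤ),
      θ ∈ Submodule.span ℤ (Set.range (fx (G := G))) →
      (∀ g, Subgroup.zpowers g ∉ 𝓗 → θ g = 0) →
      (m : ℤ) • θ ∈ Submodule.span ℤ (fx '' 𝓗) := by
  classical
  let X := {g : G // Subgroup.zpowers g ∈ 𝓗}
  let r : (G → ℤ) →ₗ[ℤ] (X → ℤ) := LinearMap.funLeft ℤ ℤ Subtype.val
  have hr : ∀ (a : G → ℤ) (x : X), r a x = a x.1 := fun a x => rfl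
  obtain ⟨m, hm0, hmP, hm⟩ := unit_mem ((Submodule.span ℤ (fx '' 𝓗)).map r) (by
    rintro _ ⟨a, ha, rfl⟩ _ ⟨b, hb, rfl⟩
    refine ⟨a * b, mul_mem_left 𝓗 hle hconj ha ?_, rfl⟩
    exact Submodule.span_mono (Set.image_subset_range _ _) hb) P (by
    rintro ⟨g, hg⟩
    refine ⟨r (fx (Subgroup.zpowers g)), ⟨_, Submodule.subset_span ⟨_, hg, rfl⟩, rfl⟩, ?_⟩
    exact fx_ne_zero_of_mem (Subgroup.mem_zpowers g)) (by
    rintro ⟨g, hg⟩ p hp hpp
    obtain ⟨H, hH, h⟩ := hP g hg p hp hpp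
    exact ⟨r (fx H), ⟨_, Submodule.subset_span ⟨_, hH, rfl⟩, rfl⟩, h⟩)
  obtain ⟨a, ha, har⟩ := hm
  refine ⟨m, hm0, hmP, fun θ hθ h0 => ?_⟩
  have h1 : (m : ℤ) • θ = a * θ := by
    funext g
    rw [Pi.smul_apply, Pi.mul_apply, smul_eq_mul]
    by_cases hg : Subgroup.zpowers g ∈ 𝓗
    · have h2 := congrFun har (⟨g, hg⟩ : X)
      rw [hr] at h2
      rw [h2]
    · rw [h0 g hg, mul_zero, mul_zero]
  rw [h1]
  exact mul_mem_left 𝓗 hle hconj ha hθ

end Pool.Agent.H46.OP
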