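import Pool.Agent.H46.OP.CoreA
import Pool.Agent.H46.SP.Hyper2

/-! The relation for several kinds of bad places at once: the main theorem. -/

set_option autoImplicit false
set_option linter.unusedSectionVars false

namespace Pool.Agent.H46.OP

open NumberField IsDedekindDomain Polynomial
open scoped Pointwise
open Pool.Agent.R433.MD (fx fixed_mem unit_mem perm_unit)
open Pool.Agent.H46.SP (res res_apply res_smul under_smul under_under exists_above exists_under
  smul_ne_bot exists_L exists_int hyper_count2)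

/-- **The relation.** -/
theorem coreA (K M : Type) [Field K] [NumberField K] [Field M] [NumberField M] [Algebra K M]
    [IsGalois K M] (S : Finset (HeightOneSpectrum (𝓞 K))) (ι : Type) [Finite ι]
    (A : ι → Set Gal(M/K)) (m' : ι → ℕ) (hconj : ∀ i, ∀ x ∈ A i, ∀ y, y * x * y⁻¹ ∈ A i)
    (hpow : ∀ i, ∀ x ∈ A i, ∀ k : ℤ, x ^ k ∈ A i) (hone1 : ∀ i, 1 ∈ A i)
    (hmodel : ∀ i w n, m' i ∣ n → HasModel (A i) w n) :
    ∃ (L : Type) (_ : Field L) (_ : NumberField L) (_ : Algebra K L) (_ : Algebra M L)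
      (_ : IsScalarTower K M L) (_ : IsGalois K L), ∀ (i : ι) (R : Set ℕ),
        (∀ p ∈ R, p.Prime → ∀ (x : Gal(M/K)) (k : ℕ), x ^ p ^ k ∈ A i → x ∈ A i) →
        (∀ w : HeightOneSpectrum (𝓞 M), Over S w → ∀ d : Dec K w,
          ∃ U : Subgroup (Dec K w), m' i ∣ U.index ∧ fx U d ≠ 0) →
        (∀ w : HeightOneSpectrum (𝓞 M), Over S w → ∀ d : Dec K w, ∀ p ∈ R, p.Prime →
          ∃ U : Subgroup (Dec K w), m' i ∣ U.index ∧ ¬ (p : ℤ) ∣ fx U d) →
        ∃ m : ℕ, m ≠ 0 ∧ (∀ p ∈ R, p.Prime → ¬ p ∣ m) ∧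
          (fun _ : Gal(L/K) => (m : ℤ)) ∈ Submodule.span ℤ (fx '' {H | OneBadA (A i) S H}) := by
  classical
  let _ : Fintype ι := Fintype.ofFinite ι
  choose P hP using fun v : HeightOneSpectrum (𝓞 K) => exists_above (M := K) (L := M) v
  -- the polynomials
  have hpol : ∀ (i : ι) (v : HeightOneSpectrum (𝓞 K)) (U : Subgroup (Dec K (P v))),
      ∃ f : (𝓞 K)[X], f.Monic ∧ (v ∈ S → m' i ∣ U.index → PolyPropA S P (A i) v U f) := by
    intro i v U
    by_cases h : v ∈ S ∧ m' i ∣ U.index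
    · obtain ⟨f, h1, h2⟩ := exists_polyA S P hP (A i) v h.1 U fun u => hmodel i _ _ h.2
      exact ⟨f, h1, fun _ _ => h2⟩
    · exact ⟨1, monic_one, fun h1 h2 => absurd ⟨h1, h2⟩ h⟩
  choose f hfm hf using hpol
  -- the field of the roots
  let _ : ∀ v, Fintype (Subgroup (Dec K (P v))) := fun v => Fintype.ofFinite _
  let Q : M[X] := ∏ i, ∏ v ∈ S, ∏ U : Subgroup (Dec K (P v)), (f i v U).map (algebraMap (𝓞 K) M)
  have hQ0 : Q ≠ 0 := Finset.prod_ne_zero_iff.2 fun i _ => Finset.prod_ne_zero_iff.2 fun v _ =>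
    Finset.prod_ne_zero_iff.2 fun U _ => ((hfm i v U).map _).ne_zero
  obtain ⟨L0, _, _, _, _, _, hG0, hs0, -⟩ := exists_L K M Q hQ0
  have hs0' : ∀ i, ∀ v ∈ S, ∀ U, ((f i v U).map (algebraMap (𝓞 K) L0)).Splits := by
    intro i v hv U
    have t0 : IsScalarTower (𝓞 K) M L0 := IsScalarTower.of_algebraMap_eq fun x =>
      IsScalarTower.algebraMap_apply K M L0 (x : K)
    have h1 : (f i v U).map (algebraMap (𝓞 K) L0) =
        ((f i v U).map (algebraMap (𝓞 K) M)).map (algebraMap M L0) := by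
      rw [Polynomial.map_map, ← IsScalarTower.algebraMap_eq]
    rw [h1]
    refine hs0.of_dvd (map_ne_zero hQ0) (Polynomial.map_dvd _ ?_)
    exact ((Finset.dvd_prod_of_mem (fun U => (f i v U).map (algebraMap (𝓞 K) M))
      (Finset.mem_univ U)).trans (Finset.dvd_prod_of_mem (fun v =>
        ∏ U : Subgroup (Dec K (P v)), (f i v U).map (algebraMap (𝓞 K) M)) hv)).trans
        (Finset.dvd_prod_of_mem (fun i => ∏ v ∈ S, ∏ U : Subgroup (Dec K (P v)),
          (f i v U).map (algebraMap (𝓞 K) M)) (Finset.mem_univ i))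
  obtain ⟨L, _, _, _, _, _, hGL, hsep⟩ := exists_separating K L0 S
  let _ : Algebra M L := ((algebraMap L0 L).comp (algebraMap M L0)).toAlgebra
  have t1 : IsScalarTower M L0 L := IsScalarTower.of_algebraMap_eq fun x => rfl
  have t2 : IsScalarTower K M L := IsScalarTower.of_algebraMap_eq fun x => by
    rw [IsScalarTower.algebraMap_apply K L0 L, IsScalarTower.algebraMap_apply M L0 L,
      IsScalarTower.algebraMap_apply K M L0]
  have hresres : ∀ g : Gal(L/K), res K M (res K L0 g) = res K M g := by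
    intro g
    ext x
    apply (algebraMap M L).injective
    rw [res_apply, IsScalarTower.algebraMap_apply M L0 L, IsScalarTower.algebraMap_apply M L0 L,
      res_apply, res_apply]
  have hsL : ∀ i, ∀ v ∈ S, ∀ U, ((f i v U).map (algebraMap (𝓞 K) L)).Splits := by
    intro i v hv U
    have t0 : IsScalarTower (𝓞 K) L0 L := IsScalarTower.of_algebraMap_eq fun x =>
      IsScalarTower.algebraMap_apply K L0 L (x : K)
    have h1 : (f i v U).map (algebraMap (𝓞 K) L) =
        ((f i v U).map (algebraMap (𝓞 K) L0)).map (algebraMap L0 L) := by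
      rw [Polynomial.map_map, ← IsScalarTower.algebraMap_eq]
    rw [h1]
    exact (hs0' i v hv U).map _
  refine ⟨L, inferInstance, inferInstance, inferInstance, inferInstance, t2, hGL, ?_⟩
  intro i R hroot hloc0 hlocR
  -- the local relations
  have hloc : ∀ v, ∃ (n : ℕ) (a : Subgroup (Dec K (P v)) → ℤ), n ≠ 0 ∧
      (∀ p ∈ R, p.Prime → ¬ p ∣ n) ∧ (v ∈ S →
      (∀ U, ¬ m' i ∣ U.index → a U = 0) ∧ ∀ d : Dec K (P v), ∑ᶠ U, a U * fx U d = n) := by
    intro v
    by_cases hv : v ∈ S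
    · obtain ⟨n, a, h1, h2, h3, h4⟩ := perm_unit {U : Subgroup (Dec K (P v)) | m' i ∣ U.index}
        (fun H hH H' _ => dvd_trans hH (Subgroup.index_dvd_of_le inf_le_left))
        (fun H hH x => by
          have e : (H.map (MulAut.conj x).toMonoidHom).index = H.index :=
            Subgroup.index_map_equiv H (MulAut.conj x)
          rw [Set.mem_ofPred_eq, e]
          exact hH) R (hloc0 (P v) ⟨v, hv, hP v⟩)
        (fun d p hp hpp => hlocR (P v) ⟨v, hv, hP v⟩ d p hp hpp)
      exact ⟨n, a, h1, h2, fun _ => ⟨h3, h4⟩⟩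
    · exact ⟨1, 0, one_ne_zero, fun p _ hpp h => hpp.one_lt.ne' (Nat.dvd_one.1 h),
        fun h => absurd h hv⟩
  choose n a hn hnR hna using hloc
  -- the function
  let c : HeightOneSpectrum (𝓞 K) → ℤ := fun v => ∏ u ∈ S.erase v, (n u : ℤ)
  let T : ℤ := ∏ u ∈ S, (n u : ℤ)
  have hcT : ∀ v ∈ S, c v * n v = T := fun v hv => Finset.prod_erase_mul S _ hv
  have hT0 : T ≠ 0 := Finset.prod_ne_zero_iff.2 fun u _ => by exact_mod_cast hn u
  have hTR : ∀ p ∈ R, p.Prime → ¬ p ∣ T.natAbs := by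
    intro p hp hpp h
    have h5 : (p : ℤ) ∣ T := Int.natCast_dvd.2 h
    obtain ⟨u, -, hu⟩ := (Nat.prime_iff_prime_int.1 hpp).exists_mem_finset_dvd h5
    exact hnR u p hp hpp (Int.natCast_dvd_natCast.1 hu)
  let θ : Gal(L/K) → ℤ := fun g => T - ∑ v ∈ S, c v * ∑ᶠ U, a v U * psi L (f i v U) g
  have hpsi : ∀ v ∈ S, ∀ U, m' i ∣ U.index →
      psi L (f i v U) ∈ Submodule.span ℤ (fx '' {H : Subgroup Gal(L/K) | OneBadA (A i) S H}) := by
    intro v hv U hU
    have hfin : Finite (Rt L (f i v U)) := Rt_finite (hfm i v U)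
    exact fixed_mem (Rt L (f i v U)) _ fun y => Submodule.subset_span
      ⟨_, oneBad_stabA hP (hconj i) (hf i v U hv hU) (hsL i v hv U) y, rfl⟩
  have hsumA : ∀ B : Submodule ℤ (Gal(L/K) → ℤ), (∀ v ∈ S, ∀ U, m' i ∣ U.index →
      psi L (f i v U) ∈ B) → (fun g => ∑ v ∈ S, c v * ∑ᶠ U, a v U * psi L (f i v U) g) ∈ B := by
    intro B hB
    have h1 : (fun g => ∑ v ∈ S, c v * ∑ᶠ U, a v U * psi L (f i v U) g) =
        ∑ v ∈ S, c v • ∑ U : Subgroup (Dec K (P v)), a v U • psi L (f i v U) := by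
      funext g
      rw [Finset.sum_apply]
      refine Finset.sum_congr rfl fun v _ => ?_
      rw [Pi.smul_apply, smul_eq_mul, Finset.sum_apply, finsum_eq_sum_of_fintype]
      congr 1
    rw [h1]
    refine Submodule.sum_mem _ fun v hv => Submodule.smul_mem _ _
      (Submodule.sum_mem _ fun U _ => ?_)
    by_cases hU : m' i ∣ U.index
    · exact Submodule.smul_mem _ _ (hB v hv U hU)
    · rw [(hna v hv).1 U hU, zero_smul]
      exact Submodule.zero_mem _
  have hone : ∀ t : ℤ, (fun _ : Gal(L/K) => t) ∈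
      Submodule.span ℤ (Set.range (fx (G := Gal(L/K)))) := by
    intro t
    have h1 : (fun _ : Gal(L/K) => t) = t • fx (⊤ : Subgroup Gal(L/K)) := by
      funext g
      rw [Pi.smul_apply, fx, smul_eq_mul]
      have hsub : Subsingleton (Gal(L/K) ⧸ (⊤ : Subgroup Gal(L/K))) :=
        QuotientGroup.subsingleton_quotient_top
      have h2 : Nat.card {c : Gal(L/K) ⧸ (⊤ : Subgroup Gal(L/K)) // g • c = c} = 1 := by
        rw [Nat.card_eq_one_iff_unique]
        refine ⟨⟨fun x y => Subtype.ext (Subsingleton.elim _ _)⟩, ⟨⟨((1 : Gal(L/K)) : _), ?_⟩⟩⟩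
        exact Subsingleton.elim _ _
      rw [h2, Nat.cast_one, mul_one]
    rw [h1]
    exact Submodule.smul_mem _ _ (Submodule.subset_span ⟨_, rfl⟩)
  have hθ : θ ∈ Submodule.span ℤ (Set.range (fx (G := Gal(L/K)))) := by
    refine Submodule.sub_mem _ (hone T) (hsumA _ fun v hv U hU => ?_)
    exact Submodule.span_mono (Set.image_subset_range _ _) (hpsi v hv U hU)
  -- vanishing
  have hvan : ∀ g : Gal(L/K), Subgroup.zpowers g ∉ {H : Subgroup Gal(L/K) | NoBadA (A i) S H} →
      θ g = 0 := by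
    intro g hg
    rw [Set.mem_ofPred_eq] at hg
    unfold NoBadA at hg
    push Not at hg
    obtain ⟨W, hW, h, hh, hhW, hhN⟩ := hg
    obtain ⟨k, hk⟩ := hh
    have hk : g ^ k = h := hk
    have hcomm : g * h = h * g := by
      rw [← hk]
      exact (Commute.refl g).zpow_right k
    have hgW : h • (g • W.asIdeal) = g • W.asIdeal := by
      rw [← mul_smul, ← hcomm, mul_smul, hhW]
    have hsame : (g • W.asIdeal).under (𝓞 L0) = W.asIdeal.under (𝓞 L0) := by
      by_contra hne
      have h1 := hsep (sH g W) W (by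
        obtain ⟨v, hv, hv2⟩ := hW
        exact ⟨v, hv, by rw [sH_asIdeal, under_K_smul, hv2]⟩) hW hne h hgW hhW
      apply hhN
      rw [← hresres, h1, map_one]
      exact hone1 i
    have hgN : res K M g ∉ A i := by
      intro h1
      apply hhN
      rw [← hk, map_zpow]
      exact hpow i _ h1 k
    -- down to `L0`
    obtain ⟨w, hw⟩ := exists_under (K := L0) W
    have hg0 : res K L0 g • w.asIdeal = w.asIdeal := by
      rw [← hw, ← under_smul, hsame]
    obtain ⟨u, hu, hWu⟩ := hW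
    obtain ⟨ρ, hρ⟩ := exists_conj_over (K := K) (M := M) w (P u) (by
      rw [← hw, under_under, hWu, hP])
    have hsum := sum_eqA (L := L0) (S := S) (A := A i) (m' i) (f i)
      (fun v hv U hU => hf i v U hv hU) (hs0' i) n a
      (fun v hv => (hna v hv).1) (fun v hv => (hna v hv).2) c hu (W := sH ρ w) hρ
      (g := ρ * res K L0 g * ρ⁻¹) (by
        rw [sH_asIdeal, mul_smul, mul_smul, inv_smul_smul, hg0]) (by
        intro h1
        rw [map_mul, map_mul, map_inv, hresres] at h1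
        have h5 := hconj i _ h1 (res K M ρ)⁻¹
        have e : (res K M ρ)⁻¹ * (res K M ρ * res K M g * (res K M ρ)⁻¹) * (res K M ρ)⁻¹⁻¹ =
          res K M g := by group
        rw [e] at h5
        exact hgN h5)
    have h6 : ∀ v ∈ S, ∀ U, psi L0 (f i v U) (ρ * res K L0 g * ρ⁻¹) = psi L (f i v U) g := by
      intro v hv U
      rw [psi_conj, ← psi_res (L := L) (hfm i v U) (hs0' i v hv U) g]
    have h7 : ∑ v ∈ S, c v * ∑ᶠ U, a v U * psi L (f i v U) g = c u * n u := by
      rw [← hsum]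
      refine Finset.sum_congr rfl fun v hv => ?_
      congr 1
      exact finsum_congr fun U => by rw [h6 v hv U]
    change T - ∑ v ∈ S, c v * ∑ᶠ U, a v U * psi L (f i v U) g = 0
    rw [h7, hcT u hu, sub_self]
  obtain ⟨m, hm0, hmR, hm⟩ := span_of_vanishP {H : Subgroup Gal(L/K) | NoBadA (A i) S H}
    (fun H hH H' hle => NoBadA.le hH hle) (fun H hH x => NoBadA.conj (hconj i) hH x) R (by
      intro g hg p hp hpp
      obtain ⟨H, hH, hfxH⟩ := hyper_count2 hpp g
      refine ⟨H, ?_, hfxH⟩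
      rintro W hW ⟨h, hhH, hhW, hhN⟩
      obtain ⟨k, hk⟩ := hH h hhH
      apply hhN
      refine hroot p hp hpp _ k ?_
      rw [← map_pow]
      by_contra hne
      refine hg W hW ⟨h ^ p ^ k, hk, ?_, hne⟩
      have h1 : h ∈ MulAction.stabilizer Gal(L/K) W.asIdeal := hhW
      exact Subgroup.pow_mem _ h1 _)
  have hm := hm θ hθ hvan
  have h8 : (fun _ : Gal(L/K) => (m : ℤ) * T) ∈
      Submodule.span ℤ (fx '' {H : Subgroup Gal(L/K) | OneBadA (A i) S H}) := by
    have h9 : (fun _ : Gal(L/K) => (m : ℤ) * T) = (m : ℤ) • θ + (m : ℤ) •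
        (fun g => ∑ v ∈ S, c v * ∑ᶠ U, a v U * psi L (f i v U) g) := by
      funext g
      simp only [θ, Pi.add_apply, Pi.smul_apply, smul_eq_mul]
      ring
    rw [h9]
    refine Submodule.add_mem _ ?_ (Submodule.smul_mem _ _ (hsumA _ hpsi))
    exact Submodule.span_mono (Set.image_mono fun H hH => NoBadA.oneBad hH) hm
  refine ⟨m * T.natAbs, mul_ne_zero hm0 (Int.natAbs_ne_zero.2 hT0), ?_, ?_⟩
  · intro p hp hpp h
    rcases (hpp.dvd_mul).1 h with h | h
    · exact hmR p hp hpp h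
    · exact hTR p hp hpp h
  · push_cast
    rcases abs_cases T with h | h
    · rw [h.1]
      exact h8
    · rw [h.1]
      have h10 := Submodule.neg_mem _ h8
      have e : -(fun _ : Gal(L/K) => (m : ℤ) * T) = fun _ => (m : ℤ) * -T := by
        funext g
        simp
      rwa [e] at h10

end Pool.Agent.H46.OP
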