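import Pool.Agent.H46.OP.Basic

/-! Separation of decomposition groups (after F. K. Schmidt). -/

set_option autoImplicit false
set_option linter.unusedSectionVars false

namespace Pool.Agent.H46.OP

open NumberField IsDedekindDomain Polynomial
open scoped Pointwise
open Pool.Agent.H46.SP (res res_apply res_smul under_smul under_under exists_above exists_under
  smul_ne_bot exists_L exists_int)

/-- the ring homomorphism given by an automorphism -/
noncomputable def sm {K M : Type} [Field K] [NumberField K] [Field M] [NumberField M] [Algebra K M]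
    (σ : Gal(M/K)) : 𝓞 M →+* 𝓞 M := MulSemiringAction.toRingHom Gal(M/K) (𝓞 M) σ

section
variable {K M : Type} [Field K] [NumberField K] [Field M] [NumberField M] [Algebra K M]

theorem sm_apply (σ : Gal(M/K)) (x : 𝓞 M) : sm σ x = σ • x := rfl

theorem smul_eval {F : (𝓞 M)[X]} {σ : Gal(M/K)} (hF : F.map (sm σ) = F) (x : 𝓞 M) :
    σ • F.eval x = F.eval (σ • x) := by
  have h1 : sm σ (F.eval x) = (F.map (sm σ)).eval (sm σ x) := by
    rw [eval_map, eval₂_at_apply]
  rw [hF] at h1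
  exact h1

theorem map_prod_sub {ι : Type} [Fintype ι] (μ : ι → 𝓞 M) (σ : Gal(M/K)) (e : ι ≃ ι)
    (h : ∀ i, σ • μ i = μ (e i)) :
    (∏ i, (X - C (μ i))).map (sm σ) = ∏ i, (X - C (μ i)) := by
  rw [Polynomial.map_prod]
  have h1 : ∀ i, (X - C (μ i)).map (sm σ) = X - C (μ (e i)) := by
    intro i
    rw [Polynomial.map_sub, map_X, map_C, sm_apply, h]
  rw [Finset.prod_congr rfl fun i _ => h1 i]
  exact Equiv.prod_comp e fun i => X - C (μ i)

/-- a polynomial close to `P` at `w` and to `Q` at `w'` -/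
theorem exists_between (h : Gal(M/K)) (w w' : HeightOneSpectrum (𝓞 M)) (hne : w ≠ w')
    (hw : h • w.asIdeal = w.asIdeal) (P Q : (𝓞 M)[X])
    (hP : P.Monic) (hQ : Q.Monic) (hd : P.natDegree = Q.natDegree)
    (hPh : P.map (sm h) = P)
    (hQh : Q.map (sm h) = Q) (k : ℕ) :
    ∃ f : (𝓞 M)[X], f.Monic ∧ f.natDegree = Q.natDegree ∧ f.map (sm h) = f ∧
      (∀ j, (f - P).coeff j ∈ w.asIdeal ^ k) ∧ ∀ j, (f - Q).coeff j ∈ w'.asIdeal ^ k := by
  classical
  obtain ⟨y, hy⟩ := IsDedekindDomain.exists_forall_sub_mem_ideal (s := ({w, w'} : Finset _))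
    (fun q : HeightOneSpectrum (𝓞 M) => q.asIdeal) (fun _ => k)
    (fun q _ => (Ideal.prime_iff_isPrime q.ne_bot).2 q.isPrime)
    (fun i _ j _ h h2 => h (HeightOneSpectrum.ext h2)) (fun q => if q.1 = w then 1 else 0)
  have hy1 : y - 1 ∈ w.asIdeal ^ k := by
    have := hy w (by simp)
    simpa using this
  have hy2 : y ∈ w'.asIdeal ^ k := by
    have := hy w' (by simp)
    simpa [hne.symm] using this
  let _ : Fintype (Subgroup.zpowers h) := Fintype.ofFinite _
  let x : 𝓞 M := ∏ g : Subgroup.zpowers h, (g : Gal(M/K)) • y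
  have hz : ∀ u : HeightOneSpectrum (𝓞 M), h • u.asIdeal = u.asIdeal →
      ∀ g : Subgroup.zpowers h, (g : Gal(M/K)) • u.asIdeal = u.asIdeal := by
    rintro u hu ⟨_, i, rfl⟩
    have h1 : h ∈ MulAction.stabilizer Gal(M/K) u.asIdeal := hu
    exact Subgroup.zpow_mem _ h1 i
  have hx1 : x - 1 ∈ w.asIdeal ^ k := by
    have h1 : Ideal.Quotient.mk (w.asIdeal ^ k) x = 1 := by
      rw [map_prod]
      refine Finset.prod_eq_one fun g _ => ?_
      rw [← map_one (Ideal.Quotient.mk (w.asIdeal ^ k)), Ideal.Quotient.eq]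
      have h2 : (g : Gal(M/K)) • y - 1 = (g : Gal(M/K)) • (y - 1) := by rw [smul_sub, smul_one]
      rw [h2, smul_mem_pow' (hz w hw g)]
      exact hy1
    rw [← map_one (Ideal.Quotient.mk (w.asIdeal ^ k)), Ideal.Quotient.eq] at h1
    exact h1
  have hx2 : x ∈ w'.asIdeal ^ k := by
    have h2 : x = ((1 : Subgroup.zpowers h) : Gal(M/K)) • y *
      ∏ g ∈ Finset.univ.erase (1 : Subgroup.zpowers h), (g : Gal(M/K)) • y :=
      (Finset.mul_prod_erase Finset.univ _ (Finset.mem_univ _)).symm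
    rw [h2, OneMemClass.coe_one, one_smul]
    exact Ideal.mul_mem_right _ _ hy2
  have hx3 : h • x = x := by
    rw [Finset.smul_prod']
    have h1 : ∀ g : Subgroup.zpowers h, h • (g : Gal(M/K)) • y =
        ((Equiv.mulLeft (⟨h, Subgroup.mem_zpowers h⟩ : Subgroup.zpowers h) g :
          Subgroup.zpowers h) : Gal(M/K)) • y := by
      intro g
      rw [← mul_smul]
      rfl
    rw [Finset.prod_congr rfl fun g _ => h1 g]
    exact Equiv.prod_comp (Equiv.mulLeft (⟨h, Subgroup.mem_zpowers h⟩ : Subgroup.zpowers h))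
      fun g => (g : Gal(M/K)) • y
  have hdeg : (C x * (P - Q)).degree < Q.degree := by
    have h1 : (P - Q).degree < Q.degree := by
      have h2 : P.degree = Q.degree := by
        rw [degree_eq_natDegree hP.ne_zero, degree_eq_natDegree hQ.ne_zero, hd]
      have h3 := degree_sub_lt_left h2 hP.ne_zero (by rw [hP.leadingCoeff, hQ.leadingCoeff])
      rwa [h2] at h3
    refine lt_of_le_of_lt ?_ h1
    by_cases hx0 : x = 0
    · rw [hx0, C_0, zero_mul, degree_zero]
      exact bot_le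
    · rw [degree_C_mul hx0]
  refine ⟨Q + C x * (P - Q), hQ.add_of_left hdeg, ?_, ?_, ?_, ?_⟩
  · exact natDegree_add_eq_left_of_degree_lt hdeg
  · rw [Polynomial.map_add, Polynomial.map_mul, Polynomial.map_sub, hPh, hQh, map_C, sm_apply, hx3]
  · intro j
    have h1 : Q + C x * (P - Q) - P = C (x - 1) * (P - Q) := by
      rw [C_sub, C_1]
      ring
    rw [h1, coeff_C_mul]
    exact Ideal.mul_mem_right _ _ hx1
  · intro j
    rw [add_sub_cancel_left, coeff_C_mul]
    exact Ideal.mul_mem_right _ _ hx2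

end

section
variable {K M L : Type} [Field K] [NumberField K] [Field M] [NumberField M] [Field L]
  [NumberField L] [Algebra K M] [Algebra M L] [Algebra K L] [IsScalarTower K M L]
  [IsGalois K M] [IsGalois K L]

theorem map_map_sm (f : (𝓞 M)[X]) (β : Gal(L/K)) (hf : f.map (sm (res K M β)) = f) :
    (f.map (algebraMap (𝓞 M) (𝓞 L))).map (sm β) = f.map (algebraMap (𝓞 M) (𝓞 L)) := by
  rw [Polynomial.map_map]
  have h1 : (sm β).comp (algebraMap (𝓞 M) (𝓞 L)) =
      (algebraMap (𝓞 M) (𝓞 L)).comp (sm (res K M β)) := by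
    ext x
    change ((β • algebraMap (𝓞 M) (𝓞 L) x : 𝓞 L) : L) =
      ((algebraMap (𝓞 M) (𝓞 L) (res K M β • x) : 𝓞 L) : L)
    rw [res_smul]
  rw [h1, ← Polynomial.map_map, hf]

omit [IsGalois K M] [IsGalois K L] [Algebra K M] [Algebra K L] [IsScalarTower K M L] [NumberField K]
  [Field K] in
/-- the roots of `f` in a larger field -/
theorem match_above {ι : Type} [Fintype ι] {n : ℕ} (hn : n ≠ 0) (hι : Fintype.card ι = n)
    (w : HeightOneSpectrum (𝓞 M)) (W : HeightOneSpectrum (𝓞 L))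
    (h : W.asIdeal.under (𝓞 M) = w.asIdeal) (t : ℕ) (μ : ι → 𝓞 M)
    (hμ : ∀ i j, i ≠ j → μ i - μ j ∉ w.asIdeal ^ t) (f : (𝓞 M)[X]) (hm : f.Monic)
    (hd : f.natDegree = n) (hs : (f.map (algebraMap (𝓞 M) L)).Splits)
    (hc : ∀ j, (f - ∏ i, (X - C (μ i))).coeff j ∈ w.asIdeal ^ (n * t)) :
    ∃ (T : ℕ) (b : ι → 𝓞 L), (∀ i, aeval (b i) f = 0 ∧
      algebraMap (𝓞 M) (𝓞 L) (μ i) - b i ∈ W.asIdeal ^ T) ∧
      Function.Injective b ∧ (∀ β : 𝓞 L, aeval β f = 0 → ∃ i, b i = β) ∧
      ∀ i (β : 𝓞 L), aeval β f = 0 → algebraMap (𝓞 M) (𝓞 L) (μ i) - β ∈ W.asIdeal ^ T →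
        β = b i := by
  obtain ⟨e, -, he⟩ := exists_pow_iff w W h
  have hs' : (f.map (algebraMap (𝓞 M) (𝓞 L))).Splits := by
    refine splits_of_map (hm.map _) ?_
    rw [Polynomial.map_map, ← IsScalarTower.algebraMap_eq]
    exact hs
  obtain ⟨b, h1, h2, h3, h4⟩ := exists_match hn hι W (e * t)
    (fun i => algebraMap (𝓞 M) (𝓞 L) (μ i)) (fun i j hij h5 => by
      rw [← map_sub, he] at h5
      exact hμ i j hij h5) (f.map (algebraMap (𝓞 M) (𝓞 L))) (hm.map _)
    (by rw [hm.natDegree_map, hd]) hs' (fun j => by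
      have h5 : f.map (algebraMap (𝓞 M) (𝓞 L)) - ∏ i, (X - C (algebraMap (𝓞 M) (𝓞 L) (μ i))) =
          (f - ∏ i, (X - C (μ i))).map (algebraMap (𝓞 M) (𝓞 L)) := by
        rw [Polynomial.map_sub, Polynomial.map_prod]
        simp
      rw [h5, coeff_map]
      have h6 : n * (e * t) = e * (n * t) := by ring
      rw [h6, he]
      exact hc j)
  simp only [eval_map_algebraMap] at h1 h3 h4
  exact ⟨e * t, b, h1, h2, h3, h4⟩

/-- automorphisms and close roots -/
theorem smul_root {f : (𝓞 M)[X]} {β : Gal(L/K)} (hf : f.map (sm (res K M β)) = f) {b : 𝓞 L} (hb : aeval b f = 0) :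
    aeval (β • b) f = 0 := by
  have h1 := smul_eval (map_map_sm (L := L) f β hf) b
  rw [eval_map_algebraMap, eval_map_algebraMap, hb, smul_zero] at h1
  exact h1.symm

end

/-- **Separation of decomposition groups.** -/
theorem exists_separating (K M : Type) [Field K] [NumberField K] [Field M] [NumberField M]
    [Algebra K M] [IsGalois K M] (S : Finset (HeightOneSpectrum (𝓞 K))) :
    ∃ (L : Type) (_ : Field L) (_ : NumberField L) (_ : Algebra K L) (_ : Algebra M L)
      (_ : IsScalarTower K M L), IsGalois K L ∧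
      ∀ W W' : HeightOneSpectrum (𝓞 L), (∃ v ∈ S, W.asIdeal.under (𝓞 K) = v.asIdeal) →
        (∃ v ∈ S, W'.asIdeal.under (𝓞 K) = v.asIdeal) →
        W.asIdeal.under (𝓞 M) ≠ W'.asIdeal.under (𝓞 M) →
        ∀ β : Gal(L/K), β • W.asIdeal = W.asIdeal → β • W'.asIdeal = W'.asIdeal →
          res K M β = 1 := by
  classical
  obtain ⟨θ, hθ⟩ := exists_prim K M
  -- the polynomials
  have hpoly : ∀ p : Gal(M/K) × HeightOneSpectrum (𝓞 M) × HeightOneSpectrum (𝓞 M),
      ∃ f : (𝓞 M)[X], f.Monic ∧ (p.2.1 ≠ p.2.2 → p.1 • p.2.1.asIdeal = p.2.1.asIdeal →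
        f.natDegree = Nat.card (Subgroup.zpowers p.1) ∧ f.map (sm p.1) = f ∧
        ∃ (t : ℕ) (μ ν : Subgroup.zpowers p.1 → 𝓞 M) (_ : Fintype (Subgroup.zpowers p.1)),
          (∀ g, μ g = (g : Gal(M/K)) • θ) ∧ (∀ g, p.1 • ν g = ν g) ∧
          (∀ i j, i ≠ j → μ i - μ j ∉ p.2.1.asIdeal ^ t) ∧
          (∀ i j, i ≠ j → ν i - ν j ∉ p.2.2.asIdeal ^ t) ∧
          (∀ j, (f - ∏ i, (X - C (μ i))).coeff j ∈
            p.2.1.asIdeal ^ (Nat.card (Subgroup.zpowers p.1) * t)) ∧
          ∀ j, (f - ∏ i, (X - C (ν i))).coeff j ∈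
            p.2.2.asIdeal ^ (Nat.card (Subgroup.zpowers p.1) * t)) := by
    rintro ⟨h, w, w'⟩
    by_cases hne : w = w'
    · exact ⟨1, monic_one, fun h1 => absurd hne h1⟩
    by_cases hw : h • w.asIdeal = w.asIdeal
    swap
    · exact ⟨1, monic_one, fun _ h1 => absurd h1 hw⟩
    let _ : Fintype (Subgroup.zpowers h) := Fintype.ofFinite _
    let μ : Subgroup.zpowers h → 𝓞 M := fun g => (g : Gal(M/K)) • θ
    let ν : Subgroup.zpowers h → 𝓞 M := fun g =>
      ((Fintype.equivFin (Subgroup.zpowers h) g : ℕ) : 𝓞 M)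
    have hμi : Function.Injective μ := by
      intro g g' hgg
      have h1 : ((g : Gal(M/K))⁻¹ * g') • θ = θ := by
        rw [mul_smul, inv_smul_eq_iff]
        exact hgg.symm
      have h2 := hθ _ h1
      exact Subtype.ext (inv_mul_eq_one.1 h2)
    have hνi : Function.Injective ν := by
      intro g g' hgg
      have h1 : ((Fintype.equivFin (Subgroup.zpowers h) g : ℕ) : 𝓞 M) =
        ((Fintype.equivFin (Subgroup.zpowers h) g' : ℕ) : 𝓞 M) := hgg
      exact (Fintype.equivFin _).injective (Fin.ext (by exact_mod_cast h1))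
    obtain ⟨t1, ht1⟩ := exists_sep w μ hμi
    obtain ⟨t2, ht2⟩ := exists_sep w' ν hνi
    have hcard : Fintype.card (Subgroup.zpowers h) = Nat.card (Subgroup.zpowers h) :=
      Fintype.card_eq_nat_card
    have hdeg : ∀ κ : Subgroup.zpowers h → 𝓞 M,
        (∏ i, (X - C (κ i))).natDegree = Nat.card (Subgroup.zpowers h) := by
      intro κ
      rw [natDegree_prod_of_monic _ _ fun i _ => monic_X_sub_C _]
      simp
    obtain ⟨f, h1, h2, h3, h4, h5⟩ := exists_between h w w' hne hw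
      (∏ i, (X - C (μ i))) (∏ i, (X - C (ν i)))
      (monic_prod_of_monic _ _ fun i _ => monic_X_sub_C _)
      (monic_prod_of_monic _ _ fun i _ => monic_X_sub_C _) (by rw [hdeg, hdeg])
      (map_prod_sub μ h (Equiv.mulLeft (⟨h, Subgroup.mem_zpowers h⟩ : Subgroup.zpowers h))
        (fun i => by rw [← mul_smul]; rfl))
      (map_prod_sub ν h (Equiv.refl _) (fun i => by
        change h • ((Fintype.equivFin (Subgroup.zpowers h) i : ℕ) : 𝓞 M) = _
        rw [← sm_apply, map_natCast]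
        rfl))
      (Nat.card (Subgroup.zpowers h) * max t1 t2)
    refine ⟨f, h1, fun _ _ => ⟨by rw [h2, hdeg], h3, max t1 t2, μ, ν, inferInstance,
      fun g => rfl, fun g => ?_, fun i j hij h6 => ht1 i j hij ?_,
      fun i j hij h6 => ht2 i j hij ?_, h4, h5⟩⟩
    · change h • ((Fintype.equivFin (Subgroup.zpowers h) g : ℕ) : 𝓞 M) = _
      rw [← sm_apply, map_natCast]
    · exact Ideal.pow_le_pow_right (le_max_left _ _) h6
    · exact Ideal.pow_le_pow_right (le_max_right _ _) h6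
  choose F hFm hF using hpoly
  let T := (finite_above (M := M) S).toFinset
  have hT : ∀ w : HeightOneSpectrum (𝓞 M), w ∈ T ↔ ∃ v ∈ S, w.asIdeal.under (𝓞 K) = v.asIdeal :=
    fun w => Set.Finite.mem_toFinset _
  let _ : Fintype Gal(M/K) := Fintype.ofFinite _
  let P : M[X] := ∏ p ∈ (Finset.univ : Finset Gal(M/K)) ×ˢ T ×ˢ T, (F p).map (algebraMap (𝓞 M) M)
  have hP0 : P ≠ 0 := Finset.prod_ne_zero_iff.2 fun p _ => ((hFm p).map _).ne_zero
  obtain ⟨L, _, _, _, _, _, hGL, hsL, -⟩ := exists_L K M P hP0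
  refine ⟨L, inferInstance, inferInstance, inferInstance, inferInstance, inferInstance, hGL, ?_⟩
  intro W W' hW hW' hne β hβ hβ'
  obtain ⟨w, hw⟩ := exists_under (K := M) W
  obtain ⟨w', hw'⟩ := exists_under (K := M) W'
  have hwT : w ∈ T := by
    rw [hT, ← hw, under_under]
    exact hW
  have hwT' : w' ∈ T := by
    rw [hT, ← hw', under_under]
    exact hW'
  have hne' : w ≠ w' := by
    rintro rfl
    exact hne (hw.trans hw'.symm)
  by_contra hres
  set h := res K M β with hh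
  have hfix : h • w.asIdeal = w.asIdeal := by
    rw [← hw, hh, ← under_smul, hβ]
  let p : Gal(M/K) × HeightOneSpectrum (𝓞 M) × HeightOneSpectrum (𝓞 M) := (h, w, w')
  obtain ⟨hd, hmap, t, μ, ν, hft, hμ, hν, hμs, hνs, hc1, hc2⟩ := hF p hne' hfix
  have hs : ((F p).map (algebraMap (𝓞 M) L)).Splits := by
    have h1 : (F p).map (algebraMap (𝓞 M) L) =
        ((F p).map (algebraMap (𝓞 M) M)).map (algebraMap M L) := by
      rw [Polynomial.map_map, ← IsScalarTower.algebraMap_eq]
    rw [h1]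
    refine hsL.of_dvd (map_ne_zero hP0) (Polynomial.map_dvd _ ?_)
    refine Finset.dvd_prod_of_mem (fun p => (F p).map (algebraMap (𝓞 M) M)) ?_
    rw [Finset.mem_product, Finset.mem_product]
    exact ⟨Finset.mem_univ _, hwT, hwT'⟩
  have hn0 : Nat.card (Subgroup.zpowers h) ≠ 0 := Nat.card_pos.ne'
  obtain ⟨T1, b, hb1, hb2, hb3, hb4⟩ := match_above hn0 Fintype.card_eq_nat_card w W hw t μ hμs
    (F p) (hFm p) hd hs hc1
  obtain ⟨T2, c, hc1', hc2', hc3', hc4'⟩ := match_above hn0 Fintype.card_eq_nat_card w' W' hw' t ν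
    hνs (F p) (hFm p) hd hs hc2
  -- `β` moves `b 1`
  let one : Subgroup.zpowers h := 1
  let hel : Subgroup.zpowers h := ⟨h, Subgroup.mem_zpowers h⟩
  have hmove : β • b one = b hel := by
    apply hb4
    · exact smul_root hmap (hb1 one).1
    · have h1 : algebraMap (𝓞 M) (𝓞 L) (μ hel) = β • algebraMap (𝓞 M) (𝓞 L) (μ one) := by
        rw [← res_smul (K := K) (M := M), ← hh, hμ, hμ]
        congr 1
      rw [h1, ← smul_sub, smul_mem_pow' hβ]
      exact (hb1 one).2
  -- `β` fixes all roots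
  obtain ⟨i, hi⟩ := hc3' (b one) (hb1 one).1
  have hfixed : β • c i = c i := by
    apply hc4'
    · exact smul_root hmap (hc1' i).1
    · have h1 : algebraMap (𝓞 M) (𝓞 L) (ν i) = β • algebraMap (𝓞 M) (𝓞 L) (ν i) := by
        rw [← res_smul (K := K) (M := M), ← hh, hν]
      rw [h1, ← smul_sub, smul_mem_pow' hβ']
      exact (hc1' i).2
  rw [hi, hmove] at hfixed
  have h3 := hb2 hfixed
  apply hres
  have h4 : (hel : Gal(M/K)) = (one : Gal(M/K)) := congrArg Subtype.val h3
  exact h4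

end Pool.Agent.H46.OP
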