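import Pool.Agent.H46.OP.Nasty
import Pool.Agent.H46.Lib.R_seed8.R333.BR.Ord

/-! Relations indexed by intermediate fields; orders of vanishing of powers. -/

set_option autoImplicit false
set_option linter.unusedSectionVars false

namespace Pool.Agent.H46.OP

open NumberField IsDedekindDomain
open scoped Pointwise
open Pool.Agent.R433.MD (fx)

/-- a relation indexed by intermediate fields -/
theorem exists_finset {K L : Type} [Field K] [NumberField K] [Field L] [NumberField L]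
    [Algebra K L] [IsGalois K L] (P : Subgroup Gal(L/K) → Prop) (m : ℤ)
    (h : (fun _ : Gal(L/K) => m) ∈ Submodule.span ℤ (fx '' {H | P H})) :
    ∃ (S : Finset (IntermediateField K L)) (n : IntermediateField K L → ℤ),
      (∀ F ∈ S, P F.fixingSubgroup) ∧ ∀ g : Gal(L/K), ∑ F ∈ S, n F * fx F.fixingSubgroup g = m := by
  classical
  let e := IsGalois.intermediateFieldEquivSubgroup (F := K) (E := L)
  have hfinI : Finite (IntermediateField K L) := Finite.of_equiv _ e.toEquiv.symm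
  let _ : Fintype (IntermediateField K L) := Fintype.ofFinite _
  have hset : fx '' {H : Subgroup Gal(L/K) | P H} =
      Set.range (fun F : {F : IntermediateField K L // P F.fixingSubgroup} =>
        fx F.1.fixingSubgroup) := by
    ext f
    constructor
    · rintro ⟨H, hH, rfl⟩
      have h1 : (IntermediateField.fixedField H).fixingSubgroup = H :=
        IntermediateField.fixingSubgroup_fixedField H
      exact ⟨⟨IntermediateField.fixedField H, by rw [h1]; exact hH⟩, by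
        change fx (IntermediateField.fixedField H).fixingSubgroup = fx H
        rw [h1]⟩
    · rintro ⟨F, rfl⟩
      exact ⟨_, F.2, rfl⟩
  rw [hset, Submodule.mem_span_range_iff_exists_fun] at h
  obtain ⟨c, hc⟩ := h
  let d : IntermediateField K L → ℤ := fun F => if h : P F.fixingSubgroup then c ⟨F, h⟩ else 0
  refine ⟨Finset.univ.filter fun F => P F.fixingSubgroup, d,
    fun F hF => (Finset.mem_filter.1 hF).2, fun g => ?_⟩
  have h1 := congrFun hc g
  rw [Finset.sum_apply] at h1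
  have h2 : ∑ F ∈ Finset.univ.filter (fun F : IntermediateField K L => P F.fixingSubgroup),
      d F * fx F.fixingSubgroup g =
      ∑ F : {F : IntermediateField K L // P F.fixingSubgroup}, d F.1 * fx F.1.fixingSubgroup g :=
    Finset.sum_subtype _ (fun F => by simp) (fun F => d F * fx F.fixingSubgroup g)
  rw [h2, ← h1]
  refine Finset.sum_congr rfl fun i _ => ?_
  have h3 : d i.1 = c i := dif_pos i.2
  rw [h3, Pi.smul_apply, smul_eq_mul]

section
open Pool.Agent.R433.MD Pool.Agent.H341R2.EC Pool.Agent.R333.BR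

variable {U : Set ℂ} {K L : Type} [Field K] [NumberField K] [Field L] [NumberField L] [Algebra K L]
  [IsGalois K L]

/-- powers: continuation -/
theorem cont_pow {ι : Type} [Fintype ι] (Z : ι → Ext K) (f : ∀ i, (Z i).F →ₐ[K] L) (e : ι → ℤ)
    (m : ℕ) (h : ∀ g : Gal(L/K), ∑ i, e i * fx (f i).fieldRange.fixingSubgroup g = m)
    (E : WeierstrassCurve K) (hE : E.IsElliptic)
    (V0 : HeightOneSpectrum (𝓞 K) → WeierstrassCurve (𝓞 K)) (hV0 : ∀ v, IsMinAt E v (V0 v))
    (VZ : ∀ i, HeightOneSpectrum (𝓞 (Z i).F) → WeierstrassCurve (𝓞 (Z i).F))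
    (hVZ : ∀ i w, IsMinAt (E.map (algebraMap K (Z i).F)) w (VZ i w))
    {Λ : ι → ℂ → ℂ} (hΛ : ∀ i, MeromorphicOn (Λ i) U)
    (hL : ∀ i (s : ℂ), 3 / 2 < s.re → Λ i s = LL (VZ i) s) :
    ∃ Λ0 : ℂ → ℂ, MeromorphicOn Λ0 U ∧ ∀ s : ℂ, 3 / 2 < s.re → Λ0 s = LL V0 s ^ m := by
  obtain ⟨R, hR, -, hRL⟩ := L_rel Z f e m h E hE V0 hV0 VZ hVZ
  have hRU : MeromorphicOn R U := fun x _ => hR x trivial
  refine ⟨R * ∏ i, (Λ i) ^ (e i),
    hRU.mul (MeromorphicOn.prod fun i _ => (hΛ i).zpow _), fun s hs => ?_⟩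
  rw [(hRL s hs).2, Pi.mul_apply, Finset.prod_apply]
  congr 1
  refine Finset.prod_congr rfl fun i _ => ?_
  rw [Pi.pow_apply, hL i s hs]

/-- powers: order of vanishing -/
theorem ord_pow (hU : IsPreconnected U) (hH : ∀ s : ℂ, 3 / 2 < s.re → s ∈ U) (h1 : (1 : ℂ) ∈ U)
    {ι : Type} [Fintype ι] (Z : ι → Ext K) (f : ∀ i, (Z i).F →ₐ[K] L) (e : ι → ℤ)
    (m : ℕ) (h : ∀ g : Gal(L/K), ∑ i, e i * fx (f i).fieldRange.fixingSubgroup g = m)
    (E : WeierstrassCurve K) (hE : E.IsElliptic)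
    (V0 : HeightOneSpectrum (𝓞 K) → WeierstrassCurve (𝓞 K)) (hV0 : ∀ v, IsMinAt E v (V0 v))
    (VZ : ∀ i, HeightOneSpectrum (𝓞 (Z i).F) → WeierstrassCurve (𝓞 (Z i).F))
    (hVZ : ∀ i w, IsMinAt (E.map (algebraMap K (Z i).F)) w (VZ i w))
    {Λ0 : ℂ → ℂ} (hΛ0 : MeromorphicOn Λ0 U) (hL0 : ∀ s : ℂ, 3 / 2 < s.re → Λ0 s = LL V0 s ^ m)
    {Λ : ι → ℂ → ℂ} (hΛ : ∀ i, MeromorphicOn (Λ i) U)
    (hL : ∀ i (s : ℂ), 3 / 2 < s.re → Λ i s = LL (VZ i) s) (r : ι → ℤ)
    (hr : ∀ i, meromorphicOrderAt (Λ i) 1 = r i) :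
    meromorphicOrderAt Λ0 1 = ((∑ i, e i * r i : ℤ) : WithTop ℤ) := by
  obtain ⟨R, hR, hR1, hRL⟩ := L_rel Z f e m h E hE V0 hV0 VZ hVZ
  have hRU : MeromorphicOn R U := fun x _ => hR x trivial
  have h2 : meromorphicOrderAt Λ0 1 = meromorphicOrderAt (R * ∏ i, (Λ i) ^ (e i)) 1 := by
    refine order_eq hU hH h1 hΛ0
      (hRU.mul (MeromorphicOn.prod fun i _ => (hΛ i).zpow _)) fun s hs => ?_
    rw [Pi.mul_apply, Finset.prod_apply, hL0 s hs, (hRL s hs).2]
    congr 1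
    refine Finset.prod_congr rfl fun i _ => ?_
    rw [Pi.pow_apply, hL i s hs]
  rw [h2, meromorphicOrderAt_mul (hR 1 trivial)
    (MeromorphicAt.prod fun i _ => (hΛ i 1 h1).zpow _), hR1, zero_add,
    meromorphicOrderAt_prod fun i _ => (hΛ i 1 h1).zpow _]
  have h4 : ∀ i, meromorphicOrderAt (Λ i ^ e i) 1 = ((e i * r i : ℤ) : WithTop ℤ) := fun i => by
    rw [meromorphicOrderAt_zpow (hΛ i 1 h1), hr i]
    rfl
  rw [Finset.sum_congr rfl fun i _ => h4 i, WithTop.coe_sum]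

end

end Pool.Agent.H46.OP
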