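import Pool.Agent.H46.OP.Nasty

/-! Number fields with at most one exceptional prime: the general relation. -/

set_option autoImplicit false
set_option linter.unusedSectionVars false

namespace Pool.Agent.H46.OP

open NumberField IsDedekindDomain Polynomial
open scoped Pointwise
open Pool.Agent.R433.MD (fx IsHyper)
open Pool.Agent.H46.SP (res res_apply res_smul under_smul under_under exists_above exists_under
  smul_ne_bot exists_L exists_int finite_small)

section
variable {K M L : Type} [Field K] [NumberField K] [Field M] [NumberField M] [Field L]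
  [NumberField L] [Algebra K M] [Algebra M L] [Algebra K L] [IsScalarTower K M L]
  [IsGalois K M] [IsGalois K L]

/-- the compositum with `M`, with the compatibility of the restriction -/
theorem exists_FM' (H : Subgroup Gal(L/K)) :
    ∃ (F' : Type) (_ : Field F') (_ : NumberField F')
      (_ : Algebra (IntermediateField.fixedField H) F') (_ : Algebra K F')
      (_ : IsScalarTower K (IntermediateField.fixedField H) F')
      (_ : Algebra M F') (_ : IsScalarTower K M F') (_ : Algebra F' L)
      (_ : IsScalarTower (IntermediateField.fixedField H) F' L) (_ : IsScalarTower M F' L)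
      (_ : IsGalois (IntermediateField.fixedField H) F')
      (ι : Gal(F'/IntermediateField.fixedField H) →* Gal(M/K)), Function.Injective ι ∧
        (∀ σ, ι σ ∈ H.map (res K M)) ∧
        (∀ σ (x : M), algebraMap M F' (ι σ x) = σ (algebraMap M F' x)) ∧
        ∀ (W : HeightOneSpectrum (𝓞 L)) (σ : Gal(F'/IntermediateField.fixedField H)),
          σ • (W.asIdeal.under (𝓞 F')) = W.asIdeal.under (𝓞 F') →
            ∃ h ∈ H, h • W.asIdeal = W.asIdeal ∧ res K M h = ι σ := by
  set F := IntermediateField.fixedField H with hF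
  let φ : Gal(L/F) →* Gal(M/K) := (res K M).comp (rs K F L)
  let N : Subgroup Gal(L/F) := φ.ker
  have hNn : N.Normal := MonoidHom.normal_ker _
  let F' : IntermediateField F L := IntermediateField.fixedField N
  have hfix : N = F'.fixingSubgroup := (IntermediateField.fixingSubgroup_fixedField N).symm
  have hnf : NumberField F' := NumberField.of_module_finite F F'
  have hG : IsGalois F F' := IsGalois.of_fixedField_normal_subgroup N
  have hmem : ∀ x : M, algebraMap M L x ∈ F' := by
    intro x
    rw [IntermediateField.mem_fixedField_iff]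
    intro g hg
    have h1 : φ g = 1 := hg
    have h2 : algebraMap M L (res K M (rs K F L g) x) = algebraMap M L x := by
      change algebraMap M L (φ g x) = _
      rw [h1]
      rfl
    rw [res_apply, rs_apply] at h2
    exact h2
  let _ : Algebra M F' := ((algebraMap M L).codRestrict F'.toSubfield hmem).toAlgebra
  have t1 : IsScalarTower M F' L := IsScalarTower.of_algebraMap_eq fun x => rfl
  have t2 : IsScalarTower K M F' := IsScalarTower.of_algebraMap_eq fun x => by
    apply (algebraMap F' L).injective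
    rw [← IsScalarTower.algebraMap_apply M F' L, ← IsScalarTower.algebraMap_apply K M L]
    rfl
  let ι : Gal(F'/F) →* Gal(M/K) := (res K M).comp (rs K F F')
  have hιx : ∀ (g : Gal(F'/F)) (x : M), algebraMap M F' (ι g x) = g (algebraMap M F' x) := by
    intro g x
    exact res_apply' (K := K) (M := M) (L := F') _ x
  have hι : ∀ g : Gal(L/F), ι (res F F' g) = φ g := by
    intro g
    ext x
    apply (algebraMap M L).injective
    rw [IsScalarTower.algebraMap_apply M F' L]
    change algebraMap F' L (algebraMap M F' (res K M (rs K F F' (res F F' g)) x)) =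
      algebraMap M L (res K M (rs K F L g) x)
    have e1 : algebraMap M F' (res K M (rs K F F' (res F F' g)) x) =
        res F F' g (algebraMap M F' x) := res_apply' _ x
    have e2 : algebraMap M L (res K M (rs K F L g) x) = g (algebraMap M L x) := res_apply' _ x
    have e3 : algebraMap F' L (res F F' g (algebraMap M F' x)) =
        g (algebraMap F' L (algebraMap M F' x)) := res_apply' _ _
    rw [e1, e2, e3, ← IsScalarTower.algebraMap_apply M F' L]
  have hH : ∀ g : Gal(L/F), rs K F L g ∈ H := by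
    intro g
    have h1 : rs K F L g ∈ F.fixingSubgroup := by
      rw [IntermediateField.mem_fixingSubgroup_iff]
      intro y hy
      exact g.commutes (⟨y, hy⟩ : F)
    have h2 : F.fixingSubgroup = H := IntermediateField.fixingSubgroup_fixedField H
    exact h2 ▸ h1
  refine ⟨F', inferInstance, hnf, inferInstance, inferInstance, inferInstance, inferInstance, t2,
    inferInstance, inferInstance, t1, hG, ι, ?_, ?_, hιx, ?_⟩
  · rw [injective_iff_map_eq_one]
    intro σ hσ
    obtain ⟨g, rfl⟩ := AlgEquiv.restrictNormalHom_surjective (F := F) (K₁ := F') L σ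
    have h1 : φ g = 1 := (hι g).symm.trans hσ
    have h2 : g ∈ F'.fixingSubgroup := hfix ▸ h1
    ext x
    have h3 : g (x : L) = x := (IntermediateField.mem_fixingSubgroup_iff _ _).1 h2 x x.2
    have h4 : algebraMap F' L (res F F' g x) = g (algebraMap F' L x) := res_apply g x
    exact h4.trans h3
  · intro σ
    obtain ⟨g, rfl⟩ := AlgEquiv.restrictNormalHom_surjective (F := F) (K₁ := F') L σ
    exact ⟨rs K F L g, hH g, (hι g).symm⟩
  · intro W σ hσ
    obtain ⟨δ, hδ, hδW⟩ := lift_dec (K := F) (M := F') W σ hσ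
    refine ⟨rs K F L δ, hH δ, ?_, ?_⟩
    · rw [rs_smul_ideal]
      exact hδW
    · rw [← hδ, hι]
      rfl

end

theorem smul_int_coe {K M : Type} [Field K] [Field M] [Algebra K M] (σ : Gal(M/K)) (x : 𝓞 M) :
    ((σ • x : 𝓞 M) : M) = σ (x : M) := rfl

/-- an automorphism which fixes the integers is the identity -/
theorem eq_one_of_fix {K M : Type} [Field K] [NumberField K] [Field M] [NumberField M]
    [Algebra K M] (σ : Gal(M/K)) (h : ∀ x : 𝓞 M, σ • x = x) : σ = 1 := by
  ext y
  obtain ⟨a, b, hb, rfl⟩ := IsFractionRing.div_surjective (A := 𝓞 M) y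
  rw [map_div₀, AlgEquiv.one_apply]
  have h1 : σ (algebraMap (𝓞 M) M a) = algebraMap (𝓞 M) M a := congrArg (algebraMap (𝓞 M) M) (h a)
  have h2 : σ (algebraMap (𝓞 M) M b) = algebraMap (𝓞 M) M b := congrArg (algebraMap (𝓞 M) M) (h b)
  rw [h1, h2]

/-- almost all primes are unramified -/
theorem exists_unram (K M : Type) [Field K] [NumberField K] [Field M] [NumberField M]
    [Algebra K M] : ∃ S : Finset (HeightOneSpectrum (𝓞 K)),
      ∀ (W : HeightOneSpectrum (𝓞 M)) (v : HeightOneSpectrum (𝓞 K)),
        W.asIdeal.under (𝓞 K) = v.asIdeal → v ∉ S → ∀ σ : Gal(M/K),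
        (∀ x : 𝓞 M, σ • x - x ∈ W.asIdeal) → σ = 1 := by
  classical
  have hfd : FiniteDimensional K M := by
    have : IsScalarTower ℚ K M := inferInstance
    exact FiniteDimensional.right ℚ K M
  have _ : Fintype Gal(M/K) := Fintype.ofFinite _
  have hx : ∀ σ : Gal(M/K), ∃ x : 𝓞 M, σ ≠ 1 → σ • x - x ≠ 0 := by
    intro σ
    by_cases h : σ = 1
    · exact ⟨0, fun h' => absurd h h'⟩
    · by_contra hn
      push Not at hn
      exact h (eq_one_of_fix σ fun x => sub_eq_zero.1 (hn x).2)
  choose x hx using hx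
  let a : 𝓞 M := ∏ σ ∈ Finset.univ.filter (fun σ : Gal(M/K) => σ ≠ 1), (σ • x σ - x σ)
  have ha : a ≠ 0 := Finset.prod_ne_zero_iff.2 fun σ hσ => hx σ (Finset.mem_filter.1 hσ).2
  have hI : Ideal.span {a} ≠ 0 := by
    rw [Ne, Ideal.zero_eq_bot, Ideal.span_singleton_eq_bot]
    exact ha
  have hfin := Ideal.finite_factors hI
  let g : HeightOneSpectrum (𝓞 M) → HeightOneSpectrum (𝓞 K) := fun W =>
    Classical.choose (exists_under (K := K) W)
  refine ⟨hfin.toFinset.image g, fun W v hWv hv σ hσ => ?_⟩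
  by_contra hne
  apply hv
  have h1 : a ∈ W.asIdeal := by
    refine Ideal.prod_mem _ (i := σ) (Finset.mem_filter.2 ⟨Finset.mem_univ _, hne⟩) (hσ _)
  have h2 : W ∈ hfin.toFinset := by
    rw [Set.Finite.mem_toFinset]
    change W.asIdeal ∣ Ideal.span {a}
    rw [Ideal.dvd_span_singleton]
    exact h1
  have h3 : g W = v := by
    apply HeightOneSpectrum.ext
    rw [← hWv]
    exact (Classical.choose_spec (exists_under (K := K) W)).symm
  exact Finset.mem_image.2 ⟨W, h2, h3⟩

/-- the decomposition groups of `w` in `F'/F` are `p`-groups -/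
def DecP (p : ℕ) {F : Type} [Field F] [NumberField F] (F' : Type) [Field F'] [NumberField F']
    [Algebra F F'] (w : HeightOneSpectrum (𝓞 F)) : Prop :=
  ∀ W : HeightOneSpectrum (𝓞 F'), W.asIdeal.under (𝓞 F) = w.asIdeal →
    ∀ σ : Gal(F'/F), σ • W.asIdeal = W.asIdeal → ∃ k : ℕ, σ ^ p ^ k = 1

/-- the decomposition groups of `w` in `F'/F` are trivial -/
def DecT {F : Type} [Field F] [NumberField F] (F' : Type) [Field F'] [NumberField F']
    [Algebra F F'] (w : HeightOneSpectrum (𝓞 F)) : Prop :=
  ∀ W : HeightOneSpectrum (𝓞 F'), W.asIdeal.under (𝓞 F) = w.asIdeal →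
    ∀ σ : Gal(F'/F), σ • W.asIdeal = W.asIdeal → σ = 1

/-- the inertia groups of `w` in `F'/F` are trivial -/
def Unram {F : Type} [Field F] [NumberField F] (F' : Type) [Field F'] [NumberField F']
    [Algebra F F'] (w : HeightOneSpectrum (𝓞 F)) : Prop :=
  ∀ W : HeightOneSpectrum (𝓞 F'), W.asIdeal.under (𝓞 F) = w.asIdeal →
    ∀ σ : Gal(F'/F), (∀ x : 𝓞 F', σ • x - x ∈ W.asIdeal) → σ = 1

/-- the prime lies over the set `S` -/
def LiesOverSet {K : Type} [Field K] [NumberField K] (S : Set (HeightOneSpectrum (𝓞 K)))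
    {F : Type} [Field F] [NumberField F] [Algebra K F] (w : HeightOneSpectrum (𝓞 F)) : Prop :=
  ∃ v ∈ S, w.asIdeal.under (𝓞 K) = v.asIdeal

/-- `F` is special: `p`-hyperelementary extension which contains `T`, one exceptional prime -/
def SpecialP {K : Type} [Field K] [NumberField K] (S : Set (HeightOneSpectrum (𝓞 K))) (X : ℕ)
    (T : Type) [Field T] [Algebra K T] (F : Type) [Field F] [NumberField F] [Algebra K F] : Prop :=
  ∃ p : ℕ, p.Prime ∧ ∃ (F' : Type) (_ : Field F') (_ : NumberField F') (_ : Algebra F F'),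
    IsGalois F F' ∧ Hyperelementary p Gal(F'/F) ∧
    (∃ j : T →+* F', ∀ x : K, j (algebraMap K T x) = algebraMap F F' (algebraMap K F x)) ∧
    ∀ w w' : HeightOneSpectrum (𝓞 F),
      (Ideal.absNorm w.asIdeal ≤ X ∨ ((¬ Unram F' w ∨ LiesOverSet S w) ∧ ¬ DecP p F' w)) →
      (Ideal.absNorm w'.asIdeal ≤ X ∨ ((¬ Unram F' w' ∨ LiesOverSet S w') ∧ ¬ DecP p F' w')) →
      w = w'

/-- `F` is special: cyclic extension which contains `T`, one exceptional prime -/
def SpecialC {K : Type} [Field K] [NumberField K] (S : Set (HeightOneSpectrum (𝓞 K))) (X : ℕ)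
    (T : Type) [Field T] [Algebra K T] (F : Type) [Field F] [NumberField F] [Algebra K F] : Prop :=
  ∃ (F' : Type) (_ : Field F') (_ : NumberField F') (_ : Algebra F F'),
    IsGalois F F' ∧ IsCyclic Gal(F'/F) ∧
    (∃ j : T →+* F', ∀ x : K, j (algebraMap K T x) = algebraMap F F' (algebraMap K F x)) ∧
    ∀ w w' : HeightOneSpectrum (𝓞 F),
      (Ideal.absNorm w.asIdeal ≤ X ∨ ((¬ Unram F' w ∨ LiesOverSet S w) ∧ ¬ DecT F' w)) →
      (Ideal.absNorm w'.asIdeal ≤ X ∨ ((¬ Unram F' w' ∨ LiesOverSet S w') ∧ ¬ DecT F' w')) →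
      w = w'

section
variable {K M L : Type} [Field K] [NumberField K] [Field M] [NumberField M] [Field L]
  [NumberField L] [Algebra K M] [Algebra M L] [Algebra K L] [IsScalarTower K M L]
  [IsGalois K M] [IsGalois K L]

/-- one exceptional prime -/
theorem one_of_H' {A : Set Gal(M/K)}
    {S : Finset (HeightOneSpectrum (𝓞 K))} (H : Subgroup Gal(L/K)) (hH : OneBadA A S H)
    (Exc : HeightOneSpectrum (𝓞 (IntermediateField.fixedField H)) → Prop)
    (h1 : ∀ (w : HeightOneSpectrum (𝓞 (IntermediateField.fixedField H)))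
      (v : HeightOneSpectrum (𝓞 K)), w.asIdeal.under (𝓞 K) = v.asIdeal → Exc w → v ∈ S)
    (h2 : ∀ (w : HeightOneSpectrum (𝓞 (IntermediateField.fixedField H))),
      (∀ W : HeightOneSpectrum (𝓞 L), 
      W.asIdeal.under (𝓞 (IntermediateField.fixedField H)) = w.asIdeal → Over S W ∧
      ¬ BadAtA A H W) → ¬ Exc w)
    (w w' : HeightOneSpectrum (𝓞 (IntermediateField.fixedField H))) (hw : Exc w) (hw' : Exc w') :
    w = w' := by
  have key : ∀ w : HeightOneSpectrum (𝓞 (IntermediateField.fixedField H)), Exc w →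
      ∃ W : HeightOneSpectrum (𝓞 L), W.asIdeal.under (𝓞 (IntermediateField.fixedField H)) =
        w.asIdeal ∧ Over S W ∧ BadAtA A H W := by
    intro w hw
    have hover : ∀ W : HeightOneSpectrum (𝓞 L),
        W.asIdeal.under (𝓞 (IntermediateField.fixedField H)) = w.asIdeal → Over S W := by
      intro W hW
      obtain ⟨v, hv⟩ := exists_under (K := K) W
      refine ⟨v, h1 w v ?_ hw, hv⟩
      rw [← hW, under_fixed, hv]
    by_contra hn
    push Not at hn
    exact h2 w (fun W hW => ⟨hover W hW, hn W hW (hover W hW)⟩) hw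
  obtain ⟨W, h3, h4, h5⟩ := key w hw
  obtain ⟨W', h3', h4', h5'⟩ := key w' hw'
  obtain ⟨τ, hτ, hτW⟩ := hH W W' h4 h4' h5 h5'
  apply HeightOneSpectrum.ext
  rw [← h3, ← h3', ← hτW, under_conj hτ]

theorem special_common (S0 : Set (HeightOneSpectrum (𝓞 K))) (X : ℕ) (T : Type) [Field T]
    [NumberField T] [Algebra K T] (jT : T →ₐ[K] M) (S : Finset (HeightOneSpectrum (𝓞 K)))
    (hS0 : ∀ v ∈ S0, v ∈ S) (hSX : ∀ v : HeightOneSpectrum (𝓞 K), v ∉ S →
      X < Ideal.absNorm v.asIdeal)
    (hSM : ∀ (W : HeightOneSpectrum (𝓞 M)) (v : HeightOneSpectrum (𝓞 K)),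
        W.asIdeal.under (𝓞 K) = v.asIdeal → v ∉ S → ∀ σ : Gal(M/K),
        (∀ x : 𝓞 M, σ • x - x ∈ W.asIdeal) → σ = 1)
    (A : Set Gal(M/K)) (H : Subgroup Gal(L/K)) (hH : OneBadA A S H)
    (hX : ∀ (w : HeightOneSpectrum (𝓞 (IntermediateField.fixedField H)))
      (W : HeightOneSpectrum (𝓞 L)), Over S W →
      W.asIdeal.under (𝓞 (IntermediateField.fixedField H)) = w.asIdeal →
      ¬ BadAtA A H W → X < Ideal.absNorm w.asIdeal) :
    ∃ (F' : Type) (_ : Field F') (_ : NumberField F')
      (_ : Algebra (IntermediateField.fixedField H) F'),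
      IsGalois (IntermediateField.fixedField H) F' ∧
      (∃ ι : Gal(F'/IntermediateField.fixedField H) →* Gal(M/K), Function.Injective ι ∧
        (∀ σ, ι σ ∈ H.map (res K M)) ∧
        ∀ Dec : HeightOneSpectrum (𝓞 (IntermediateField.fixedField H)) → Prop,
        (∀ w, (∀ W : HeightOneSpectrum (𝓞 F'),
          W.asIdeal.under (𝓞 (IntermediateField.fixedField H)) = w.asIdeal →
          ∀ σ : Gal(F'/IntermediateField.fixedField H), σ • W.asIdeal = W.asIdeal → ι σ ∈ A) →
          Dec w) →
        ∀ w w' : HeightOneSpectrum (𝓞 (IntermediateField.fixedField H)),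
          (Ideal.absNorm w.asIdeal ≤ X ∨ ((¬ Unram F' w ∨ LiesOverSet S0 w) ∧ ¬ Dec w)) →
          (Ideal.absNorm w'.asIdeal ≤ X ∨ ((¬ Unram F' w' ∨ LiesOverSet S0 w') ∧ ¬ Dec w')) →
          w = w') ∧
      (∃ j : T →+* F', ∀ x : K, j (algebraMap K T x) =
        algebraMap (IntermediateField.fixedField H) F'
          (algebraMap K (IntermediateField.fixedField H) x)) := by
  obtain ⟨F', _, _, _, _, t0, _, t1, _, t2, t3, hG, ι, hι, hιH, hιx, hdec⟩ :=
    exists_FM' (M := M) H
  refine ⟨F', inferInstance, inferInstance, inferInstance, hG, ⟨ι, hι, hιH, ?_⟩, ?_⟩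
  · intro Dec hDec w w' hw hw'
    refine one_of_H' H hH (fun w => Ideal.absNorm w.asIdeal ≤ X ∨
      ((¬ Unram F' w ∨ LiesOverSet S0 w) ∧ ¬ Dec w)) ?_ ?_ w w' hw hw'
    · intro w v hwv hexc
      by_contra hv
      rcases hexc with h5 | ⟨h5 | h5, -⟩
      · exact absurd ((hSX v hv).trans_le (absNorm_le w v hwv)) (not_lt.2 h5)
      · apply h5
        intro W hW σ hσ
        obtain ⟨wM, hwM⟩ := exists_under (K := M) W
        have h6 : wM.asIdeal.under (𝓞 K) = v.asIdeal := by
          rw [← hwM, ← hwv, ← hW, under_tower, under_tower]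
        apply hι
        rw [map_one]
        refine hSM wM v h6 hv (ι σ) fun x => ?_
        rw [← hwM]
        change algebraMap (𝓞 M) (𝓞 F') (ι σ • x - x) ∈ W.asIdeal
        have h7 : algebraMap (𝓞 M) (𝓞 F') (ι σ • x - x) =
            σ • algebraMap (𝓞 M) (𝓞 F') x - algebraMap (𝓞 M) (𝓞 F') x := by
          rw [map_sub]
          congr 1
          apply RingOfIntegers.coe_injective (K := F')
          exact hιx σ x
        rw [h7]
        exact hσ _
      · obtain ⟨v', hv', h6⟩ := h5
        have h7 : v' = v := HeightOneSpectrum.ext (h6.symm.trans hwv)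
        exact hv (h7 ▸ hS0 v' hv')
    · rintro w hall (h3 | ⟨-, h3⟩)
      · obtain ⟨W, hW⟩ := exists_above (M := IntermediateField.fixedField H) (L := L) w
        exact absurd (hX w W (hall W hW).1 hW (hall W hW).2) (not_lt.2 h3)
      · apply h3
        apply hDec
        intro W' hW' σ hσ
        obtain ⟨W, hW⟩ := exists_above (M := F') (L := L) W'
        have h4 : W.asIdeal.under (𝓞 (IntermediateField.fixedField H)) = w.asIdeal := by
          rw [← hW', ← hW, under_tower]
        rw [← hW] at hσ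
        obtain ⟨h, hh, hhW, hres⟩ := hdec W σ hσ
        by_contra hn
        exact (hall W h4).2 ⟨h, hh, hhW, by rw [hres]; exact hn⟩
  · refine ⟨(algebraMap M F').comp (jT : T →+* M), fun x => ?_⟩
    have e1 : (jT : T →+* M) (algebraMap K T x) = algebraMap K M x := jT.commutes x
    rw [RingHom.comp_apply, e1, ← IsScalarTower.algebraMap_apply, ← IsScalarTower.algebraMap_apply]

end

/-- **The fields with at most one exceptional prime.** -/
theorem exists_rel_general (K : Type) [Field K] [NumberField K]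
    (S0 : Set (HeightOneSpectrum (𝓞 K))) (hS0 : S0.Finite) (X : ℕ) (T : Type) [Field T]
    [NumberField T] [Algebra K T] :
    ∃ (L : Type) (_ : Field L) (_ : NumberField L) (_ : Algebra K L) (_ : IsGalois K L),
      (∃ m : ℕ, m ≠ 0 ∧ (fun _ : Gal(L/K) => (m : ℤ)) ∈ Submodule.span ℤ
        (fx '' {H : Subgroup Gal(L/K) | SpecialC S0 X T (IntermediateField.fixedField H)})) ∧
      (fun _ : Gal(L/K) => (1 : ℤ)) ∈ Submodule.span ℤ
        (fx '' {H : Subgroup Gal(L/K) | SpecialP S0 X T (IntermediateField.fixedField H)}) := by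
  classical
  let S1 : Finset (HeightOneSpectrum (𝓞 K)) := (hS0.union (finite_small K X)).toFinset
  have hS1 : ∀ v, v ∉ S1 → v ∉ S0 ∧ X < Ideal.absNorm v.asIdeal := by
    intro v hv
    rw [Set.Finite.mem_toFinset, Set.mem_union, not_or, Set.mem_ofPred_eq, not_le] at hv
    exact hv
  obtain ⟨M0, _, _, _, hG0, hM0⟩ := Pool.Agent.H67.OP.exists_big_residue K S1 X
  obtain ⟨M, _, _, _, _, t2, hGM, ⟨jT⟩⟩ := exists_compositum K M0 T
  obtain ⟨S2, hS2⟩ := exists_unram K M
  let S : Finset (HeightOneSpectrum (𝓞 K)) := S1 ∪ S2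
  have hSS1 : ∀ v, v ∉ S → v ∉ S1 := fun v hv h => hv (Finset.mem_union_left _ h)
  have hSS2 : ∀ v, v ∉ S → v ∉ S2 := fun v hv h => hv (Finset.mem_union_right _ h)
  obtain ⟨L, _, _, _, _, t5, hGL, ⟨m, hm0, -, hm⟩, h2, -⟩ := one_place_tower K M S
  let _ : Algebra M0 L := ((algebraMap M L).comp (algebraMap M0 M)).toAlgebra
  have t7 : IsScalarTower M0 M L := IsScalarTower.of_algebraMap_eq fun x => rfl
  have t9 : IsScalarTower K M0 L := IsScalarTower.of_algebraMap_eq fun x => by
    rw [IsScalarTower.algebraMap_apply M0 M L, ← IsScalarTower.algebraMap_apply K M0 M,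
      ← IsScalarTower.algebraMap_apply K M L]
  have hnorm : ∀ (H : Subgroup Gal(L/K)) (p : ℕ), p.Prime →
      ∀ (w : HeightOneSpectrum (𝓞 (IntermediateField.fixedField H)))
      (W : HeightOneSpectrum (𝓞 L)), Over S W →
      W.asIdeal.under (𝓞 (IntermediateField.fixedField H)) = w.asIdeal →
      ¬ BadAtA (Kp (⊥ : Subgroup Gal(M/K)) p) H W → X < Ideal.absNorm w.asIdeal := by
    intro H p hp w W hover hW hb
    obtain ⟨v, hv, hWv⟩ := hover
    by_cases hv1 : v ∈ S1
    · have h3 := hM0 L H W ⟨v, hv1, hWv⟩ p hp (not_bad_down (A := M0) hb)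
      rw [hW] at h3
      exact h3
    · refine (hS1 v hv1).2.trans_le (absNorm_le w v ?_)
      rw [← hWv, ← hW, under_fixed]
  have hcommon := fun (A : Set Gal(M/K)) (H : Subgroup Gal(L/K)) (hH : OneBadA A S H) hX =>
    special_common (L := L) S0 X T jT S
      (fun v hv => by
        by_contra h
        exact (hS1 v (hSS1 v h)).1 hv)
      (fun v hv => (hS1 v (hSS1 v hv)).2)
      (fun W v hWv hv => hS2 W v hWv (hSS2 v hv)) A H hH hX
  refine ⟨L, inferInstance, inferInstance, inferInstance, hGL, ⟨m, hm0, ?_⟩, ?_⟩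
  · refine Submodule.span_mono (Set.image_mono ?_) hm
    rintro H ⟨hH, hcyc⟩
    obtain ⟨F', _, _, _, hG, ⟨ι, hι, hιH, hone⟩, hj⟩ := hcommon _ H hH
      (fun w W hover hW hb => hnorm H 2 Nat.prime_two w W hover hW (not_bad_p 2 hb))
    refine ⟨F', inferInstance, inferInstance, inferInstance, hG, ?_, hj, ?_⟩
    · let κ : Gal(F'/IntermediateField.fixedField H) →* H.map (res K M) := ι.codRestrict _ hιH
      exact isCyclic_of_injective κ fun x y hxy => hι (congrArg Subtype.val hxy)
    · refine hone (fun w => DecT F' w) fun w hw W hW σ hσ => hι ?_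
      rw [map_one]
      exact hw W hW σ hσ
  · refine Submodule.span_mono (Set.image_mono ?_) h2
    rintro H (⟨hH, hcyc⟩ | ⟨p, hp, -, hH, hhyp⟩)
    · obtain ⟨p, hpc, hp⟩ := Nat.exists_infinite_primes (Nat.card Gal(M/K) + 1)
      obtain ⟨F', _, _, _, hG, ⟨ι, hι, hιH, hone⟩, hj⟩ := hcommon _ H hH
        (fun w W hover hW hb => hnorm H 2 Nat.prime_two w W hover hW (not_bad_p 2 hb))
      refine ⟨p, hp, F', inferInstance, inferInstance, inferInstance, hG, ?_, hj, ?_⟩
      · have hfin : Finite Gal(F'/IntermediateField.fixedField H) := Finite.of_injective ι hι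
        let κ : Gal(F'/IntermediateField.fixedField H) →* H.map (res K M) := ι.codRestrict _ hιH
        refine Hyperelementary.of_coprime
          (isCyclic_of_injective κ fun x y hxy => hι (congrArg Subtype.val hxy)) ?_
        refine Nat.Coprime.symm ((Nat.Prime.coprime_iff_not_dvd hp).2 fun h3 => ?_)
        have h4 := Nat.le_of_dvd Nat.card_pos (h3.trans (Subgroup.card_dvd_of_injective ι hι))
        omega
      · refine hone (fun w => DecP p F' w) fun w hw W hW σ hσ => ⟨0, hι ?_⟩
        rw [pow_zero, pow_one, map_one]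
        exact hw W hW σ hσ
    · obtain ⟨F', _, _, _, hG, ⟨ι, hι, hιH, hone⟩, hj⟩ := hcommon _ H hH (hnorm H p hp)
      refine ⟨p, hp, F', inferInstance, inferInstance, inferInstance, hG,
        Hyperelementary.of_injective ι hι hιH hhyp, hj, ?_⟩
      refine hone (fun w => DecP p F' w) fun w hw W hW σ hσ => ?_
      obtain ⟨k, hk⟩ := hw W hW σ hσ
      refine ⟨k, hι ?_⟩
      rw [map_pow, map_one]
      exact hk

end Pool.Agent.H46.OP
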