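import Pool.Agent.H46.Lib.R_seed8.R433.MD.Burnside

/-! Functions vanishing outside of a family of cyclic subgroups. -/

set_option autoImplicit false
set_option linter.unusedSectionVars false

namespace Pool.Agent.H46.OP

open Pool.Agent.R433.MD

section
variable {G : Type} [Group G] [Finite G]

/-- stable families: `fx H * fx H'` for `H` in the family -/
theorem fx_mul_mem_left (𝓗 : Set (Subgroup G)) (hle : ∀ H ∈ 𝓗, ∀ H' ≤ H, H' ∈ 𝓗)
    (hconj : ∀ H ∈ 𝓗, ∀ x : G, H.map (MulAut.conj x).toMonoidHom ∈ 𝓗) {H : Subgroup G}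
    (hH : H ∈ 𝓗) (H' : Subgroup G) :
    fx H * fx H' ∈ Submodule.span ℤ (fx '' 𝓗) := by
  have h1 := fixed_mem (G := G) ((G ⧸ H) × (G ⧸ H')) (Submodule.span ℤ (fx '' 𝓗)) (by
    rintro ⟨c, c'⟩
    obtain ⟨x, rfl⟩ := QuotientGroup.mk_surjective c
    refine Submodule.subset_span ⟨_, hle _ (hconj _ hH x) _ ?_, rfl⟩
    rw [← stab_coset]
    intro y hy
    rw [MulAction.mem_stabilizer_iff, Prod.smul_mk, Prod.mk.injEq] at hy
    exact hy.1)
  have h2 : fx H * fx H' =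
      fun g : G => (Nat.card {y : (G ⧸ H) × (G ⧸ H') // g • y = y} : ℤ) := by
    funext g
    rw [Pi.mul_apply, fx, fx, ← Nat.cast_mul, ← Nat.card_prod]
    congr 1
    refine Nat.card_congr
      { toFun := fun p => ⟨(p.1.1, p.2.1), Prod.ext p.1.2 p.2.2⟩
        invFun := fun p => (⟨p.1.1, congrArg Prod.fst p.2⟩, ⟨p.1.2, congrArg Prod.snd p.2⟩)
        left_inv := fun _ => rfl
        right_inv := fun _ => rfl }
  rw [h2]
  exact h1

theorem mul_mem_left (𝓗 : Set (Subgroup G)) (hle : ∀ H ∈ 𝓗, ∀ H' ≤ H, H' ∈ 𝓗)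
    (hconj : ∀ H ∈ 𝓗, ∀ x : G, H.map (MulAut.conj x).toMonoidHom ∈ 𝓗) {a b : G → ℤ}
    (ha : a ∈ Submodule.span ℤ (fx '' 𝓗)) (hb : b ∈ Submodule.span ℤ (Set.range (fx (G := G)))) :
    a * b ∈ Submodule.span ℤ (fx '' 𝓗) := by
  induction ha using Submodule.span_induction with
  | mem x hx =>
    obtain ⟨H, hH, rfl⟩ := hx
    induction hb using Submodule.span_induction with
    | mem y hy =>
      obtain ⟨H', rfl⟩ := hy
      exact fx_mul_mem_left 𝓗 hle hconj hH H'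
    | zero => rw [mul_zero]; exact Submodule.zero_mem _
    | add y z _ _ hy hz => rw [mul_add]; exact Submodule.add_mem _ hy hz
    | smul c y _ hy => rw [mul_smul_comm]; exact Submodule.smul_mem _ _ hy
  | zero => rw [zero_mul]; exact Submodule.zero_mem _
  | add y z _ _ hy hz => rw [add_mul]; exact Submodule.add_mem _ hy hz
  | smul c y _ hy => rw [smul_mul_assoc]; exact Submodule.smul_mem _ _ hy

/-- `g` fixes a coset of `H` iff it is conjugate to an element of `H` -/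
theorem fx_ne_zero_of_mem {H : Subgroup G} {g : G} (h : g ∈ H) : fx H g ≠ 0 := by
  rw [fx, Nat.cast_ne_zero, Nat.card_ne_zero]
  refine ⟨⟨((1 : G) : G ⧸ H), ?_⟩, inferInstance⟩
  change ((g * 1 : G) : G ⧸ H) = _
  rw [QuotientGroup.eq, mul_one, mul_one]
  exact H.inv_mem h

theorem conj_mem_of_fx {H : Subgroup G} {g : G} (h : fx H g ≠ 0) :
    ∃ x : G, g ∈ H.map (MulAut.conj x).toMonoidHom := by
  rw [fx, Nat.cast_ne_zero, Nat.card_ne_zero] at h
  obtain ⟨⟨c, hc⟩⟩ := h.1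
  obtain ⟨x, rfl⟩ := QuotientGroup.mk_surjective c
  refine ⟨x, ?_⟩
  rw [← stab_coset]
  exact hc

/-- **A function which vanishes at the `g` with `⟨g⟩` outside of a stable family is, up to an integral
factor, a combination of the permutation characters of the family.** -/
theorem span_of_vanish (𝓗 : Set (Subgroup G)) (hle : ∀ H ∈ 𝓗, ∀ H' ≤ H, H' ∈ 𝓗)
    (hconj : ∀ H ∈ 𝓗, ∀ x : G, H.map (MulAut.conj x).toMonoidHom ∈ 𝓗) (θ : G → ℤ)
    (hθ : θ ∈ Submodule.span ℤ (Set.range (fx (G := G))))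
    (h0 : ∀ g, Subgroup.zpowers g ∉ 𝓗 → θ g = 0) :
    ∃ m : ℕ, m ≠ 0 ∧ (m : ℤ) • θ ∈ Submodule.span ℤ (fx '' 𝓗) := by
  classical
  let X := {g : G // Subgroup.zpowers g ∈ 𝓗}
  let r : (G → ℤ) →ₗ[ℤ] (X → ℤ) := LinearMap.funLeft ℤ ℤ Subtype.val
  have hr : ∀ (a : G → ℤ) (x : X), r a x = a x.1 := fun a x => rfl
  obtain ⟨m, hm0, -, hm⟩ := unit_mem ((Submodule.span ℤ (fx '' 𝓗)).map r) (by
    rintro _ ⟨a, ha, rfl⟩ _ ⟨b, hb, rfl⟩
    refine ⟨a * b, mul_mem_left 𝓗 hle hconj ha ?_, rfl⟩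
    exact Submodule.span_mono (Set.image_subset_range _ _) hb) ∅ (by
    rintro ⟨g, hg⟩
    refine ⟨r (fx (Subgroup.zpowers g)), ⟨_, Submodule.subset_span ⟨_, hg, rfl⟩, rfl⟩, ?_⟩
    exact fx_ne_zero_of_mem (Subgroup.mem_zpowers g)) (fun _ _ h => absurd h (Set.notMem_empty _))
  obtain ⟨a, ha, har⟩ := hm
  refine ⟨m, hm0, ?_⟩
  have h1 : (m : ℤ) • θ = a * θ := by
    funext g
    rw [Pi.smul_apply, Pi.mul_apply, smul_eq_mul]
    by_cases hg : Subgroup.zpowers g ∈ 𝓗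
    · have h2 := congrFun har (⟨g, hg⟩ : X)
      rw [hr] at h2
      rw [h2]
    · rw [h0 g hg, mul_zero, mul_zero]
  rw [h1]
  exact mul_mem_left 𝓗 hle hconj ha hθ

end

/-- the local relation -/
theorem exists_local_artin (D : Type) [Group D] [Finite D] (m : ℕ)
    (h : ∀ g : D, m ∣ (Subgroup.zpowers g).index) :
    ∃ (N : ℕ) (a : Subgroup D → ℤ), N ≠ 0 ∧ (∀ C, ¬ m ∣ C.index → a C = 0) ∧
      ∀ g, ∑ᶠ C, a C * fx C g = N := by
  obtain ⟨N, a, hN, -, ha, hsum⟩ := perm_unit {C : Subgroup D | m ∣ C.index}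
    (fun H hH H' _ => dvd_trans hH (Subgroup.index_dvd_of_le inf_le_left))
    (fun H hH x => by
      have e : (H.map (MulAut.conj x).toMonoidHom).index = H.index :=
        Subgroup.index_map_equiv H (MulAut.conj x)
      rw [Set.mem_ofPred_eq, e]
      exact hH) ∅
    (fun g => ⟨Subgroup.zpowers g, h g, fx_ne_zero_of_mem (Subgroup.mem_zpowers g)⟩)
    (fun _ _ h => absurd h (Set.notMem_empty _))
  exact ⟨N, a, hN, fun C hC => ha C hC, hsum⟩

end Pool.Agent.H46.OP
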