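import Pool.Agent.H46.Lib.R_seed8.R433.MD.Burnside

/-! Inflation and induction of permutation characters. -/

set_option autoImplicit false
set_option linter.unusedSectionVars false

namespace Pool.Agent.H46.OP

open Pool.Agent.R433.MD (fx)

section
variable {G' G : Type} [Group G'] [Group G]

/-- inflation -/
theorem fx_comap (φ : G' →* G) (hφ : Function.Surjective φ) (H : Subgroup G) (g : G') :
    fx (H.comap φ) g = fx H (φ g) := by
  let T : G' ⧸ H.comap φ → G ⧸ H := Quotient.map' φ (by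
    intro a b hab
    rw [QuotientGroup.leftRel_apply] at hab ⊢
    rw [← map_inv, ← map_mul]
    exact hab)
  have hT : ∀ a : G', T (a : G' ⧸ H.comap φ) = (φ a : G ⧸ H) := fun a => rfl
  have hinj : Function.Injective T := by
    intro c c' h
    obtain ⟨a, rfl⟩ := QuotientGroup.mk_surjective c
    obtain ⟨b, rfl⟩ := QuotientGroup.mk_surjective c'
    rw [hT, hT, QuotientGroup.eq, ← map_inv, ← map_mul] at h
    rw [QuotientGroup.eq]
    exact h
  have hsurj : Function.Surjective T := by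
    intro c
    obtain ⟨b, rfl⟩ := QuotientGroup.mk_surjective c
    obtain ⟨a, rfl⟩ := hφ b
    exact ⟨(a : G' ⧸ H.comap φ), rfl⟩
  have hsm : ∀ (x : G') (c : G' ⧸ H.comap φ), T (x • c) = φ x • T c := by
    intro x c
    obtain ⟨a, rfl⟩ := QuotientGroup.mk_surjective c
    change T ((x * a : G') : G' ⧸ H.comap φ) = ((φ x * φ a : G) : G ⧸ H)
    rw [hT, map_mul]
  rw [fx, fx]
  congr 1
  have hbij : Function.Bijective T := ⟨hinj, hsurj⟩
  refine Nat.card_congr (Equiv.subtypeEquiv (Equiv.ofBijective T hbij) fun c => ?_)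
  change g • c = c ↔ φ g • T c = T c
  rw [← hsm]
  exact hinj.eq_iff.symm

/-- inflation of a relation -/
theorem span_comap (φ : G' →* G) (hφ : Function.Surjective φ) (𝓗 : Set (Subgroup G)) (m : ℤ)
    (h : (fun _ : G => m) ∈ Submodule.span ℤ (fx '' 𝓗)) :
    (fun _ : G' => m) ∈ Submodule.span ℤ (fx '' ((Subgroup.comap φ) '' 𝓗)) := by
  let r : (G → ℤ) →ₗ[ℤ] (G' → ℤ) := LinearMap.funLeft ℤ ℤ φ
  have h1 : r (fun _ : G => m) ∈ (Submodule.span ℤ (fx '' 𝓗)).map r :=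
    Submodule.mem_map_of_mem h
  rw [Submodule.map_span] at h1
  refine Submodule.span_mono ?_ h1
  rintro _ ⟨_, ⟨H, hH, rfl⟩, rfl⟩
  refine ⟨_, ⟨H, hH, rfl⟩, ?_⟩
  funext g
  exact fx_comap φ hφ H g

/-- a preimage -/
noncomputable def pre (ψ : G' →* G) (x : G) : G' := by
  classical
  exact if h : ∃ y, ψ y = x then h.choose else 1

theorem pre_spec (ψ : G' →* G) {x : G} (h : x ∈ ψ.range) : ψ (pre ψ x) = x := by
  classical
  have h' : ∃ y, ψ y = x := h
  rw [pre, dif_pos h']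
  exact h'.choose_spec

/-- a coset is fixed iff the conjugate lies in the subgroup -/
theorem fixed_iff {G : Type} [Group G] (H : Subgroup G) (c : G ⧸ H) (g : G) :
    g • c = c ↔ c.out⁻¹ * g * c.out ∈ H := by
  have h1 : ((c.out : G) : G ⧸ H) = c := QuotientGroup.out_eq' c
  constructor
  · intro h
    rw [← h1] at h
    have h2 : ((c.out : G) : G ⧸ H) = ((g * c.out : G) : G ⧸ H) := h.symm
    rw [QuotientGroup.eq] at h2
    rw [mul_assoc]
    exact h2
  · intro h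
    rw [← h1]
    change ((g * (c.out : G) : G) : G ⧸ H) = ((c.out : G) : G ⧸ H)
    symm
    rw [QuotientGroup.eq, ← mul_assoc]
    exact h

variable [Finite G]

/-- induced functions -/
noncomputable def ind (ψ : G' →* G) : (G' → ℤ) →ₗ[ℤ] (G → ℤ) where
  toFun a := fun g => ∑ᶠ c : {c : G ⧸ ψ.range // g • c = c}, a (pre ψ (c.1.out⁻¹ * g * c.1.out))
  map_add' a b := by
    funext g
    rw [Pi.add_apply]
    exact finsum_add_distrib (Set.toFinite _) (Set.toFinite _)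
  map_smul' z a := by
    funext g
    rw [Pi.smul_apply, RingHom.id_apply, smul_eq_mul]
    simp only [Pi.smul_apply, smul_eq_mul]
    exact (mul_finsum' _ _ (Set.toFinite _)).symm

theorem ind_apply (ψ : G' →* G) (a : G' → ℤ) (g : G) : ind ψ a g =
    ∑ᶠ c : {c : G ⧸ ψ.range // g • c = c}, a (pre ψ (c.1.out⁻¹ * g * c.1.out)) := rfl

theorem ind_const (ψ : G' →* G) (m : ℤ) : ind ψ (fun _ => m) = m • fx ψ.range := by
  funext g
  rw [ind_apply, Pi.smul_apply, smul_eq_mul, fx]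
  let _ : Fintype {c : G ⧸ ψ.range // g • c = c} := Fintype.ofFinite _
  rw [finsum_eq_sum_of_fintype, Finset.sum_const, Finset.card_univ, Nat.card_eq_fintype_card,
    nsmul_eq_mul, mul_comm]

theorem ind_fx (ψ : G' →* G) (hψ : Function.Injective ψ) (H : Subgroup G') :
    ind ψ (fx H) = fx (H.map ψ) := by
  have : Finite G' := Finite.of_injective ψ hψ
  funext g
  rw [ind_apply]
  let T0 : G ⧸ ψ.range → G' ⧸ H → G ⧸ H.map ψ := fun c =>
    Quotient.map' (fun z => c.out * ψ z) (by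
      intro a b hab
      rw [QuotientGroup.leftRel_apply] at hab ⊢
      refine ⟨a⁻¹ * b, hab, ?_⟩
      rw [map_mul, map_inv]
      group)
  have hT0 : ∀ (c : G ⧸ ψ.range) (z : G'), T0 c (z : G' ⧸ H) =
      ((c.out * ψ z : G) : G ⧸ H.map ψ) := fun c z => rfl
  let T : (_ : G ⧸ ψ.range) × G' ⧸ H → G ⧸ H.map ψ := fun p => T0 p.1 p.2
  have hmk : ∀ (c : G ⧸ ψ.range) (z : G'), ((c.out * ψ z : G) : G ⧸ ψ.range) = c := by
    intro c z
    have h1 : ((c.out : G) : G ⧸ ψ.range) = c := QuotientGroup.out_eq' c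
    have h2 : ((c.out * ψ z : G) : G ⧸ ψ.range) = ((c.out : G) : G ⧸ ψ.range) := by
      symm
      rw [QuotientGroup.eq]
      refine ⟨z, ?_⟩
      group
    rw [h2, h1]
  have hrange : H.map ψ ≤ ψ.range := by
    rintro _ ⟨z, -, rfl⟩
    exact ⟨z, rfl⟩
  have hinj : Function.Injective T := by
    rintro ⟨c, d⟩ ⟨c', d'⟩ h
    obtain ⟨z, rfl⟩ := QuotientGroup.mk_surjective d
    obtain ⟨z', rfl⟩ := QuotientGroup.mk_surjective d'
    have h1 : ((c.out * ψ z : G) : G ⧸ H.map ψ) = ((c'.out * ψ z' : G) : G ⧸ H.map ψ) := h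
    rw [QuotientGroup.eq] at h1
    have h2 : c = c' := by
      rw [← hmk c z, ← hmk c' z', QuotientGroup.eq]
      exact hrange h1
    subst h2
    obtain ⟨y, hy, hy2⟩ := h1
    have h3 : ψ (z⁻¹ * z') = ψ y := by
      rw [hy2, map_mul, map_inv]
      group
    have h4 : z⁻¹ * z' = y := hψ h3
    have h5 : (z : G' ⧸ H) = z' := by
      rw [QuotientGroup.eq, h4]
      exact hy
    rw [h5]
  have hsurj : Function.Surjective T := by
    intro d
    obtain ⟨x, rfl⟩ := QuotientGroup.mk_surjective d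
    let c : G ⧸ ψ.range := (x : G ⧸ ψ.range)
    have h1 : ((c.out : G) : G ⧸ ψ.range) = (x : G ⧸ ψ.range) := QuotientGroup.out_eq' c
    rw [QuotientGroup.eq] at h1
    obtain ⟨z, hz⟩ := h1
    refine ⟨⟨c, (z : G' ⧸ H)⟩, ?_⟩
    change ((c.out * ψ z : G) : G ⧸ H.map ψ) = (x : G ⧸ H.map ψ)
    rw [hz]
    congr 1
    group
  have hfix : ∀ p : (_ : G ⧸ ψ.range) × G' ⧸ H, g • T p = T p ↔
      g • p.1 = p.1 ∧ pre ψ (p.1.out⁻¹ * g * p.1.out) • p.2 = p.2 := by
    rintro ⟨c, d⟩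
    obtain ⟨z, rfl⟩ := QuotientGroup.mk_surjective d
    have e1 : g • T ⟨c, (z : G' ⧸ H)⟩ = ((g * (c.out * ψ z) : G) : G ⧸ H.map ψ) := rfl
    have e2 : T ⟨c, (z : G' ⧸ H)⟩ = ((c.out * ψ z : G) : G ⧸ H.map ψ) := rfl
    rw [e1, e2]
    constructor
    · intro h
      rw [eq_comm, QuotientGroup.eq] at h
      have h1 : g • c = c := by
        rw [fixed_iff]
        have h2 := hrange h
        have h3 : ψ z * ((c.out * ψ z)⁻¹ * (g * (c.out * ψ z))) * (ψ z)⁻¹ ∈ ψ.range :=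
          ψ.range.mul_mem (ψ.range.mul_mem ⟨z, rfl⟩ h2) (ψ.range.inv_mem ⟨z, rfl⟩)
        have h4 : ψ z * ((c.out * ψ z)⁻¹ * (g * (c.out * ψ z))) * (ψ z)⁻¹ =
            c.out⁻¹ * g * c.out := by group
        rw [← h4]
        exact h3
      refine ⟨h1, ?_⟩
      change ((pre ψ (c.out⁻¹ * g * c.out) * z : G') : G' ⧸ H) = (z : G' ⧸ H)
      have h5 := pre_spec ψ ((fixed_iff _ _ _).1 h1)
      rw [eq_comm, QuotientGroup.eq]
      obtain ⟨y, hy, hy2⟩ := h
      have h6 : ψ (z⁻¹ * (pre ψ (c.out⁻¹ * g * c.out) * z)) = ψ y := by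
        rw [hy2, map_mul, map_mul, map_inv, h5]
        group
      rw [hψ h6]
      exact hy
    · rintro ⟨h1, h2⟩
      have h5 := pre_spec ψ ((fixed_iff _ _ _).1 h1)
      have h3 : ((pre ψ (c.out⁻¹ * g * c.out) * z : G') : G' ⧸ H) = (z : G' ⧸ H) := h2
      rw [eq_comm, QuotientGroup.eq] at h3
      rw [eq_comm, QuotientGroup.eq]
      refine ⟨_, h3, ?_⟩
      rw [map_mul, map_mul, map_inv, h5]
      group
  have hQ : Finite (G' ⧸ H) := inferInstance
  rw [fx]
  have hbij : Function.Bijective T := ⟨hinj, hsurj⟩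
  have e3 : {d : G ⧸ H.map ψ // g • d = d} ≃
      (c : {c : G ⧸ ψ.range // g • c = c}) ×
        {d : G' ⧸ H // pre ψ (c.1.out⁻¹ * g * c.1.out) • d = d} :=
    (Equiv.subtypeEquiv (Equiv.ofBijective T hbij)
      (p := fun p => g • p.1 = p.1 ∧ pre ψ (p.1.out⁻¹ * g * p.1.out) • p.2 = p.2)
      (fun p => (hfix p).symm)).symm.trans
    { toFun := fun p => ⟨⟨p.1.1, p.2.1⟩, ⟨p.1.2, p.2.2⟩⟩
      invFun := fun p => ⟨⟨p.1.1, p.2.1⟩, ⟨p.1.2, p.2.2⟩⟩
      left_inv := fun _ => rfl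
      right_inv := fun _ => rfl }
  let _ : Fintype {c : G ⧸ ψ.range // g • c = c} := Fintype.ofFinite _
  rw [Nat.card_congr e3, Nat.card_sigma, finsum_eq_sum_of_fintype]
  push_cast
  rfl

/-- induction of a relation -/
theorem span_map (ψ : G' →* G) (hψ : Function.Injective ψ) (𝓗 : Set (Subgroup G')) (m : ℤ)
    (h : (fun _ : G' => m) ∈ Submodule.span ℤ (fx '' 𝓗)) :
    m • fx ψ.range ∈ Submodule.span ℤ (fx '' ((Subgroup.map ψ) '' 𝓗)) := by
  have h1 : ind ψ (fun _ : G' => m) ∈ (Submodule.span ℤ (fx '' 𝓗)).map (ind ψ) :=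
    Submodule.mem_map_of_mem h
  rw [Submodule.map_span, ind_const] at h1
  refine Submodule.span_mono ?_ h1
  rintro _ ⟨_, ⟨H, hH, rfl⟩, rfl⟩
  exact ⟨_, ⟨H, hH, rfl⟩, (ind_fx ψ hψ H).symm⟩

end

end Pool.Agent.H46.OP
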