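import Pool.Agent.H46.OP.CoreB

/-! The kinds of bad places: not split, and not a `p`-group. -/

set_option autoImplicit false
set_option linter.unusedSectionVars false

namespace Pool.Agent.H46.OP

open NumberField IsDedekindDomain Polynomial
open scoped Pointwise
open Pool.Agent.R433.MD (fx fixed_mem unit_mem perm_unit)
open Pool.Agent.H46.SP (res res_apply res_smul under_smul under_under exists_above exists_under
  smul_ne_bot exists_L exists_int hyper_count2)

/-- the elements of order a power of `p` modulo `N` -/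
def Kp {G : Type} [Group G] (N : Subgroup G) (p : ℕ) : Set G := {x | ∃ k : ℕ, x ^ p ^ k ∈ N}

section
variable {G : Type} [Group G]

theorem Kp.conj {N : Subgroup G} [N.Normal] {p : ℕ} {x : G} (hx : x ∈ Kp N p) (y : G) :
    y * x * y⁻¹ ∈ Kp N p := by
  obtain ⟨k, hk⟩ := hx
  refine ⟨k, ?_⟩
  rw [conj_pow]
  exact Subgroup.Normal.conj_mem inferInstance _ hk _

theorem Kp.zpow {N : Subgroup G} {p : ℕ} {x : G} (hx : x ∈ Kp N p) (i : ℤ) :
    x ^ i ∈ Kp N p := by
  obtain ⟨k, hk⟩ := hx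
  refine ⟨k, ?_⟩
  have h : (x ^ i) ^ p ^ k = (x ^ p ^ k) ^ i := by
    rw [← zpow_natCast, ← zpow_mul, mul_comm, zpow_mul, zpow_natCast]
  rw [h]
  exact N.zpow_mem hk i

theorem Kp.one (N : Subgroup G) (p : ℕ) : (1 : G) ∈ Kp N p := ⟨0, by rw [one_pow]; exact N.one_mem⟩

theorem Kp.root {N : Subgroup G} {p : ℕ} {x : G} {k : ℕ} (h : x ^ p ^ k ∈ Kp N p) : x ∈ Kp N p := by
  obtain ⟨j, hj⟩ := h
  refine ⟨k + j, ?_⟩
  rw [pow_add, pow_mul]
  exact hj

theorem root_of_coprime {N : Subgroup G} [N.Normal] [Finite G] {p : ℕ} (hp : p.Prime)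
    (hN : ¬ p ∣ N.index) {x : G} {k : ℕ} (h : x ^ p ^ k ∈ N) : x ∈ N := by
  have h1 : ((x : G ⧸ N)) ^ p ^ k = 1 := by
    rw [← QuotientGroup.mk_pow]
    exact (QuotientGroup.eq_one_iff _).2 h
  have h2 : ((x : G ⧸ N)) ^ N.index = 1 := by
    rw [Subgroup.index_eq_card]
    exact pow_card_eq_one'
  have h3 : Nat.Coprime (p ^ k) N.index := Nat.Coprime.pow_left k ((Nat.Prime.coprime_iff_not_dvd hp).2 hN)
  have h4 : orderOf (x : G ⧸ N) ∣ 1 := by
    rw [← h3]
    exact Nat.dvd_gcd (orderOf_dvd_of_pow_eq_one h1) (orderOf_dvd_of_pow_eq_one h2)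
  have h5 : (x : G ⧸ N) = 1 := orderOf_eq_one_iff.1 (Nat.dvd_one.1 h4)
  exact (QuotientGroup.eq_one_iff _).1 h5

end

/-- the index of a hyperelementary subgroup -/
theorem index_dvd {D : Type} [Group D] [Finite D] {p : ℕ} (hp : p.Prime) (H : Subgroup D) (d : D)
    (hH : ∀ h ∈ H, ∃ k : ℕ, h ^ p ^ k ∈ Subgroup.zpowers d) {a : ℕ} (ha0 : a ≠ 0)
    (ha : a * orderOf d ∣ Nat.card D) : ordCompl[p] a ∣ H.index := by
  have hD0 : Nat.card D ≠ 0 := Nat.card_pos.ne'
  have hH0 : Nat.card H ≠ 0 := Nat.card_pos.ne'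
  have hi0 : H.index ≠ 0 := Subgroup.index_ne_zero_of_finite
  have hd0 : orderOf d ≠ 0 := (orderOf_pos d).ne'
  -- Sylow subgroups
  have hsyl : ∀ l : ℕ, l.Prime → l ≠ p →
      (Nat.card H).factorization l ≤ (orderOf d).factorization l := by
    intro l hl hlp
    have : Fact l.Prime := ⟨hl⟩
    obtain ⟨Q⟩ : Nonempty (Sylow l H) := inferInstance
    have hcard := Q.card_eq_multiplicity
    have hmem : ∀ x : Q, ((x : H) : D) ∈ Subgroup.zpowers d := by
      intro x
      obtain ⟨k, hk⟩ := hH _ (x : H).2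
      obtain ⟨b, hb⟩ := (IsPGroup.iff_orderOf.1 Q.2) x
      have hob : orderOf ((x : H) : D) = l ^ b := by
        rw [Subgroup.orderOf_coe, Subgroup.orderOf_coe, hb]
      have hcop : Nat.Coprime (orderOf ((x : H) : D)) (p ^ k) := by
        rw [hob]
        exact Nat.Coprime.pow _ _ ((Nat.coprime_primes hl hp).2 hlp)
      obtain ⟨j, hj⟩ := exists_pow_eq_self_of_coprime hcop.symm
      rw [← hj]
      exact Subgroup.pow_mem _ hk j
    have h1 : Nat.card Q ∣ orderOf d := by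
      rw [← Nat.card_zpowers]
      let φ : Q →* Subgroup.zpowers d :=
        { toFun := fun x => ⟨((x : H) : D), hmem x⟩
          map_one' := rfl
          map_mul' := fun _ _ => rfl }
      exact Subgroup.card_dvd_of_injective φ fun x y h =>
        Subtype.ext (Subtype.ext (congrArg (fun z : Subgroup.zpowers d => (z : D)) h))
    rw [hcard] at h1
    exact (hl.pow_dvd_iff_le_factorization hd0).1 h1
  rw [← Nat.factorization_prime_le_iff_dvd (Nat.ordCompl_pos p ha0).ne' hi0]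
  intro l hl
  by_cases hlp : l = p
  · subst hlp
    rw [Nat.factorization_ordCompl, Finsupp.erase_same]
    exact Nat.zero_le _
  · rw [Nat.factorization_ordCompl, Finsupp.erase_ne hlp]
    have h2 := (Nat.factorization_le_iff_dvd (mul_ne_zero ha0 hd0) hD0).2 ha l
    rw [Nat.factorization_mul ha0 hd0, ← H.index_mul_card, Nat.factorization_mul hi0 hH0] at h2
    have h3 := hsyl l hl hlp
    simp only [Finsupp.add_apply] at h2
    omega

section
variable {K M : Type} [Field K] [NumberField K] [Field M] [NumberField M] [Algebra K M]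
  [IsGalois K M]

theorem hasModel_N (N : Subgroup Gal(M/K)) [N.Normal] (w : HeightOneSpectrum (𝓞 M)) (n : ℕ)
    (hn : N.index ∣ n) : HasModel (N : Set Gal(M/K)) w n := by
  obtain ⟨Y, h1, h2, μ, h3, -, -, h4⟩ := exists_other_model N w n hn
  exact ⟨Y, h1, h2, h3, h4⟩

theorem hasModel_Kp (N : Subgroup Gal(M/K)) [N.Normal] {p : ℕ} (hp : p.Prime)
    (w : HeightOneSpectrum (𝓞 M)) (n : ℕ) (hn : ordCompl[p] N.index ∣ n) :
    HasModel (Kp N p) w n := by
  classical
  have hpf : Fact p.Prime := ⟨hp⟩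
  have hN0 : N.index ≠ 0 := Subgroup.index_ne_zero_of_finite
  let D := Dec K w
  let N' := N.subgroupOf D
  obtain ⟨Q⟩ : Nonempty (Sylow p (D ⧸ N')) := inferInstance
  let U : Subgroup D := (Q : Subgroup (D ⧸ N')).comap (QuotientGroup.mk' N')
  have hU1 : U.index = (Q : Subgroup (D ⧸ N')).index :=
    Subgroup.index_comap_of_surjective _ (QuotientGroup.mk'_surjective N')
  have hU2 : U.index ∣ N.index := by
    rw [hU1]
    refine (Subgroup.index_dvd_card _).trans ?_
    rw [← Subgroup.index_eq_card]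
    exact Subgroup.relIndex_dvd_index_of_normal N D
  have hU3 : ¬ p ∣ U.index := by
    rw [hU1]
    exact Q.not_dvd_index
  have hU4 : U.index ∣ ordCompl[p] N.index := by
    have h1 := Nat.ordProj_mul_ordCompl_eq_self N.index p
    rw [← h1] at hU2
    refine Nat.Coprime.dvd_of_dvd_mul_left ?_ hU2
    exact Nat.Coprime.pow_right _ ((Nat.Prime.coprime_iff_not_dvd hp).2 hU3).symm
  obtain ⟨t, ht⟩ := hU4.trans hn
  let Y := (_ : Fin t) × (D ⧸ U)
  let _ : Fintype Y := Fintype.ofFinite _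
  refine ⟨Y, inferInstance, inferInstance, ?_, ?_⟩
  · rw [Fintype.card_eq_nat_card, Nat.card_sigma]
    simp only [Finset.sum_const, Finset.card_univ, Fintype.card_fin, smul_eq_mul]
    rw [ht, mul_comm]
    rfl
  · rintro d ⟨i, c⟩ h
    obtain ⟨x, rfl⟩ := QuotientGroup.mk_surjective c
    have h3 : ((d * x : D) : D ⧸ U) = x := eq_of_heq (Sigma.mk.inj h).2
    rw [QuotientGroup.eq] at h3
    have h4 : ((d * x)⁻¹ * x : D) ∈ U := h3
    obtain ⟨k, hk⟩ := Q.2 ⟨(((d * x)⁻¹ * x : D) : D ⧸ N'), h4⟩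
    have hk2 : ((((d * x)⁻¹ * x : D) ^ p ^ k : D) : D ⧸ N') = 1 := by
      have h5 := congrArg Subtype.val hk
      exact h5
    rw [QuotientGroup.eq_one_iff, Subgroup.mem_subgroupOf] at hk2
    have h6 : ((x : Gal(M/K))⁻¹ * (d : Gal(M/K))⁻¹ * x) ∈ Kp N p := by
      refine ⟨k, ?_⟩
      have e : ((((d * x)⁻¹ * x : D) ^ p ^ k : D) : Gal(M/K)) =
        ((x : Gal(M/K))⁻¹ * (d : Gal(M/K))⁻¹ * x) ^ p ^ k := by
        push_cast
        rw [mul_inv_rev]
      rwa [e] at hk2
    have h7 := Kp.conj h6 (x : Gal(M/K))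
    have e2 : (x : Gal(M/K)) * ((x : Gal(M/K))⁻¹ * (d : Gal(M/K))⁻¹ * x) * (x : Gal(M/K))⁻¹ =
      (d : Gal(M/K))⁻¹ := by group
    rw [e2] at h7
    have h8 := Kp.zpow h7 (-1)
    rw [zpow_neg_one, inv_inv] at h8
    exact h8

end

end Pool.Agent.H46.OP
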