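import Pool.Agent.H46.OP.FKS

/-! Polynomials with prescribed decomposition groups. -/

set_option autoImplicit false
set_option linter.unusedSectionVars false

namespace Pool.Agent.H46.OP

open NumberField IsDedekindDomain Polynomial
open scoped Pointwise
open Pool.Agent.H46.SP (res res_apply res_smul under_smul under_under exists_above exists_under
  smul_ne_bot exists_L exists_int)

section
variable {K M : Type} [Field K] [NumberField K] [Field M] [NumberField M] [Algebra K M]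
  [IsGalois K M]

/-- simultaneous approximation -/
theorem approx_all (S : Finset (HeightOneSpectrum (𝓞 K)))
    (P : HeightOneSpectrum (𝓞 K) → HeightOneSpectrum (𝓞 M))
    (hP : ∀ v, (P v).asIdeal.under (𝓞 K) = v.asIdeal)
    (c : HeightOneSpectrum (𝓞 K) → 𝓞 M)
    (hc : ∀ v ∈ S, ∀ σ : Gal(M/K), σ • (P v).asIdeal = (P v).asIdeal → σ • c v = c v) (k : ℕ) :
    ∃ a : 𝓞 K, ∀ v ∈ S, algebraMap (𝓞 K) (𝓞 M) a - c v ∈ (P v).asIdeal ^ k := by
  classical
  have h1 : ∀ v, ∃ a : 𝓞 K, v ∈ S → algebraMap (𝓞 K) (𝓞 M) a - c v ∈ (P v).asIdeal ^ k := by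
    intro v
    by_cases hv : v ∈ S
    · obtain ⟨a, ha⟩ := approx (P v).asIdeal (P v).isPrime (P v).ne_bot (c v) (hc v hv) k
      exact ⟨a, fun _ => ha⟩
    · exact ⟨0, fun h => absurd h hv⟩
  choose a ha using h1
  obtain ⟨y, hy⟩ := IsDedekindDomain.exists_forall_sub_mem_ideal (s := S)
    (fun q : HeightOneSpectrum (𝓞 K) => q.asIdeal) (fun _ => k)
    (fun q _ => (Ideal.prime_iff_isPrime q.ne_bot).2 q.isPrime)
    (fun i _ j _ h h2 => h (HeightOneSpectrum.ext h2)) (fun q => a q.1)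
  refine ⟨y, fun v hv => ?_⟩
  have h2 : algebraMap (𝓞 K) (𝓞 M) (y - a v) ∈ (P v).asIdeal ^ k := by
    have h3 : (v.asIdeal ^ k).map (algebraMap (𝓞 K) (𝓞 M)) ≤ (P v).asIdeal ^ k := by
      rw [Ideal.map_pow]
      refine Ideal.pow_right_mono ?_ k
      rw [Ideal.map_le_iff_le_comap, ← hP v]
    exact h3 (Ideal.mem_map_of_mem _ (hy v hv))
  have h4 : algebraMap (𝓞 K) (𝓞 M) y - c v = algebraMap (𝓞 K) (𝓞 M) (y - a v) +
      (algebraMap (𝓞 K) (𝓞 M) (a v) - c v) := by
    rw [map_sub]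
    ring
  rw [h4]
  exact Ideal.add_mem _ h2 (ha v hv)

/-- **A polynomial over `K` close to given polynomials over the decomposition fields.** -/
theorem exists_krasner (S : Finset (HeightOneSpectrum (𝓞 K)))
    (P : HeightOneSpectrum (𝓞 K) → HeightOneSpectrum (𝓞 M))
    (hP : ∀ v, (P v).asIdeal.under (𝓞 K) = v.asIdeal) (n : ℕ)
    (F : HeightOneSpectrum (𝓞 K) → (𝓞 M)[X]) (hF : ∀ v ∈ S, (F v).Monic ∧ (F v).natDegree = n)
    (hFσ : ∀ v ∈ S, ∀ σ : Gal(M/K), σ • (P v).asIdeal = (P v).asIdeal → (F v).map (sm σ) = F v)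
    (k : ℕ) :
    ∃ f : (𝓞 K)[X], f.Monic ∧ f.natDegree = n ∧
      ∀ v ∈ S, ∀ j, (f.map (algebraMap (𝓞 K) (𝓞 M)) - F v).coeff j ∈ (P v).asIdeal ^ k := by
  classical
  have h1 : ∀ j : ℕ, ∃ a : 𝓞 K, ∀ v ∈ S,
      algebraMap (𝓞 K) (𝓞 M) a - (F v).coeff j ∈ (P v).asIdeal ^ k := by
    intro j
    refine approx_all S P hP (fun v => (F v).coeff j) (fun v hv σ hσ => ?_) k
    have h2 := congrArg (fun p => p.coeff j) (hFσ v hv σ hσ)
    simp only [coeff_map] at h2
    exact h2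
  choose a ha using h1
  let g : (𝓞 K)[X] := ∑ j ∈ Finset.range n, C (a j) * X ^ j
  have hcoeff : ∀ j, g.coeff j = if j < n then a j else 0 := by
    intro j
    simp only [g, finsetSum_coeff, coeff_C_mul, coeff_X_pow, mul_ite, mul_one, mul_zero]
    rw [Finset.sum_ite_eq]
    simp
  have hg : g.degree < n := by
    rw [degree_lt_iff_coeff_zero]
    intro j hj
    rw [hcoeff, if_neg (by omega)]
  have hmon : (X ^ n + g).Monic := monic_X_pow_add hg
  have hdeg : (X ^ n + g).natDegree = n := by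
    rw [natDegree_add_eq_left_of_degree_lt (by rw [degree_X_pow]; exact hg), natDegree_X_pow]
  refine ⟨X ^ n + g, hmon, hdeg, fun v hv j => ?_⟩
  obtain ⟨hFm, hFd⟩ := hF v hv
  rw [coeff_sub, coeff_map, coeff_add, coeff_X_pow, hcoeff]
  rcases lt_trichotomy j n with hj | hj | hj
  · rw [if_neg hj.ne, if_pos hj, zero_add]
    exact ha j v hv
  · subst hj
    have h3 : (F v).coeff (F v).natDegree = 1 := hFm
    rw [if_pos rfl, if_neg (lt_irrefl _), add_zero, map_one, ← hFd, h3, sub_self]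
    exact Ideal.zero_mem _
  · rw [if_neg hj.ne', if_neg (by omega), add_zero, map_zero, coeff_eq_zero_of_natDegree_lt
      (by rw [hFd]; exact hj), sub_zero]
    exact Ideal.zero_mem _

/-- integral elements with given stabilizer -/
theorem exists_stab (C : Subgroup Gal(M/K)) : ∃ γ : 𝓞 M, ∀ σ : Gal(M/K), σ • γ = γ ↔ σ ∈ C := by
  obtain ⟨α, hα⟩ := Field.exists_primitive_element K (IntermediateField.fixedField C)
  have halg : IsAlgebraic ℤ (α : M) := by
    have h1 : IsAlgebraic ℚ (α : M) := Algebra.IsAlgebraic.isAlgebraic (α : M)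
    exact (IsFractionRing.isAlgebraic_iff ℤ ℚ M).2 h1
  obtain ⟨d, hd0, hd⟩ := halg.exists_integral_multiple
  have hd0' : (d : M) ≠ 0 := by exact_mod_cast hd0
  refine ⟨⟨d • (α : M), hd⟩, fun σ => ⟨fun hσ => ?_, fun hσ => ?_⟩⟩
  · have h1 : σ (d • (α : M)) = d • (α : M) := congrArg (fun x : 𝓞 M => (x : M)) hσ
    rw [map_zsmul] at h1
    have h2 : σ (α : M) = α := by
      rw [zsmul_eq_mul, zsmul_eq_mul] at h1
      exact mul_left_cancel₀ hd0' h1
    rw [← IntermediateField.fixingSubgroup_fixedField C, IntermediateField.mem_fixingSubgroup_iff]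
    intro x hx
    have h3 : (⟨x, hx⟩ : IntermediateField.fixedField C) ∈ IntermediateField.adjoin K {α} := by
      rw [hα]
      exact IntermediateField.mem_top
    have h4 : IntermediateField.adjoin K {α} ≤
        (IntermediateField.fixedField (Subgroup.zpowers σ)).comap
          (IntermediateField.fixedField C).val := by
      rw [IntermediateField.adjoin_simple_le_iff]
      change (α : M) ∈ IntermediateField.fixedField (Subgroup.zpowers σ)
      rw [IntermediateField.mem_fixedField_iff]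
      rintro _ ⟨i, rfl⟩
      have h7 : σ ∈ MulAction.stabilizer Gal(M/K) (α : M) := h2
      exact Subgroup.zpow_mem _ h7 i
    have h5 : x ∈ IntermediateField.fixedField (Subgroup.zpowers σ) := h4 h3
    rw [IntermediateField.mem_fixedField_iff] at h5
    exact h5 σ (Subgroup.mem_zpowers σ)
  · apply RingOfIntegers.coe_injective (K := M)
    change σ (d • (α : M)) = d • (α : M)
    rw [map_zsmul]
    congr 1
    exact (IntermediateField.mem_fixedField_iff _ _).1 α.2 σ hσ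

/-- **Finite sets with an action of a subgroup embed equivariantly into the integers.** -/
theorem exists_embed (D : Subgroup Gal(M/K)) (Y : Type) [Finite Y] [MulAction D Y] :
    ∃ μ : Y → 𝓞 M, Function.Injective μ ∧ ∀ (d : D) (y : Y), (d : Gal(M/K)) • μ y = μ (d • y) := by
  classical
  let Q := MulAction.orbitRel.Quotient D Y
  have hfQ : Finite Q := Quotient.finite _
  let _ : Fintype Q := Fintype.ofFinite Q
  let _ : Fintype Y := Fintype.ofFinite Y
  have hrep : ∀ y : Y, ∃ d : D, d • (Quotient.out (⟦y⟧ : Q)) = y := by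
    intro y
    have h1 : MulAction.orbitRel D Y y (Quotient.out (⟦y⟧ : Q)) :=
      Quotient.exact (Quotient.out_eq (⟦y⟧ : Q)).symm
    obtain ⟨x, hx⟩ := h1
    exact ⟨x, hx⟩
  choose d hd using hrep
  choose γ hγ using fun ω : Q => exists_stab (K := K) (M := M)
    ((MulAction.stabilizer D (Quotient.out ω)).map D.subtype)
  -- a large integer
  let Z : Finset (𝓞 M) := Finset.univ.image fun p : Y × Y =>
    (d p.1 : Gal(M/K)) • γ ⟦p.1⟧ - (d p.2 : Gal(M/K)) • γ ⟦p.2⟧
  obtain ⟨N, hN⟩ : ∃ N : ℕ, ∀ z ∈ Z, ∀ a : ℤ, (a : 𝓞 M) = z → |a| < N := by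
    have h1 : ∀ z : 𝓞 M, ∃ N : ℕ, ∀ a : ℤ, (a : 𝓞 M) = z → |a| < N := by
      intro z
      by_cases hz : ∃ a : ℤ, (a : 𝓞 M) = z
      · obtain ⟨a, rfl⟩ := hz
        refine ⟨a.natAbs + 1, fun b hb => ?_⟩
        have h2 : b = a := by exact_mod_cast hb
        rw [h2]
        push_cast
        rw [Int.abs_eq_natAbs] 
        omega
      · exact ⟨0, fun a ha => absurd ⟨a, ha⟩ hz⟩
    choose N hN using h1
    refine ⟨Z.sup N, fun z hz a ha => ?_⟩
    have h2 := hN z a ha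
    have h3 : N z ≤ Z.sup N := Finset.le_sup hz
    exact lt_of_lt_of_le h2 (by exact_mod_cast h3)
  let e : Q → ℕ := fun ω => (Fintype.equivFin Q ω : ℕ)
  have he : Function.Injective e := fun ω ω' h => (Fintype.equivFin Q).injective (Fin.ext h)
  refine ⟨fun y => (d y : Gal(M/K)) • γ ⟦y⟧ + ((N * e ⟦y⟧ : ℕ) : 𝓞 M), ?_, ?_⟩
  · intro y y' hyy
    simp only at hyy
    have h1 : (((N * e ⟦y'⟧ : ℕ) : ℤ) - ((N * e ⟦y⟧ : ℕ) : ℤ) : ℤ) =
        ((d y : Gal(M/K)) • γ ⟦y⟧ - (d y' : Gal(M/K)) • γ ⟦y'⟧ : 𝓞 M) := by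
      push_cast
      push_cast at hyy
      linear_combination -hyy
    have h2 := hN _ (Finset.mem_image_of_mem _ (Finset.mem_univ (y, y'))) _ h1
    have h3 : (⟦y⟧ : Q) = ⟦y'⟧ := by
      apply he
      by_contra hne
      have h4 : (1 : ℤ) ≤ |((e ⟦y'⟧ : ℕ) : ℤ) - (e ⟦y⟧ : ℕ)| := by
        apply Int.one_le_abs
        intro h5
        apply hne
        have h6 : ((e ⟦y'⟧ : ℕ) : ℤ) = (e ⟦y⟧ : ℕ) := by linarith
        exact_mod_cast h6.symm
      have h5 : |(((N * e ⟦y'⟧ : ℕ) : ℤ) - ((N * e ⟦y⟧ : ℕ) : ℤ) : ℤ)| =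
          N * |((e ⟦y'⟧ : ℕ) : ℤ) - (e ⟦y⟧ : ℕ)| := by
        push_cast
        rw [← mul_sub, abs_mul, Nat.abs_cast]
      rw [h5] at h2
      nlinarith
    rw [h3] at hyy
    have h4 := add_right_cancel hyy
    have h5 : ((d y' : Gal(M/K))⁻¹ * d y) • γ ⟦y'⟧ = γ ⟦y'⟧ := by
      rw [mul_smul, inv_smul_eq_iff]
      exact h4
    rw [hγ] at h5
    obtain ⟨s, hs, hs2⟩ := h5
    have h6 : s = (d y')⁻¹ * d y := Subtype.ext hs2
    have h7 : ((d y')⁻¹ * d y) • (Quotient.out (⟦y'⟧ : Q)) = Quotient.out (⟦y'⟧ : Q) := by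
      rw [← h6]
      exact hs
    rw [mul_smul, inv_smul_eq_iff, hd y'] at h7
    rw [← h7, ← h3, hd y]
  · intro g y
    have h1 : (⟦g • y⟧ : Q) = ⟦y⟧ := Quotient.sound ⟨g, rfl⟩
    simp only
    rw [smul_add, ← sm_apply g.1 ((N * e ⟦y⟧ : ℕ) : 𝓞 M), map_natCast, h1]
    congr 1
    rw [← mul_smul]
    have h2 : ((d (g • y) : Gal(M/K))⁻¹ * (g * d y)) • γ ⟦y⟧ = γ ⟦y⟧ := by
      rw [hγ]
      refine ⟨(d (g • y))⁻¹ * (g * d y), ?_, rfl⟩
      change ((d (g • y))⁻¹ * (g * d y)) • (Quotient.out (⟦y⟧ : Q)) = _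
      rw [mul_smul, mul_smul, hd y, inv_smul_eq_iff]
      conv_lhs => rw [← hd (g • y), h1]
    rw [mul_smul, inv_smul_eq_iff] at h2
    exact h2

end

end Pool.Agent.H46.OP
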