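import Pool.Agent.H46.OP.Tower
import Pool.Agent.H58.OP.Ell
import Pool.Agent.H67.OP.Norm
import Pool.Agent.H37.OP.Semistable23

/-! Elliptic curves over fields with at most one exceptional prime. -/

set_option autoImplicit false
set_option linter.unusedSectionVars false

namespace Pool.Agent.H46.OP

open NumberField IsDedekindDomain Polynomial
open scoped Pointwise
open Pool.Agent.R433.MD (fx IsHyper)
open Pool.Agent.H46.SP (res res_apply res_smul under_smul under_under exists_above exists_under
  smul_ne_bot exists_L exists_int finite_small)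
open Pool.Agent.H58.OP (goodOrSplit_map finite_bad goodAt_of_not_bad)

theorem under_tower {A B C : Type} [Field A] [NumberField A] [Field B] [NumberField B] [Field C]
    [NumberField C] [Algebra A B] [Algebra A C] [Algebra B C] [IsScalarTower A B C]
    (w : Ideal (𝓞 C)) : (w.under (𝓞 B)).under (𝓞 A) = w.under (𝓞 A) := by
  ext x
  change algebraMap (𝓞 B) (𝓞 C) (algebraMap (𝓞 A) (𝓞 B) x) ∈ w ↔ algebraMap (𝓞 A) (𝓞 C) x ∈ w
  have h : algebraMap (𝓞 B) (𝓞 C) (algebraMap (𝓞 A) (𝓞 B) x) = algebraMap (𝓞 A) (𝓞 C) x := by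
    apply RingOfIntegers.coe_injective (K := C)
    exact (IsScalarTower.algebraMap_apply A B C (x : A)).symm
  rw [h]

/-- a Galois extension containing a given one -/
theorem exists_compositum (K A B : Type) [Field K] [NumberField K] [Field A] [NumberField A]
    [Field B] [NumberField B] [Algebra K A] [IsGalois K A] [Algebra K B] :
    ∃ (L : Type) (_ : Field L) (_ : NumberField L) (_ : Algebra K L) (_ : Algebra A L)
      (_ : IsScalarTower K A L) (_ : IsGalois K L), Nonempty (B →ₐ[K] L) := by
  let B' : PowerBasis K B := Field.powerBasisOfFiniteOfSeparable K B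
  have hint : IsIntegral K B'.gen := Algebra.IsIntegral.isIntegral _
  have hne : minpoly K B'.gen ≠ 0 := minpoly.ne_zero hint
  obtain ⟨L, _, _, _, _, t, hG, hs, -⟩ := exists_L K A ((minpoly K B'.gen).map (algebraMap K A))
    (Polynomial.map_ne_zero hne)
  rw [Polynomial.map_map, ← IsScalarTower.algebraMap_eq] at hs
  obtain ⟨a, ha⟩ := hs.exists_eval_eq_zero (by
    rw [Polynomial.degree_map]
    exact (minpoly.degree_pos hint).ne')
  rw [eval_map_algebraMap] at ha
  exact ⟨L, inferInstance, inferInstance, inferInstance, inferInstance, t, hG, ⟨B'.lift a ha⟩⟩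

section
variable {K M L : Type} [Field K] [NumberField K] [Field M] [NumberField M] [Field L]
  [NumberField L] [Algebra K M] [Algebra M L] [Algebra K L] [IsScalarTower K M L]
  [IsGalois K M] [IsGalois K L]

omit [IsGalois K L] in
theorem res_apply' (σ : Gal(L/K)) (x : M) :
    algebraMap M L (res K M σ x) = σ (algebraMap M L x) :=
  AlgEquiv.restrictNormal_commutes σ M x

/-- the compositum with `M` -/
theorem exists_FM (H : Subgroup Gal(L/K)) :
    ∃ (F' : Type) (_ : Field F') (_ : NumberField F')
      (_ : Algebra (IntermediateField.fixedField H) F') (_ : Algebra K F')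
      (_ : IsScalarTower K (IntermediateField.fixedField H) F')
      (_ : Algebra M F') (_ : IsScalarTower K M F') (_ : Algebra F' L)
      (_ : IsScalarTower (IntermediateField.fixedField H) F' L) (_ : IsScalarTower M F' L)
      (_ : IsGalois (IntermediateField.fixedField H) F')
      (ι : Gal(F'/IntermediateField.fixedField H) →* Gal(M/K)), Function.Injective ι ∧
        (∀ σ, ι σ ∈ H.map (res K M)) ∧
        ∀ (W : HeightOneSpectrum (𝓞 L)) (σ : Gal(F'/IntermediateField.fixedField H)),
          σ • (W.asIdeal.under (𝓞 F')) = W.asIdeal.under (𝓞 F') →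
            ∃ h ∈ H, h • W.asIdeal = W.asIdeal ∧ res K M h = ι σ := by
  set F := IntermediateField.fixedField H with hF
  let φ : Gal(L/F) →* Gal(M/K) := (res K M).comp (rs K F L)
  let N : Subgroup Gal(L/F) := φ.ker
  have hNn : N.Normal := MonoidHom.normal_ker _
  let F' : IntermediateField F L := IntermediateField.fixedField N
  have hfix : N = F'.fixingSubgroup := (IntermediateField.fixingSubgroup_fixedField N).symm
  have hnf : NumberField F' := NumberField.of_module_finite F F'
  have hG : IsGalois F F' := IsGalois.of_fixedField_normal_subgroup N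
  have hmem : ∀ x : M, algebraMap M L x ∈ F' := by
    intro x
    rw [IntermediateField.mem_fixedField_iff]
    intro g hg
    have h1 : φ g = 1 := hg
    have h2 : algebraMap M L (res K M (rs K F L g) x) = algebraMap M L x := by
      change algebraMap M L (φ g x) = _
      rw [h1]
      rfl
    rw [res_apply, rs_apply] at h2
    exact h2
  let _ : Algebra M F' := ((algebraMap M L).codRestrict F'.toSubfield hmem).toAlgebra
  have t1 : IsScalarTower M F' L := IsScalarTower.of_algebraMap_eq fun x => rfl
  have t2 : IsScalarTower K M F' := IsScalarTower.of_algebraMap_eq fun x => by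
    apply (algebraMap F' L).injective
    rw [← IsScalarTower.algebraMap_apply M F' L, ← IsScalarTower.algebraMap_apply K M L]
    rfl
  let ι : Gal(F'/F) →* Gal(M/K) := (res K M).comp (rs K F F')
  have hι : ∀ g : Gal(L/F), ι (res F F' g) = φ g := by
    intro g
    ext x
    apply (algebraMap M L).injective
    rw [IsScalarTower.algebraMap_apply M F' L]
    change algebraMap F' L (algebraMap M F' (res K M (rs K F F' (res F F' g)) x)) =
      algebraMap M L (res K M (rs K F L g) x)
    have e1 : algebraMap M F' (res K M (rs K F F' (res F F' g)) x) =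
        res F F' g (algebraMap M F' x) := res_apply' _ x
    have e2 : algebraMap M L (res K M (rs K F L g) x) = g (algebraMap M L x) := res_apply' _ x
    have e3 : algebraMap F' L (res F F' g (algebraMap M F' x)) =
        g (algebraMap F' L (algebraMap M F' x)) := res_apply' _ _
    rw [e1, e2, e3, ← IsScalarTower.algebraMap_apply M F' L]
  have hH : ∀ g : Gal(L/F), rs K F L g ∈ H := by
    intro g
    have h1 : rs K F L g ∈ F.fixingSubgroup := by
      rw [IntermediateField.mem_fixingSubgroup_iff]
      intro y hy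
      exact g.commutes (⟨y, hy⟩ : F)
    have h2 : F.fixingSubgroup = H := IntermediateField.fixingSubgroup_fixedField H
    exact h2 ▸ h1
  refine ⟨F', inferInstance, hnf, inferInstance, inferInstance, inferInstance, inferInstance, t2,
    inferInstance, inferInstance, t1, hG, ι, ?_, ?_, ?_⟩
  · rw [injective_iff_map_eq_one]
    intro σ hσ
    obtain ⟨g, rfl⟩ := AlgEquiv.restrictNormalHom_surjective (F := F) (K₁ := F') L σ
    have h1 : φ g = 1 := (hι g).symm.trans hσ
    have h2 : g ∈ F'.fixingSubgroup := hfix ▸ h1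
    ext x
    have h3 : g (x : L) = x := (IntermediateField.mem_fixingSubgroup_iff _ _).1 h2 x x.2
    have h4 : algebraMap F' L (res F F' g x) = g (algebraMap F' L x) := res_apply g x
    exact h4.trans h3
  · intro σ
    obtain ⟨g, rfl⟩ := AlgEquiv.restrictNormalHom_surjective (F := F) (K₁ := F') L σ
    exact ⟨rs K F L g, hH g, (hι g).symm⟩
  · intro W σ hσ
    obtain ⟨δ, hδ, hδW⟩ := lift_dec (K := F) (M := F') W σ hσ
    refine ⟨rs K F L δ, hH δ, ?_, ?_⟩
    · rw [rs_smul_ideal]
      exact hδW
    · rw [← hδ, hι]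
      rfl

end

section
variable {F : Type} [Field F] [NumberField F]

/-- `E` acquires good or split multiplicative reduction over an extension of `p`-power degree of the
completion at `w` -/
def AcqP (p : ℕ) (E : WeierstrassCurve F) (w : HeightOneSpectrum (𝓞 F)) : Prop :=
  ∃ (F' : Type) (_ : Field F') (_ : NumberField F') (_ : Algebra F F')
    (W : HeightOneSpectrum (𝓞 F')),
    IsGalois F F' ∧ W.asIdeal.under (𝓞 F) = w.asIdeal ∧
      GoodOrSplit (E.map (algebraMap F F')) W ∧
      ∀ σ : Gal(F'/F), σ • W.asIdeal = W.asIdeal → ∃ k : ℕ, σ ^ p ^ k = 1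

/-- at most one exceptional prime -/
def OneN (X : ℕ) (E : WeierstrassCurve F) : Prop :=
  ∀ w w' : HeightOneSpectrum (𝓞 F), (Ideal.absNorm w.asIdeal ≤ X ∨ ¬ GoodOrSplit E w) →
    (Ideal.absNorm w'.asIdeal ≤ X ∨ ¬ GoodOrSplit E w') → w = w'

/-- the prime is exceptional for `p` -/
def ExcP (p X : ℕ) (E : WeierstrassCurve F) (w : HeightOneSpectrum (𝓞 F)) : Prop :=
  Ideal.absNorm w.asIdeal ≤ X ∨ ¬ (GoodOrSplit E w ∨ ((p = 2 ∨ p = 3) ∧ AcqP p E w))

/-- at most one exceptional prime for `p` -/
def OneP (p X : ℕ) (E : WeierstrassCurve F) : Prop :=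
  ∀ w w' : HeightOneSpectrum (𝓞 F), ExcP p X E w → ExcP p X E w' → w = w'

theorem OneN.oneP {X : ℕ} {E : WeierstrassCurve F} (h : OneN X E) (p : ℕ) : OneP p X E := by
  intro w w' hw hw'
  refine h w w' (hw.imp_right fun h1 h2 => h1 (Or.inl h2)) (hw'.imp_right fun h1 h2 => h1 (Or.inl h2))

end

/-- `p`-hyperelementary groups -/
def Hyperelementary (p : ℕ) (G : Type) [Group G] : Prop :=
  ∃ C : Subgroup G, C.Normal ∧ IsCyclic C ∧ (Nat.card C).Coprime p ∧
    ∀ g : G, ∃ k : ℕ, g ^ p ^ k ∈ C

/-- `F` has a Galois extension `F'` with a group with the property `Q`, which contains `T` and over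
which `E` has good or split multiplicative reduction everywhere. -/
def ExtQ (Q : (G : Type) → [Group G] → Prop) (K T F : Type) [Field K] [Field T] [Field F]
    [NumberField F] [Algebra K T] [Algebra K F] (E : WeierstrassCurve K) : Prop :=
  ∃ (F' : Type) (_ : Field F') (_ : NumberField F') (_ : Algebra F F'), IsGalois F F' ∧
    Q Gal(F'/F) ∧
    (∃ j : T →+* F', ∀ x : K, j (algebraMap K T x) = algebraMap F F' (algebraMap K F x)) ∧
    ∀ w : HeightOneSpectrum (𝓞 F'), GoodOrSplit ((E.map (algebraMap K F)).map (algebraMap F F')) w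

theorem Hyperelementary.of_coprime {p : ℕ} {G : Type} [Group G] [Finite G] (h : IsCyclic G)
    (hp : (Nat.card G).Coprime p) : Hyperelementary p G := by
  refine ⟨⊤, inferInstance, ?_, ?_, fun g => ⟨0, Subgroup.mem_top _⟩⟩
  · exact isCyclic_of_surjective (Subgroup.topEquiv (G := G)).symm.toMonoidHom
      (Subgroup.topEquiv (G := G)).symm.surjective
  · rw [Nat.card_congr Subgroup.topEquiv.toEquiv]
    exact hp

theorem Hyperelementary.of_injective {p : ℕ} {G G0 : Type} [Group G] [Group G0] [Finite G0]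
    (ι : G →* G0) (hι : Function.Injective ι) {H : Subgroup G0} (hH : ∀ g, ι g ∈ H)
    (h : IsHyper p H) : Hyperelementary p G := by
  obtain ⟨C, hCH, hcyc, hcop, hnorm, hpow⟩ := h
  have : Finite G := Finite.of_injective ι hι
  let κ : C.comap ι →* C := (ι.comp (C.comap ι).subtype).codRestrict C fun x => x.2
  have hκ : Function.Injective κ := by
    intro x y hxy
    apply Subtype.ext
    apply hι
    exact congrArg Subtype.val hxy
  refine ⟨C.comap ι, ⟨fun n hn g => ?_⟩, isCyclic_of_injective κ hκ, ?_, fun g => ?_⟩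
  · rw [Subgroup.mem_comap] at hn ⊢
    rw [map_mul, map_mul, map_inv]
    exact hnorm _ (hH g) _ hn
  · exact Nat.Coprime.coprime_dvd_left (Subgroup.card_dvd_of_injective κ hκ) hcop
  · obtain ⟨k, hk⟩ := hpow _ (hH g)
    refine ⟨k, ?_⟩
    rw [Subgroup.mem_comap, map_pow]
    exact hk

section
variable {K M L : Type} [Field K] [NumberField K] [Field M] [NumberField M] [Field L]
  [NumberField L] [Algebra K M] [Algebra M L] [Algebra K L] [IsScalarTower K M L]
  [IsGalois K M] [IsGalois K L]

theorem under_fixed (H : Subgroup Gal(L/K)) (W : Ideal (𝓞 L)) :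
    (W.under (𝓞 (IntermediateField.fixedField H))).under (𝓞 K) = W.under (𝓞 K) :=
  under_tower W

theorem under_conj {H : Subgroup Gal(L/K)} {τ : Gal(L/K)} (hτ : τ ∈ H) (W : Ideal (𝓞 L)) :
    (τ • W).under (𝓞 (IntermediateField.fixedField H)) =
      W.under (𝓞 (IntermediateField.fixedField H)) := by
  ext x
  change algebraMap _ (𝓞 L) x ∈ τ • W ↔ algebraMap _ (𝓞 L) x ∈ W
  rw [Ideal.mem_pointwise_smul_iff_inv_smul_mem]
  have h1 : τ⁻¹ • algebraMap (𝓞 (IntermediateField.fixedField H)) (𝓞 L) x =
      algebraMap (𝓞 (IntermediateField.fixedField H)) (𝓞 L) x := by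
    apply RingOfIntegers.coe_injective (K := L)
    have h2 := (IntermediateField.mem_fixedField_iff H _).1
      (x : IntermediateField.fixedField H).2 _ (H.inv_mem hτ)
    exact h2
  rw [h1]

/-- one exceptional prime -/
theorem one_of_H {A : Set Gal(M/K)}
    {S : Finset (HeightOneSpectrum (𝓞 K))} (H : Subgroup Gal(L/K)) (hH : OneBadA A S H)
    (Exc : HeightOneSpectrum (𝓞 (IntermediateField.fixedField H)) → Prop)
    (h1 : ∀ (w : HeightOneSpectrum (𝓞 (IntermediateField.fixedField H)))
      (v : HeightOneSpectrum (𝓞 K)), w.asIdeal.under (𝓞 K) = v.asIdeal → Exc w → v ∈ S)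
    (h2 : ∀ (w : HeightOneSpectrum (𝓞 (IntermediateField.fixedField H)))
      (W : HeightOneSpectrum (𝓞 L)), Over S W →
      W.asIdeal.under (𝓞 (IntermediateField.fixedField H)) = w.asIdeal →
      ¬ BadAtA A H W → ¬ Exc w)
    (w w' : HeightOneSpectrum (𝓞 (IntermediateField.fixedField H))) (hw : Exc w) (hw' : Exc w') :
    w = w' := by
  have key : ∀ w : HeightOneSpectrum (𝓞 (IntermediateField.fixedField H)), Exc w →
      ∃ W : HeightOneSpectrum (𝓞 L), W.asIdeal.under (𝓞 (IntermediateField.fixedField H)) =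
        w.asIdeal ∧ Over S W ∧ BadAtA A H W := by
    intro w hw
    obtain ⟨W, hW⟩ := exists_above (M := IntermediateField.fixedField H) (L := L) w
    have hover : Over S W := by
      obtain ⟨v, hv⟩ := exists_under (K := K) W
      refine ⟨v, h1 w v ?_ hw, hv⟩
      rw [← hW, under_fixed, hv]
    refine ⟨W, hW, hover, ?_⟩
    by_contra hn
    exact h2 w W hover hW hn hw
  obtain ⟨W, h3, h4, h5⟩ := key w hw
  obtain ⟨W', h3', h4', h5'⟩ := key w' hw'
  obtain ⟨τ, hτ, hτW⟩ := hH W W' h4 h4' h5 h5'
  apply HeightOneSpectrum.ext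
  rw [← h3, ← h3', ← hτW, under_conj hτ]

/-- `E` acquires good or split reduction -/
theorem acq_of_H (E : WeierstrassCurve K)
    (hM : ∀ w : HeightOneSpectrum (𝓞 M), GoodOrSplit (E.map (algebraMap K M)) w)
    (H : Subgroup Gal(L/K)) (p : ℕ) (W : HeightOneSpectrum (𝓞 L))
    (w : HeightOneSpectrum (𝓞 (IntermediateField.fixedField H)))
    (hW : W.asIdeal.under (𝓞 (IntermediateField.fixedField H)) = w.asIdeal)
    (hb : ¬ BadAtA (Kp (⊥ : Subgroup Gal(M/K)) p) H W) :
    AcqP p (E.map (algebraMap K (IntermediateField.fixedField H))) w := by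
  obtain ⟨F', _, _, _, _, t0, _, t1, _, t2, t3, hG, ι, hι, hιH, hdec⟩ := exists_FM (M := M) H
  obtain ⟨W', hW'⟩ := exists_under (K := F') W
  refine ⟨F', inferInstance, inferInstance, inferInstance, W', hG, ?_, ?_, ?_⟩
  · rw [← hW', ← hW]
    exact under_tower W.asIdeal
  · obtain ⟨wM, hwM⟩ := exists_under (K := M) W'
    have h1 := goodOrSplit_map (F := M) (F' := F') _ wM W' hwM (hM wM)
    rw [WeierstrassCurve.map_map, ← IsScalarTower.algebraMap_eq] at h1
    rw [WeierstrassCurve.map_map, ← IsScalarTower.algebraMap_eq]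
    exact h1
  · intro σ hσ
    rw [← hW'] at hσ
    obtain ⟨h, hh, hhW, hres⟩ := hdec W σ hσ
    by_contra hn
    apply hb
    refine ⟨h, hh, hhW, ?_⟩
    rintro ⟨k, hk⟩
    apply hn
    refine ⟨k, hι ?_⟩
    rw [map_pow, map_one, ← hres]
    exact hk

/-- the extension with everywhere good or split reduction -/
theorem ext_of_H (Q : (G : Type) → [Group G] → Prop) (T : Type) [Field T] [NumberField T]
    [Algebra K T] (j : T →ₐ[K] M) (E : WeierstrassCurve K)
    (hM : ∀ w : HeightOneSpectrum (𝓞 M), GoodOrSplit (E.map (algebraMap K M)) w)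
    (H : Subgroup Gal(L/K))
    (hQ : ∀ (G : Type) [Group G] (ι : G →* Gal(M/K)), Function.Injective ι →
      (∀ g, ι g ∈ H.map (res K M)) → Q G) :
    ExtQ Q K T (IntermediateField.fixedField H) E := by
  obtain ⟨F', _, _, _, _, t0, _, t1, _, t2, t3, hG, ι, hι, hιH, hdec⟩ := exists_FM (M := M) H
  refine ⟨F', inferInstance, inferInstance, inferInstance, hG, hQ _ ι hι hιH,
    ⟨(algebraMap M F').comp (j : T →+* M), fun x => ?_⟩, fun w => ?_⟩
  · have e1 : (j : T →+* M) (algebraMap K T x) = algebraMap K M x := j.commutes x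
    rw [RingHom.comp_apply, e1, ← IsScalarTower.algebraMap_apply, ← IsScalarTower.algebraMap_apply]
  · obtain ⟨wM, hwM⟩ := exists_under (K := M) w
    have h1 := goodOrSplit_map (F := M) (F' := F') _ wM w hwM (hM wM)
    rw [WeierstrassCurve.map_map, ← IsScalarTower.algebraMap_eq] at h1
    rw [WeierstrassCurve.map_map, ← IsScalarTower.algebraMap_eq]
    exact h1

end

section
variable {K A M L : Type} [Field K] [NumberField K] [Field A] [NumberField A] [Field M]
  [NumberField M] [Field L] [NumberField L] [Algebra K A] [Algebra A M] [Algebra K M]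
  [IsScalarTower K A M] [Algebra M L] [Algebra K L] [IsScalarTower K M L] [Algebra A L]
  [IsScalarTower A M L] [IsScalarTower K A L] [IsGalois K A] [IsGalois K M] [IsGalois K L]

theorem res_tower (g : Gal(L/K)) : res K A (res K M g) = res K A g := by
  ext x
  apply (algebraMap A M).injective
  rw [res_apply]
  apply (algebraMap M L).injective
  rw [res_apply, ← IsScalarTower.algebraMap_apply A M L, ← IsScalarTower.algebraMap_apply A M L,
    res_apply]

theorem not_bad_down {H : Subgroup Gal(L/K)} {W : HeightOneSpectrum (𝓞 L)} {p : ℕ}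
    (hb : ¬ BadAtA (Kp (⊥ : Subgroup Gal(M/K)) p) H W) :
    ¬ BadAtA (Kp (⊥ : Subgroup Gal(A/K)) p) H W := by
  rintro ⟨h, h1, h2, h3⟩
  apply hb
  refine ⟨h, h1, h2, fun h4 => h3 ?_⟩
  obtain ⟨k, hk⟩ := h4
  refine ⟨k, ?_⟩
  rw [Subgroup.mem_bot] at hk ⊢
  rw [← res_tower (A := A) (M := M), ← map_pow, hk, map_one]

theorem not_bad_p {H : Subgroup Gal(L/K)} {W : HeightOneSpectrum (𝓞 L)} (p : ℕ)
    (hb : ¬ BadAtA ((⊥ : Subgroup Gal(M/K)) : Set Gal(M/K)) H W) :
    ¬ BadAtA (Kp (⊥ : Subgroup Gal(M/K)) p) H W := by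
  rintro ⟨h, h1, h2, h3⟩
  exact hb ⟨h, h1, h2, fun h4 => h3 ⟨0, by rw [pow_zero, pow_one]; exact h4⟩⟩

end

theorem absNorm_le {A B : Type} [Field A] [NumberField A] [Field B] [NumberField B] [Algebra A B]
    (w : HeightOneSpectrum (𝓞 B)) (v : HeightOneSpectrum (𝓞 A))
    (h : w.asIdeal.under (𝓞 A) = v.asIdeal) :
    Ideal.absNorm v.asIdeal ≤ Ideal.absNorm w.asIdeal := by
  have hf : Finite (𝓞 B ⧸ w.asIdeal) := Ideal.finiteQuotientOfFreeOfNeBot _ w.ne_bot
  rw [Ideal.absNorm_apply, Ideal.absNorm_apply, Submodule.cardQuot_apply,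
    Submodule.cardQuot_apply]
  refine Nat.card_le_card_of_injective
    (Ideal.quotientMap w.asIdeal (algebraMap (𝓞 A) (𝓞 B)) (I := v.asIdeal) h.ge) ?_
  apply Ideal.quotientMap_injective'
  exact h.le

/-- **The fields for an elliptic curve.** -/
theorem exists_rel (K : Type) [Field K] [NumberField K] (E : WeierstrassCurve K) [E.IsElliptic]
    (X : ℕ) (T : Type) [Field T] [NumberField T] [Algebra K T] :
    ∃ (L : Type) (_ : Field L) (_ : NumberField L) (_ : Algebra K L) (_ : IsGalois K L),
      (∃ m : ℕ, m ≠ 0 ∧ (fun _ : Gal(L/K) => (m : ℤ)) ∈ Submodule.span ℤ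
        (fx '' {H : Subgroup Gal(L/K) |
          OneN X (E.map (algebraMap K (IntermediateField.fixedField H))) ∧
          ExtQ (fun G _ => IsCyclic G) K T (IntermediateField.fixedField H) E})) ∧
      (fun _ : Gal(L/K) => (1 : ℤ)) ∈ Submodule.span ℤ
        (fx '' {H : Subgroup Gal(L/K) | ∃ p : ℕ, p.Prime ∧
          OneP p X (E.map (algebraMap K (IntermediateField.fixedField H))) ∧
          ExtQ (fun G _ => Hyperelementary p G) K T (IntermediateField.fixedField H) E}) := by
  classical
  obtain ⟨ME, _, _, _, hGE, h23, hME⟩ := Pool.Agent.H37.OP.exists_semistable_galois K E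
  let S : Finset (HeightOneSpectrum (𝓞 K)) := ((finite_bad E).union (finite_small K X)).toFinset
  have hS : ∀ v, v ∉ S → GoodOrSplit E v ∧ X < Ideal.absNorm v.asIdeal := by
    intro v hv
    rw [Set.Finite.mem_toFinset, Set.mem_union, not_or, Set.mem_ofPred_eq, Set.mem_ofPred_eq,
      not_not, not_le] at hv
    exact hv
  obtain ⟨M0, _, _, _, hG0, hM0⟩ := Pool.Agent.H67.OP.exists_big_residue K S X
  obtain ⟨M1, _, _, _, _, t1, hG1, ⟨j0⟩⟩ := exists_compositum K ME M0
  obtain ⟨M, _, _, _, _, t2, hGM, ⟨jT⟩⟩ := exists_compositum K M1 T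
  let _ : Algebra ME M := ((algebraMap M1 M).comp (algebraMap ME M1)).toAlgebra
  have t3 : IsScalarTower K ME M := IsScalarTower.of_algebraMap_eq fun x => by
    change algebraMap K M x = algebraMap M1 M (algebraMap ME M1 (algebraMap K ME x))
    rw [← IsScalarTower.algebraMap_apply K ME M1, ← IsScalarTower.algebraMap_apply K M1 M]
  let _ : Algebra M0 M := ((algebraMap M1 M).comp (j0 : M0 →+* M1)).toAlgebra
  have t4 : IsScalarTower K M0 M := IsScalarTower.of_algebraMap_eq fun x => by
    have e1 : (j0 : M0 →+* M1) (algebraMap K M0 x) = algebraMap K M1 x := j0.commutes x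
    change algebraMap K M x = algebraMap M1 M ((j0 : M0 →+* M1) (algebraMap K M0 x))
    rw [e1, ← IsScalarTower.algebraMap_apply K M1 M]
  have hM : ∀ w : HeightOneSpectrum (𝓞 M), GoodOrSplit (E.map (algebraMap K M)) w := by
    intro w
    obtain ⟨w', hw'⟩ := exists_under (K := ME) w
    have h1 := goodOrSplit_map (F := ME) (F' := M) _ w' w hw' (hME w')
    rw [WeierstrassCurve.map_map, ← IsScalarTower.algebraMap_eq] at h1
    exact h1
  obtain ⟨L, _, _, _, _, t5, hGL, ⟨m, hm0, -, hm⟩, h2, -⟩ := one_place_tower K M S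
  let _ : Algebra ME L := ((algebraMap M L).comp (algebraMap ME M)).toAlgebra
  let _ : Algebra M0 L := ((algebraMap M L).comp (algebraMap M0 M)).toAlgebra
  have t6 : IsScalarTower ME M L := IsScalarTower.of_algebraMap_eq fun x => rfl
  have t7 : IsScalarTower M0 M L := IsScalarTower.of_algebraMap_eq fun x => rfl
  have t8 : IsScalarTower K ME L := IsScalarTower.of_algebraMap_eq fun x => by
    rw [IsScalarTower.algebraMap_apply ME M L, ← IsScalarTower.algebraMap_apply K ME M,
      ← IsScalarTower.algebraMap_apply K M L]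
  have t9 : IsScalarTower K M0 L := IsScalarTower.of_algebraMap_eq fun x => by
    rw [IsScalarTower.algebraMap_apply M0 M L, ← IsScalarTower.algebraMap_apply K M0 M,
      ← IsScalarTower.algebraMap_apply K M L]
  -- exceptional primes lie over `S`
  have hup : ∀ (H : Subgroup Gal(L/K)) (w : HeightOneSpectrum (𝓞 (IntermediateField.fixedField H)))
      (v : HeightOneSpectrum (𝓞 K)), w.asIdeal.under (𝓞 K) = v.asIdeal →
      (Ideal.absNorm w.asIdeal ≤ X ∨
        ¬ GoodOrSplit (E.map (algebraMap K (IntermediateField.fixedField H))) w) → v ∈ S := by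
    intro H w v hwv hexc
    by_contra hv
    obtain ⟨h3, h4⟩ := hS v hv
    rcases hexc with h5 | h5
    · exact absurd (h4.trans_le (absNorm_le w v hwv)) (not_lt.2 h5)
    · exact h5 (goodOrSplit_map E v w hwv h3)
  have hnorm : ∀ (H : Subgroup Gal(L/K)) (p : ℕ), p.Prime →
      ∀ (w : HeightOneSpectrum (𝓞 (IntermediateField.fixedField H)))
      (W : HeightOneSpectrum (𝓞 L)), Over S W →
      W.asIdeal.under (𝓞 (IntermediateField.fixedField H)) = w.asIdeal →
      ¬ BadAtA (Kp (⊥ : Subgroup Gal(M/K)) p) H W → X < Ideal.absNorm w.asIdeal := by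
    intro H p hp w W hover hW hb
    have h3 := hM0 L H W hover p hp (not_bad_down (A := M0) hb)
    rw [hW] at h3
    exact h3
  have hN : ∀ H : Subgroup Gal(L/K),
      OneBadA ((⊥ : Subgroup Gal(M/K)) : Set Gal(M/K)) S H →
      OneN X (E.map (algebraMap K (IntermediateField.fixedField H))) := by
    intro H hH w w' hw hw'
    refine one_of_H H hH (fun w => Ideal.absNorm w.asIdeal ≤ X ∨
        ¬ GoodOrSplit (E.map (algebraMap K (IntermediateField.fixedField H))) w) (hup H) ?_ w w'
        hw hw'
    rintro w W hover hW hb (h3 | h3)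
    · exact absurd (hnorm H 2 Nat.prime_two w W hover hW (not_bad_p 2 hb)) (not_lt.2 h3)
    · refine h3 (goodAt_of_not_bad (M := M) E hM H W ?_ w hW)
      intro h hh hhW
      by_contra h4
      exact hb ⟨h, hh, hhW, h4⟩
  refine ⟨L, inferInstance, inferInstance, inferInstance, hGL, ⟨m, hm0, ?_⟩, ?_⟩
  · refine Submodule.span_mono (Set.image_mono ?_) hm
    rintro H ⟨hH, hcyc⟩
    refine ⟨hN H hH, ext_of_H _ T jT E hM H fun G _ ι hι hG => ?_⟩
    let κ : G →* H.map (res K M) := ι.codRestrict _ hG
    exact isCyclic_of_injective κ fun x y hxy => hι (congrArg Subtype.val hxy)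
  · refine Submodule.span_mono (Set.image_mono ?_) h2
    rintro H (⟨hH, hcyc⟩ | ⟨p, hp, -, hH, hhyp⟩)
    · obtain ⟨p, hpc, hp⟩ := Nat.exists_infinite_primes (Nat.card Gal(M/K) + 1)
      refine ⟨p, hp, (hN H hH).oneP p, ext_of_H _ T jT E hM H fun G _ ι hι hG => ?_⟩
      have hfin : Finite G := Finite.of_injective ι hι
      let κ : G →* H.map (res K M) := ι.codRestrict _ hG
      refine Hyperelementary.of_coprime
        (isCyclic_of_injective κ fun x y hxy => hι (congrArg Subtype.val hxy)) ?_
      refine Nat.Coprime.symm ((Nat.Prime.coprime_iff_not_dvd hp).2 fun h3 => ?_)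
      have h4 := Nat.le_of_dvd Nat.card_pos (h3.trans (Subgroup.card_dvd_of_injective ι hι))
      omega
    · refine ⟨p, hp, ?_, ext_of_H _ T jT E hM H fun G _ ι hι hG =>
        Hyperelementary.of_injective ι hι hG hhyp⟩
      intro w w' hw hw'
      refine one_of_H H hH (fun w => ExcP p X
        (E.map (algebraMap K (IntermediateField.fixedField H))) w) (fun w v hwv hexc =>
          hup H w v hwv (hexc.imp_right fun h3 h4 => h3 (Or.inl h4))) ?_ w w' hw hw'
      rintro w W hover hW hb (h3 | h3)
      · exact absurd (hnorm H p hp w W hover hW hb) (not_lt.2 h3)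
      · apply h3
        by_cases hp23 : p = 2 ∨ p = 3
        · exact Or.inr ⟨hp23, acq_of_H E hM H p W w hW hb⟩
        · left
          have hb' := not_bad_down (A := ME) hb
          refine goodAt_of_not_bad (M := ME) E hME H W ?_ w hW
          intro h hh hhW
          by_contra h4
          apply hb'
          refine ⟨h, hh, hhW, ?_⟩
          rintro ⟨k, hk⟩
          apply h4
          rw [Subgroup.mem_bot] at hk
          have h5 : orderOf (res K ME h) ∣ p ^ k := orderOf_dvd_of_pow_eq_one hk
          obtain ⟨i, -, hi⟩ := (Nat.dvd_prime_pow hp).1 h5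
          have hi0 : i = 0 := by
            by_contra hi0
            have h6 : p ∣ Nat.card Gal(ME/K) :=
              (dvd_pow_self p hi0).trans (hi ▸ orderOf_dvd_natCard (res K ME h))
            exact hp23 (h23 p hp h6)
          rw [hi0, pow_zero] at hi
          exact orderOf_eq_one_iff.1 hi

end Pool.Agent.H46.OP
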