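import Pool.Agent.H46.OP.Krasner
import Pool.Agent.H46.OP.Grp

/-! The polynomials attached to the subgroups of one decomposition group. -/

set_option autoImplicit false
set_option linter.unusedSectionVars false

namespace Pool.Agent.H46.OP

open NumberField IsDedekindDomain Polynomial
open scoped Pointwise
open Pool.Agent.H46.SP (res res_apply res_smul under_smul under_under exists_above exists_under
  smul_ne_bot exists_L exists_int)

section
variable {K M : Type} [Field K] [NumberField K] [Field M] [NumberField M] [Algebra K M]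
  [IsGalois K M]

/-- decomposition groups -/
abbrev Dec (K : Type) {M : Type} [Field K] [NumberField K] [Field M] [NumberField M] [Algebra K M]
    (w : HeightOneSpectrum (𝓞 M)) : Subgroup Gal(M/K) :=
  MulAction.stabilizer Gal(M/K) w.asIdeal

theorem stable_poly {Y : Type} [Fintype Y] (w : HeightOneSpectrum (𝓞 M)) [MulAction (Dec K w) Y]
    (μ : Y → 𝓞 M) (hμ : ∀ (d : Dec K w) (y : Y), (d : Gal(M/K)) • μ y = μ (d • y))
    (σ : Gal(M/K)) (hσ : σ • w.asIdeal = w.asIdeal) :
    (∏ y, (X - C (μ y))).map (sm σ) = ∏ y, (X - C (μ y)) :=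
  map_prod_sub μ σ (MulAction.toPerm (⟨σ, hσ⟩ : Dec K w)) fun y => hμ ⟨σ, hσ⟩ y

theorem monic_poly {Y : Type} [Fintype Y] (μ : Y → 𝓞 M) : (∏ y, (X - C (μ y))).Monic ∧
    (∏ y, (X - C (μ y))).natDegree = Fintype.card Y := by
  refine ⟨monic_prod_of_monic _ _ fun i _ => monic_X_sub_C _, ?_⟩
  rw [natDegree_prod_of_monic _ _ fun i _ => monic_X_sub_C _]
  simp

/-- the other primes -/
theorem exists_other_model (N : Subgroup Gal(M/K)) [N.Normal] (w : HeightOneSpectrum (𝓞 M)) (n : ℕ)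
    (hn : N.index ∣ n) :
    ∃ (Y : Type) (_ : Fintype Y) (_ : MulAction (Dec K w) Y) (μ : Y → 𝓞 M), Fintype.card Y = n ∧
      Function.Injective μ ∧ (∀ (d : Dec K w) (y : Y), (d : Gal(M/K)) • μ y = μ (d • y)) ∧
      ∀ (d : Dec K w) (y : Y), d • y = y → (d : Gal(M/K)) ∈ N := by
  classical
  have hdvd : (N.subgroupOf (Dec K w)).index ∣ n :=
    (Subgroup.relIndex_dvd_index_of_normal N (Dec K w)).trans hn
  obtain ⟨t, ht⟩ := hdvd
  let Y := (_ : Fin t) × (Dec K w ⧸ N.subgroupOf (Dec K w))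
  let _ : Fintype Y := Fintype.ofFinite _
  obtain ⟨μ, h1, h2⟩ := exists_embed (K := K) (M := M) (Dec K w) Y
  refine ⟨Y, inferInstance, inferInstance, μ, ?_, h1, h2, ?_⟩
  · rw [Fintype.card_eq_nat_card, Nat.card_sigma]
    simp only [Finset.sum_const, Finset.card_univ, Fintype.card_fin, smul_eq_mul]
    rw [ht, mul_comm]
    rfl
  · rintro d ⟨i, c⟩ h
    obtain ⟨x, rfl⟩ := QuotientGroup.mk_surjective c
    have h3 : ((d * x : Dec K w) : Dec K w ⧸ N.subgroupOf (Dec K w)) = x :=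
      eq_of_heq (Sigma.mk.inj h).2
    rw [QuotientGroup.eq, Subgroup.mem_subgroupOf] at h3
    have h4 : ((x : Gal(M/K))⁻¹ * (d : Gal(M/K))⁻¹ * x) ∈ N := by
      have e : (((d * x : Dec K w)⁻¹ * x : Dec K w) : Gal(M/K)) =
        (x : Gal(M/K))⁻¹ * (d : Gal(M/K))⁻¹ * x := by
        push_cast
        group
      rwa [e] at h3
    have h5 := Subgroup.Normal.conj_mem inferInstance _ h4 (x : Gal(M/K))
    have h6 : (x : Gal(M/K)) * ((x : Gal(M/K))⁻¹ * (d : Gal(M/K))⁻¹ * x) * (x : Gal(M/K))⁻¹ =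
      (d : Gal(M/K))⁻¹ := by group
    rw [h6] at h5
    exact N.inv_mem_iff.1 h5

/-- **The polynomial of a subgroup of a decomposition group.** -/
theorem exists_poly (S : Finset (HeightOneSpectrum (𝓞 K)))
    (P : HeightOneSpectrum (𝓞 K) → HeightOneSpectrum (𝓞 M))
    (hP : ∀ v, (P v).asIdeal.under (𝓞 K) = v.asIdeal) (N : Subgroup Gal(M/K)) [N.Normal]
    (v : HeightOneSpectrum (𝓞 K)) (hv : v ∈ S) (U : Subgroup (Dec K (P v)))
    (hU : N.index ∣ U.index) :
    ∃ f : (𝓞 K)[X], f.Monic ∧ ∀ (L : Type) [Field L] [NumberField L] [Algebra K L] [Algebra M L]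
      [IsScalarTower K M L] [IsGalois K L], (f.map (algebraMap (𝓞 K) L)).Splits →
      (∀ W : HeightOneSpectrum (𝓞 L), W.asIdeal.under (𝓞 M) = (P v).asIdeal →
        ∃ b : Dec K (P v) ⧸ U → 𝓞 L, Function.Injective b ∧ (∀ c, aeval (b c) f = 0) ∧
          (∀ β : 𝓞 L, aeval β f = 0 → ∃ c, b c = β) ∧
          ∀ (g : Gal(L/K)), g • W.asIdeal = W.asIdeal → ∀ (d : Dec K (P v)),
            (d : Gal(M/K)) = res K M g → ∀ c, g • b c = b (d • c)) ∧
      ∀ u ∈ S, u ≠ v → ∀ W : HeightOneSpectrum (𝓞 L), W.asIdeal.under (𝓞 M) = (P u).asIdeal →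
        ∀ g : Gal(L/K), g • W.asIdeal = W.asIdeal → ∀ β : 𝓞 L, aeval β f = 0 → g • β = β →
          res K M g ∈ N := by
  classical
  set n := U.index with hn
  have hn0 : n ≠ 0 := Subgroup.index_ne_zero_of_finite
  let _ : Fintype (Dec K (P v) ⧸ U) := Fintype.ofFinite _
  have hcardU : Fintype.card (Dec K (P v) ⧸ U) = n := Fintype.card_eq_nat_card
  obtain ⟨μ0, hμ0i, hμ0⟩ := exists_embed (K := K) (M := M) (Dec K (P v)) (Dec K (P v) ⧸ U)
  obtain ⟨t0, ht0⟩ := exists_sep (P v) μ0 hμ0i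
  choose Y hYf hYa μ hY1 hY2 hY3 hY4 using fun u => exists_other_model (K := K) N (P u) n hU
  have hsep : ∀ u, ∃ t, ∀ i j, i ≠ j → μ u i - μ u j ∉ (P u).asIdeal ^ t := fun u =>
    exists_sep (P u) (μ u) (hY2 u)
  choose t ht using hsep
  let T := max t0 (S.sup t)
  let F : HeightOneSpectrum (𝓞 K) → (𝓞 M)[X] := fun u =>
    if u = v then ∏ y, (X - C (μ0 y)) else ∏ y, (X - C (μ u y))
  obtain ⟨f, hfm, hfd, hfc⟩ := exists_krasner S P hP n F (by
    intro u _
    by_cases huv : u = v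
    · simp only [F, if_pos huv]
      have := monic_poly (M := M) μ0
      rwa [hcardU] at this
    · simp only [F, if_neg huv]
      have := monic_poly (M := M) (μ u)
      rwa [hY1] at this) (by
    intro u _ σ hσ
    by_cases huv : u = v
    · subst huv
      simp only [F, if_pos rfl]
      exact stable_poly (P u) μ0 hμ0 σ hσ
    · simp only [F, if_neg huv]
      exact stable_poly (P u) (μ u) (hY3 u) σ hσ) (n * T)
  refine ⟨f, hfm, ?_⟩
  intro L _ _ _ _ _ _ hs
  have tKM : IsScalarTower (𝓞 K) (𝓞 M) L := IsScalarTower.of_algebraMap_eq fun x =>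
    IsScalarTower.algebraMap_apply K M L (x : K)
  have tKML : IsScalarTower (𝓞 K) (𝓞 M) (𝓞 L) := IsScalarTower.of_algebraMap_eq fun x => by
    apply RingOfIntegers.coe_injective (K := L)
    exact IsScalarTower.algebraMap_apply K M L (x : K)
  have hs' : ((f.map (algebraMap (𝓞 K) (𝓞 M))).map (algebraMap (𝓞 M) L)).Splits := by
    rw [Polynomial.map_map, ← IsScalarTower.algebraMap_eq]
    exact hs
  have haev : ∀ β : 𝓞 L, aeval β (f.map (algebraMap (𝓞 K) (𝓞 M))) = aeval β f := fun β =>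
    aeval_map_algebraMap _ _ _
  have hfix : ∀ g : Gal(M/K), (f.map (algebraMap (𝓞 K) (𝓞 M))).map (sm g) =
      f.map (algebraMap (𝓞 K) (𝓞 M)) := by
    intro g
    rw [Polynomial.map_map]
    congr 1
    ext x
    change ((g • algebraMap (𝓞 K) (𝓞 M) x : 𝓞 M) : M) = _
    exact g.commutes (x : K)
  have hroot : ∀ (g : Gal(L/K)) (β : 𝓞 L), aeval β f = 0 → aeval (g • β) f = 0 := by
    intro g β hβ
    rw [← haev] at hβ ⊢
    exact smul_root (hfix _) hβ
  constructor
  · intro W hW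
    obtain ⟨T1, b, hb1, hb2, hb3, hb4⟩ := match_above hn0 hcardU (P v) W hW T μ0
      (fun i j hij h => ht0 i j hij (Ideal.pow_le_pow_right (le_max_left _ _) h))
      (f.map (algebraMap (𝓞 K) (𝓞 M))) (hfm.map _) (by rw [hfm.natDegree_map, hfd]) hs' (by
        have h1 := hfc v hv
        simp only [F, if_pos rfl] at h1
        exact h1)
    simp only [haev] at hb1 hb3 hb4
    refine ⟨b, hb2, fun c => (hb1 c).1, hb3, fun g hg d hd c => ?_⟩
    apply hb4
    · exact hroot g _ (hb1 c).1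
    · rw [← hμ0, hd, res_smul, ← smul_sub, smul_mem_pow' hg]
      exact (hb1 c).2
  · intro u hu huv W hW g hg β hβ hgβ
    obtain ⟨T1, b, hb1, hb2, hb3, hb4⟩ := match_above hn0 (hY1 u) (P u) W hW T (μ u)
      (fun i j hij h => ht u i j hij (Ideal.pow_le_pow_right
        ((Finset.le_sup hu).trans (le_max_right _ _)) h))
      (f.map (algebraMap (𝓞 K) (𝓞 M))) (hfm.map _) (by rw [hfm.natDegree_map, hfd]) hs' (by
        have h1 := hfc u hu
        simp only [F, if_neg huv] at h1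
        exact h1)
    simp only [haev] at hb1 hb3 hb4
    obtain ⟨c, rfl⟩ := hb3 β hβ
    have hd : res K M g • (P u).asIdeal = (P u).asIdeal := by
      rw [← hW, ← under_smul, hg]
    let d : Dec K (P u) := ⟨res K M g, hd⟩
    refine hY4 u d c ?_
    have h1 : g • b c = b (d • c) := by
      apply hb4
      · exact hroot g _ (hb1 c).1
      · rw [← hY3]
        change algebraMap (𝓞 M) (𝓞 L) (res K M g • μ u c) - _ ∈ _
        rw [res_smul, ← smul_sub, smul_mem_pow' hg]
        exact (hb1 c).2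
    rw [hgβ] at h1
    exact (hb2 h1).symm

end

end Pool.Agent.H46.OP
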