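import Pool.Agent.H46.OP.General
import Pool.Agent.H46.OP.Fin
import Pool.Agent.H26.K4.Tower

/-! Relations between the fields with at most one exceptional prime, in terms of the absolute Galois
group. -/

set_option autoImplicit false
set_option linter.unusedSectionVars false

namespace Pool.Agent.H46.OP

open NumberField IsDedekindDomain Pool.Agent.W353.NF Pool.Agent.W401.Cheb
  Pool.Agent.Q5.BR
open Pool.Agent.R433.MD (fx)
open Pool.Agent.H46.SP (exists_under)

/-- an isomorphic field -/
theorem SpecialP.congr {K : Type} [Field K] [NumberField K] {S : Set (HeightOneSpectrum (𝓞 K))}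
    {X : ℕ} {T : Type} [Field T] [Algebra K T] {L : Type} [Field L] [NumberField L] [Algebra K L]
    [IsGalois K L] (F : IntermediateField K L)
    (h : SpecialP S X T (IntermediateField.fixedField F.fixingSubgroup)) : SpecialP S X T F := by
  rw [IsGalois.fixedField_fixingSubgroup] at h
  exact h

theorem SpecialC.congr {K : Type} [Field K] [NumberField K] {S : Set (HeightOneSpectrum (𝓞 K))}
    {X : ℕ} {T : Type} [Field T] [Algebra K T] {L : Type} [Field L] [NumberField L] [Algebra K L]
    [IsGalois K L] (F : IntermediateField K L)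
    (h : SpecialC S X T (IntermediateField.fixedField F.fixingSubgroup)) : SpecialC S X T F := by
  rw [IsGalois.fixedField_fixingSubgroup] at h
  exact h

/-- the relation in terms of the absolute Galois group -/
theorem relation_of_span {K L : Type} [Field K] [NumberField K] [Field L] [NumberField L]
    [Algebra K L] [IsGalois K L] (P : Subgroup Gal(L/K) → Prop) (Q : Ext K → Prop)
    (hP : ∀ F : IntermediateField K L, P F.fixingSubgroup → Q ⟨F⟩)
    (m : ℤ) (h : (fun _ : Gal(L/K) => m) ∈ Submodule.span ℤ (fx '' {H | P H})) :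
    ∃ (ι : Type) (_ : Fintype ι) (Y : ι → Ext K) (a : ι → ℤ),
      (∀ j, Q (Y j)) ∧ ∀ σ : GK K, ∑ j, a j * (fixn K (Y j).F σ : ℤ) = m := by
  classical
  obtain ⟨S, n, hS, hsum⟩ := exists_finset P m h
  refine ⟨S, inferInstance, fun j => ⟨j.1⟩, fun j => n j.1, fun j => hP _ (hS j.1 j.2),
    fun σ => ?_⟩
  obtain ⟨g, hg⟩ := Pool.Agent.H26.K4.fixn_eq_emb (K := K) (L := L) σ
  rw [← hsum g, ← Finset.sum_coe_sort S fun F' => n F' *
    Pool.Agent.R433.MD.fx F'.fixingSubgroup g]
  refine Finset.sum_congr rfl fun j _ => ?_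
  rw [Pool.Agent.R433.MD.fx_eq_emb]
  exact congrArg (fun t : ℕ => n j.1 * (t : ℤ)) (hg j.1)

/-- **One exceptional prime: the relation with coefficient `1`.** -/
theorem one_bad_place_relation (K : Type) [Field K] [NumberField K]
    (S : Set (HeightOneSpectrum (𝓞 K))) (hS : S.Finite) (X : ℕ) (T : Type) [Field T]
    [NumberField T] [Algebra K T] :
    ∃ (ι : Type) (_ : Fintype ι) (Y : ι → Ext K) (a : ι → ℤ),
      (∀ j, SpecialP S X T (Y j).F) ∧ ∀ σ : GK K, ∑ j, a j * (fixn K (Y j).F σ : ℤ) = 1 := by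
  obtain ⟨L, _, _, _, _, -, h⟩ := exists_rel_general K S hS X T
  exact relation_of_span (fun H => SpecialP S X T (IntermediateField.fixedField H))
    (fun Y => SpecialP S X T Y.F) (fun F hF => SpecialP.congr F hF) 1 h

/-- **One exceptional prime: the relation with cyclic groups.** -/
theorem one_bad_place_relation_cyclic (K : Type) [Field K] [NumberField K]
    (S : Set (HeightOneSpectrum (𝓞 K))) (hS : S.Finite) (X : ℕ) (T : Type) [Field T]
    [NumberField T] [Algebra K T] :
    ∃ (ι : Type) (_ : Fintype ι) (Y : ι → Ext K) (a : ι → ℤ) (m : ℕ), m ≠ 0 ∧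
      (∀ j, SpecialC S X T (Y j).F) ∧ ∀ σ : GK K, ∑ j, a j * (fixn K (Y j).F σ : ℤ) = m := by
  obtain ⟨L, _, _, _, _, ⟨m, hm, h⟩, -⟩ := exists_rel_general K S hS X T
  obtain ⟨ι, _, Y, a, h1, h2⟩ :=
    relation_of_span (fun H => SpecialC S X T (IntermediateField.fixedField H))
      (fun Y => SpecialC S X T Y.F) (fun F hF => SpecialC.congr F hF) m h
  exact ⟨ι, inferInstance, Y, a, m, hm, h1, h2⟩

/-- the primes over a finite set of primes -/
theorem finite_over (K F : Type) [Field K] [NumberField K] [Field F] [NumberField F] [Algebra K F]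
    (S : Set (HeightOneSpectrum (𝓞 K))) (hS : S.Finite) :
    {w : HeightOneSpectrum (𝓞 F) | LiesOverSet S w}.Finite := by
  classical
  have h1 : {w : HeightOneSpectrum (𝓞 F) | LiesOverSet S w} ⊆
      ⋃ v ∈ S, {w : HeightOneSpectrum (𝓞 F) | w.asIdeal ∣ v.asIdeal.map (algebraMap (𝓞 K) (𝓞 F))} := by
    rintro w ⟨v, hv, hw⟩
    rw [Set.mem_iUnion₂]
    refine ⟨v, hv, ?_⟩
    change w.asIdeal ∣ _
    rw [Ideal.dvd_iff_le, Ideal.map_le_iff_le_comap]
    exact hw.ge
  refine Set.Finite.subset (Set.Finite.biUnion hS fun v _ => Ideal.finite_factors ?_) h1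
  rw [Ne, Ideal.zero_eq_bot, Ideal.map_eq_bot_iff_of_injective
    (FaithfulSMul.algebraMap_injective (𝓞 K) (𝓞 F))]
  exact v.ne_bot

theorem exists_galois_above (K B : Type) [Field K] [NumberField K] [Field B] [NumberField B]
    [Algebra K B] : ∃ (L : Type) (_ : Field L) (_ : NumberField L) (_ : Algebra K L)
      (_ : IsGalois K L), Nonempty (B →ₐ[K] L) := by
  obtain ⟨L, i1, i2, i3, i4, t, hG, hB⟩ := exists_compositum K K B
  exact ⟨L, i1, i2, i3, hG, hB⟩

/-- a common extension -/
theorem exists_both (K F T : Type) [Field K] [NumberField K] [Field F] [NumberField F]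
    [Algebra K F] [Field T] [NumberField T] [Algebra K T] :
    ∃ (T' : Type) (_ : Field T') (_ : NumberField T') (_ : Algebra F T'),
      ∃ j : T →+* T', ∀ x : K, j (algebraMap K T x) = algebraMap F T' (algebraMap K F x) := by
  obtain ⟨L, _, _, _, _, ⟨i⟩⟩ := exists_galois_above K F
  obtain ⟨L', _, _, _, _, t, _, ⟨j⟩⟩ := exists_compositum K L T
  let _ : Algebra F L' := ((algebraMap L L').comp (i : F →+* L)).toAlgebra
  refine ⟨L', inferInstance, inferInstance, inferInstance, (j : T →+* L'), fun x => ?_⟩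
  have e1 : (j : T →+* L') (algebraMap K T x) = algebraMap K L' x := j.commutes x
  have e2 : (i : F →+* L) (algebraMap K F x) = algebraMap K L x := i.commutes x
  change _ = algebraMap L L' ((i : F →+* L) (algebraMap K F x))
  rw [e1, e2, ← IsScalarTower.algebraMap_apply]

/-- **One exceptional prime, over an extension.** -/
theorem one_bad_place_relation_over (K : Type) [Field K] [NumberField K]
    (S : Set (HeightOneSpectrum (𝓞 K))) (hS : S.Finite) (X : ℕ) (T : Type) [Field T]
    [NumberField T] [Algebra K T] (F : Type) [Field F] [NumberField F] [Algebra K F] :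
    ∃ (ι : Type) (_ : Fintype ι) (Y : ι → Ext F) (a : ι → ℤ),
      (∀ (j) [Algebra K (Y j).F] [IsScalarTower K F (Y j).F], SpecialP S X T (Y j).F) ∧
      ∀ σ : GK F, ∑ j, a j * (fixn F (Y j).F σ : ℤ) = 1 := by
  obtain ⟨T', _, _, _, j0, hj0⟩ := exists_both K F T
  obtain ⟨ι, _, Y, a, h1, h2⟩ := one_bad_place_relation F
    {w : HeightOneSpectrum (𝓞 F) | LiesOverSet S w} (finite_over K F S hS) X T'
  refine ⟨ι, inferInstance, Y, a, fun j _ _ => ?_, h2⟩
  obtain ⟨p, hp, F', _, _, _, hG, hH, ⟨i, hi⟩, hone⟩ := h1 j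
  refine ⟨p, hp, F', inferInstance, inferInstance, inferInstance, hG, hH, ⟨i.comp j0, fun x => ?_⟩,
    ?_⟩
  · rw [RingHom.comp_apply, hj0, hi, ← IsScalarTower.algebraMap_apply K F (Y j).F]
  · have key : ∀ w : HeightOneSpectrum (𝓞 (Y j).F), LiesOverSet S w →
        LiesOverSet {w : HeightOneSpectrum (𝓞 F) | LiesOverSet S w} w := by
      rintro w ⟨v, hv, hw⟩
      obtain ⟨wF, hwF⟩ := exists_under (K := F) w
      refine ⟨wF, ⟨v, hv, ?_⟩, hwF⟩
      rw [← hwF, under_tower, hw]
    intro w w' hw hw'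
    exact hone w w' (hw.imp_right fun h => ⟨h.1.imp_right (key w), h.2⟩)
      (hw'.imp_right fun h => ⟨h.1.imp_right (key w'), h.2⟩)

end Pool.Agent.H46.OP
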