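import Pool.Agent.H46.OP.Rel

/-! The cyclic relation over extensions. -/

set_option autoImplicit false
set_option linter.unusedSectionVars false

namespace Pool.Agent.H46.OP

open NumberField IsDedekindDomain Pool.Agent.W353.NF Pool.Agent.W401.Cheb
  Pool.Agent.Q5.BR
open Pool.Agent.H46.SP (exists_under)

/-- **One exceptional prime, over an extension, cyclic groups.** -/
theorem one_bad_place_relation_cyclic_over (K : Type) [Field K] [NumberField K]
    (S : Set (HeightOneSpectrum (𝓞 K))) (hS : S.Finite) (X : ℕ) (T : Type) [Field T]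
    [NumberField T] [Algebra K T] (F : Type) [Field F] [NumberField F] [Algebra K F] :
    ∃ (ι : Type) (_ : Fintype ι) (Y : ι → Ext F) (a : ι → ℤ) (m : ℕ), m ≠ 0 ∧
      (∀ (j) [Algebra K (Y j).F] [IsScalarTower K F (Y j).F], SpecialC S X T (Y j).F) ∧
      ∀ σ : GK F, ∑ j, a j * (fixn F (Y j).F σ : ℤ) = m := by
  obtain ⟨T', _, _, _, j0, hj0⟩ := exists_both K F T
  obtain ⟨ι, _, Y, a, m, hm, h1, h2⟩ := one_bad_place_relation_cyclic F
    {w : HeightOneSpectrum (𝓞 F) | LiesOverSet S w} (finite_over K F S hS) X T'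
  refine ⟨ι, inferInstance, Y, a, m, hm, fun j _ _ => ?_, h2⟩
  obtain ⟨F', _, _, _, hG, hH, ⟨i, hi⟩, hone⟩ := h1 j
  refine ⟨F', inferInstance, inferInstance, inferInstance, hG, hH, ⟨i.comp j0, fun x => ?_⟩,
    ?_⟩
  · rw [RingHom.comp_apply, hj0, hi, ← IsScalarTower.algebraMap_apply K F (Y j).F]
  · have key : ∀ w : HeightOneSpectrum (𝓞 (Y j).F), LiesOverSet S w →
        LiesOverSet {w : HeightOneSpectrum (𝓞 F) | LiesOverSet S w} w := by
      rintro w ⟨v, hv, hw⟩
      obtain ⟨wF, hwF⟩ := exists_under (K := F) w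
      refine ⟨wF, ⟨v, hv, ?_⟩, hwF⟩
      rw [← hwF, under_tower, hw]
    intro w w' hw hw'
    exact hone w w' (hw.imp_right fun h => ⟨h.1.imp_right (key w), h.2⟩)
      (hw'.imp_right fun h => ⟨h.1.imp_right (key w'), h.2⟩)

end Pool.Agent.H46.OP
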