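import Pool.Agent.H46.OP.Final
import Pool.Agent.H46.OP.Ind
import Pool.Agent.H46.Lib.R_seed8.R433.MD.Hyper

/-! One bad place and cyclic or hyperelementary groups at once. -/

set_option autoImplicit false
set_option linter.unusedSectionVars false

namespace Pool.Agent.H46.OP

open NumberField IsDedekindDomain Polynomial
open scoped Pointwise
open Pool.Agent.R433.MD (fx fixed_mem unit_mem perm_unit IsHyper hyper_count)
open Pool.Agent.H46.SP (res res_apply res_smul under_smul under_under exists_above exists_under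
  smul_ne_bot exists_L exists_int hyper_count2)

/-- a common Galois extension -/
theorem exists_common (K M : Type) [Field K] [NumberField K] [Field M] [NumberField M] [Algebra K M]
    [IsGalois K M] {ι : Type} [Finite ι] (N : ι → Type) [∀ i, Field (N i)] [∀ i, NumberField (N i)]
    [∀ i, Algebra M (N i)] :
    ∃ (L : Type) (_ : Field L) (_ : NumberField L) (_ : Algebra K L) (_ : Algebra M L)
      (_ : IsScalarTower K M L) (_ : IsGalois K L), ∀ i, Nonempty (N i →ₐ[M] L) := by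
  classical
  let _ : Fintype ι := Fintype.ofFinite ι
  let B : ∀ i, PowerBasis M (N i) := fun i => Field.powerBasisOfFiniteOfSeparable M (N i)
  let f : M[X] := ∏ i, minpoly M (B i).gen
  have hne : ∀ i, minpoly M (B i).gen ≠ 0 := fun i => minpoly.ne_zero (Algebra.IsIntegral.isIntegral _)
  have hf : f ≠ 0 := Finset.prod_ne_zero_iff.2 fun i _ => hne i
  obtain ⟨L, _, _, _, _, t, hG, hs, -⟩ := exists_L K M f hf
  refine ⟨L, inferInstance, inferInstance, inferInstance, inferInstance, t, hG, fun i => ?_⟩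
  have h1 : ((minpoly M (B i).gen).map (algebraMap M L)).Splits :=
    hs.of_dvd (Polynomial.map_ne_zero hf)
      (Polynomial.map_dvd _ (Finset.dvd_prod_of_mem _ (Finset.mem_univ i)))
  obtain ⟨a, ha⟩ := h1.exists_eval_eq_zero (by
    rw [Polynomial.degree_map]
    exact (minpoly.degree_pos (Algebra.IsIntegral.isIntegral _)).ne')
  rw [eval_map_algebraMap] at ha
  exact ⟨(B i).lift a ha⟩

section
variable {K K' M L' L : Type} [Field K] [NumberField K] [Field K'] [NumberField K']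
  [Field M] [NumberField M] [Field L'] [NumberField L'] [Field L] [NumberField L]
  [Algebra K K'] [Algebra K M] [Algebra K' M] [IsScalarTower K K' M]
  [IsGalois K M] [IsGalois K' M]
  [Algebra K' L'] [Algebra M L'] [IsScalarTower K' M L'] [IsGalois K' L']
  [Algebra K L] [Algebra M L] [IsScalarTower K M L] [IsGalois K L]
  [Algebra K' L] [IsScalarTower K' M L] [IsScalarTower K K' L] [Algebra L' L]
  [IsScalarTower M L' L] [IsScalarTower K' L' L] [IsGalois K' L]

/-- restriction of scalars -/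
noncomputable abbrev rs (K K' L : Type) [Field K] [Field K'] [Field L] [Algebra K K']
    [Algebra K L] [Algebra K' L] [IsScalarTower K K' L] : Gal(L/K') →* Gal(L/K) :=
  AlgEquiv.restrictScalarsHom K

theorem rs_injective : Function.Injective (rs K K' L) := AlgEquiv.restrictScalarsHom_injective K

theorem rs_apply (g : Gal(L/K')) (x : L) : rs K K' L g x = g x := rfl

theorem rs_smul (g : Gal(L/K')) (x : 𝓞 L) : rs K K' L g • x = g • x := by
  apply RingOfIntegers.coe_injective (K := L)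
  rfl

theorem rs_smul_ideal (g : Gal(L/K')) (W : Ideal (𝓞 L)) : rs K K' L g • W = g • W := by
  ext x
  rw [Ideal.mem_pointwise_smul_iff_inv_smul_mem, Ideal.mem_pointwise_smul_iff_inv_smul_mem,
    ← map_inv, rs_smul]

theorem res_rs (g : Gal(L/K')) : res K M (rs K K' L g) = rs K K' M (res K' M g) := by
  ext x
  apply (algebraMap M L).injective
  rw [res_apply, rs_apply, rs_apply, res_apply]

theorem res_res (g : Gal(L/K')) : res K' M (res K' L' g) = res K' M g := by
  ext x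
  apply (algebraMap M L').injective
  rw [res_apply]
  apply (algebraMap L' L).injective
  rw [res_apply, ← IsScalarTower.algebraMap_apply M L' L, ← IsScalarTower.algebraMap_apply M L' L,
    res_apply]

/-- the subgroup of `Gal(L/K)` of a subgroup of `Gal(L'/K')` -/
noncomputable def trf (K K' L' L : Type) [Field K] [NumberField K] [Field K'] [NumberField K']
    [Field L'] [NumberField L'] [Field L] [NumberField L] [Algebra K K'] [Algebra K L]
    [Algebra K' L'] [Algebra K' L] [IsScalarTower K K' L] [Algebra L' L] [IsScalarTower K' L' L]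
    [IsGalois K' L'] (H : Subgroup Gal(L'/K')) : Subgroup Gal(L/K) :=
  (H.comap (res K' L' : Gal(L/K') →* Gal(L'/K'))).map (rs K K' L)

theorem mem_trf {H : Subgroup Gal(L'/K')} {g : Gal(L/K)} :
    g ∈ trf K K' L' L H ↔ ∃ g' : Gal(L/K'), res K' L' g' ∈ H ∧ rs K K' L g' = g := Iff.rfl

theorem under_ne (W : HeightOneSpectrum (𝓞 L)) : W.asIdeal.under (𝓞 L') ≠ ⊥ :=
  Ideal.IsIntegral.comap_ne_bot (𝓞 L') W.ne_bot

omit [NumberField K] [NumberField K'] [NumberField L] [IsGalois K L] [IsScalarTower K K' L] in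
theorem under_under' [IsScalarTower K K' L] (w : Ideal (𝓞 L)) :
    (w.under (𝓞 K')).under (𝓞 K) = w.under (𝓞 K) := by
  ext x
  change algebraMap (𝓞 K') (𝓞 L) (algebraMap (𝓞 K) (𝓞 K') x) ∈ w ↔ algebraMap (𝓞 K) (𝓞 L) x ∈ w
  have h : algebraMap (𝓞 K') (𝓞 L) (algebraMap (𝓞 K) (𝓞 K') x) = algebraMap (𝓞 K) (𝓞 L) x := by
    apply RingOfIntegers.coe_injective (K := L)
    exact (IsScalarTower.algebraMap_apply K K' L (x : K)).symm
  rw [h]

/-- the prime below -/
def blw (L' : Type) [Field L'] [NumberField L'] [Algebra L' L] (W : HeightOneSpectrum (𝓞 L)) :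
    HeightOneSpectrum (𝓞 L') := ⟨W.asIdeal.under (𝓞 L'), inferInstance, under_ne W⟩

theorem OneBadA.trf {S : Finset (HeightOneSpectrum (𝓞 K))} {S' : Finset (HeightOneSpectrum (𝓞 K'))}
    (hS : ∀ v' : HeightOneSpectrum (𝓞 K'), (∃ v ∈ S, v'.asIdeal.under (𝓞 K) = v.asIdeal) → v' ∈ S')
    {A : Set Gal(M/K)} {A' : Set Gal(M/K')} (hA : ∀ x : Gal(M/K'), x ∈ A' → rs K K' M x ∈ A)
    {H : Subgroup Gal(L'/K')} (h : OneBadA A' S' H) :
    OneBadA A S (trf K K' L' L H) := by
  have hover : ∀ W : HeightOneSpectrum (𝓞 L), Over S W → Over S' (blw L' W) := by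
    rintro W ⟨v, hv, hW⟩
    refine ⟨blw K' W, hS _ ⟨v, hv, ?_⟩, ?_⟩
    · change (W.asIdeal.under (𝓞 K')).under (𝓞 K) = _
      rw [under_under', hW]
    · change (W.asIdeal.under (𝓞 L')).under (𝓞 K') = W.asIdeal.under (𝓞 K')
      rw [under_under]
  have hbad : ∀ W : HeightOneSpectrum (𝓞 L), BadAtA A (OP.trf K K' L' L H) W →
      BadAtA A' H (blw L' W) := by
    rintro W ⟨h, hh, hW, hres⟩
    obtain ⟨g, hg, rfl⟩ := mem_trf.1 hh
    refine ⟨res K' L' g, hg, ?_, fun h1 => hres ?_⟩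
    · change res K' L' g • (W.asIdeal.under (𝓞 L')) = W.asIdeal.under (𝓞 L')
      rw [rs_smul_ideal] at hW
      rw [← under_smul, hW]
    · rw [res_rs, ← res_res (L' := L')]
      exact hA _ h1
  intro W W' hW hW' hb hb'
  obtain ⟨τ, hτ, hτW⟩ := h _ _ (hover W hW) (hover W' hW') (hbad W hb) (hbad W' hb')
  obtain ⟨τ', hτ'⟩ := AlgEquiv.restrictNormalHom_surjective (F := K') (K₁ := L') L τ
  have h1 : (τ' • W.asIdeal).under (𝓞 L') = W'.asIdeal.under (𝓞 L') := by
    rw [under_smul]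
    change AlgEquiv.restrictNormalHom L' τ' • _ = _
    rw [hτ']
    exact hτW
  have hGL : IsGalois L' L := IsGalois.tower_top_of_isGalois K' L' L
  obtain ⟨ε, hε⟩ := exists_smul_over (K := L') (sH τ' W) W' h1
  have hε2 : res K' L' (rs K' L' L ε) = 1 := by
    ext x
    apply (algebraMap L' L).injective
    rw [res_apply, rs_apply, AlgEquiv.one_apply]
    exact ε.commutes x
  refine ⟨rs K K' L (rs K' L' L ε * τ'), mem_trf.2 ⟨_, ?_, rfl⟩, ?_⟩
  · rw [map_mul, hε2, one_mul]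
    change AlgEquiv.restrictNormalHom L' τ' ∈ H
    rw [hτ']
    exact hτ
  · rw [rs_smul_ideal, mul_smul, rs_smul_ideal]
    exact hε

/-- transfer of a relation -/
theorem span_trf (𝓗 : Set (Subgroup Gal(L'/K'))) (m : ℤ)
    (h : (fun _ : Gal(L'/K') => m) ∈ Submodule.span ℤ (fx '' 𝓗)) :
    m • fx (rs K K' L).range ∈ Submodule.span ℤ (fx '' (trf K K' L' L '' 𝓗)) := by
  have hs : Function.Surjective (res K' L' : Gal(L/K') →* Gal(L'/K')) :=
    AlgEquiv.restrictNormalHom_surjective (F := K') (K₁ := L') L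
  have h1 := span_comap _ hs 𝓗 m h
  have h2 := span_map (rs K K' L) rs_injective _ m h1
  rw [← Set.image_comp (Subgroup.map (rs K K' L))] at h2
  exact h2

end

section
variable {K K' M N L : Type} [Field K] [NumberField K] [Field K'] [NumberField K']
  [Field M] [NumberField M] [Field N] [NumberField N] [Field L] [NumberField L]
  [Algebra K K'] [Algebra K M] [Algebra K' M] [IsScalarTower K K' M]
  [IsGalois K M] [IsGalois K' M]
  [Algebra K' N] [Algebra M N] [IsScalarTower K' M N] [IsGalois K' N]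
  [Algebra K L] [Algebra M L] [IsScalarTower K M L] [IsGalois K L]

theorem tower_step (e : N →ₐ[M] L) {S : Finset (HeightOneSpectrum (𝓞 K))}
    {S' : Finset (HeightOneSpectrum (𝓞 K'))}
    (hS : ∀ v' : HeightOneSpectrum (𝓞 K'), (∃ v ∈ S, v'.asIdeal.under (𝓞 K) = v.asIdeal) → v' ∈ S')
    (C : Subgroup Gal(M/K)) (hC : (rs K K' M).range = C) {A : Set Gal(M/K)} {A' : Set Gal(M/K')}
    (hA : ∀ x : Gal(M/K'), x ∈ A' → rs K K' M x ∈ A) (m : ℤ)
    (h : (fun _ : Gal(N/K') => m) ∈ Submodule.span ℤ (fx '' {H | OneBadA A' S' H})) :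
    m • fx (C.comap (res K M : Gal(L/K) →* Gal(M/K))) ∈ Submodule.span ℤ
      (fx '' {H : Subgroup Gal(L/K) | OneBadA A S H ∧ H.map (res K M) ≤ C}) := by
  let _ : Algebra K' L := ((algebraMap M L).comp (algebraMap K' M)).toAlgebra
  let _ : Algebra N L := e.toRingHom.toAlgebra
  have t1 : IsScalarTower K' M L := IsScalarTower.of_algebraMap_eq fun x => rfl
  have t2 : IsScalarTower K K' L := IsScalarTower.of_algebraMap_eq fun x => by
    rw [IsScalarTower.algebraMap_apply K M L, IsScalarTower.algebraMap_apply K K' M]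
    rfl
  have t3 : IsScalarTower M N L := IsScalarTower.of_algebraMap_eq fun x => (e.commutes x).symm
  have t4 : IsScalarTower K' N L := IsScalarTower.of_algebraMap_eq fun x => by
    rw [IsScalarTower.algebraMap_apply K' M L, IsScalarTower.algebraMap_apply K' M N,
      ← IsScalarTower.algebraMap_apply M N L]
  have hG : IsGalois K' L := IsGalois.tower_top_of_isGalois K K' L
  have hr : (rs K K' L).range = C.comap (res K M : Gal(L/K) →* Gal(M/K)) := by
    ext g
    rw [Subgroup.mem_comap, ← hC]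
    constructor
    · rintro ⟨g', rfl⟩
      exact ⟨res K' M g', (res_rs g').symm⟩
    · rintro ⟨y, hy⟩
      have hg : ∀ x : K', g (algebraMap K' L x) = algebraMap K' L x := by
        intro x
        rw [IsScalarTower.algebraMap_apply K' M L, ← res_apply (K := K) (M := M), ← hy, rs_apply,
          y.commutes]
      exact ⟨AlgEquiv.ofRingEquiv (f := (g : L ≃+* L)) hg, by
        ext x
        rfl⟩
  have h1 := span_trf (K := K) (L := L) {H | OneBadA A' S' H} m h
  rw [hr] at h1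
  refine Submodule.span_mono (Set.image_mono ?_) h1
  rintro _ ⟨H, hH, rfl⟩
  refine ⟨OneBadA.trf hS hA hH, ?_⟩
  rintro _ ⟨g, hg, rfl⟩
  obtain ⟨g', -, rfl⟩ := mem_trf.1 hg
  rw [← hC]
  exact ⟨res K' M g', (res_rs g').symm⟩

end

/-- the primes above `S` -/
theorem exists_finset_above (K K' M : Type) [Field K] [NumberField K] [Field K'] [NumberField K']
    [Field M] [NumberField M] [Algebra K K'] [Algebra K M] [Algebra K' M] [IsScalarTower K K' M]
    [IsGalois K M] [IsGalois K' M] (S : Finset (HeightOneSpectrum (𝓞 K))) :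
    ∃ S' : Finset (HeightOneSpectrum (𝓞 K')), ∀ v' : HeightOneSpectrum (𝓞 K'),
      (∃ v ∈ S, v'.asIdeal.under (𝓞 K) = v.asIdeal) → v' ∈ S' := by
  classical
  refine ⟨(finite_above (M := M) S).toFinset.image (blw K'), ?_⟩
  rintro v' ⟨v, hv, hv'⟩
  obtain ⟨W, hW⟩ := exists_above (M := K') (L := M) v'
  rw [Finset.mem_image]
  refine ⟨W, (Set.Finite.mem_toFinset _).2 ⟨v, hv, ?_⟩, HeightOneSpectrum.ext hW⟩
  rw [← under_under' (K := K) (K' := K'), hW, hv']

/-- the general induction theorem -/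
theorem unit_span (G : Type) [Group G] [Finite G] (𝓗 : Set (Subgroup G))
    (hle : ∀ H ∈ 𝓗, ∀ H' ≤ H, H' ∈ 𝓗)
    (hconj : ∀ H ∈ 𝓗, ∀ x : G, H.map (MulAut.conj x).toMonoidHom ∈ 𝓗) (P : Set ℕ)
    (h0 : ∀ g, ∃ H ∈ 𝓗, fx H g ≠ 0)
    (hP : ∀ g, ∀ p ∈ P, p.Prime → ∃ H ∈ 𝓗, ¬ (p : ℤ) ∣ fx H g) :
    ∃ m : ℕ, m ≠ 0 ∧ (∀ p ∈ P, p.Prime → ¬ p ∣ m) ∧
      (fun _ : G => (m : ℤ)) ∈ Submodule.span ℤ (fx '' 𝓗) := by
  refine unit_mem (Submodule.span ℤ (fx '' 𝓗)) (fun a ha b hb => ?_) P (fun g => ?_)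
    (fun g p hp hpp => ?_)
  · exact mul_mem_left 𝓗 hle hconj ha (Submodule.span_mono (Set.image_subset_range _ _) hb)
  · obtain ⟨H, hH, h⟩ := h0 g
    exact ⟨fx H, Submodule.subset_span ⟨H, hH, rfl⟩, h⟩
  · obtain ⟨H, hH, h⟩ := hP g p hp hpp
    exact ⟨fx H, Submodule.subset_span ⟨H, hH, rfl⟩, h⟩

theorem isCyclic_conj {G : Type} [Group G] {H : Subgroup G} (h : IsCyclic H) (x : G) :
    IsCyclic (H.map (MulAut.conj x).toMonoidHom) := by
  let e' := H.equivMapOfInjective (MulAut.conj x).toMonoidHom (MulAut.conj x).injective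
  exact isCyclic_of_surjective e'.toMonoidHom e'.surjective

theorem IsCyclic.sub {G : Type} [Group G] {H H' : Subgroup G} (h : IsCyclic H) (hle : H' ≤ H) :
    IsCyclic H' :=
  isCyclic_of_injective (Subgroup.inclusion hle) (Subgroup.inclusion_injective hle)

/-- Artin's theorem -/
theorem artin (G : Type) [Group G] [Finite G] :
    ∃ m : ℕ, m ≠ 0 ∧ (∀ p : ℕ, p.Prime → p ∣ m → p ∣ Nat.card G) ∧
      (fun _ : G => (m : ℤ)) ∈ Submodule.span ℤ (fx '' {C : Subgroup G | IsCyclic C}) := by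
  obtain ⟨m, hm0, hmP, hm⟩ := unit_span G {C : Subgroup G | IsCyclic C}
    (fun H hH H' hle => IsCyclic.sub hH hle)
    (fun H hH x => isCyclic_conj hH x) {p | ¬ p ∣ Nat.card G}
    (fun g => ⟨Subgroup.zpowers g, (inferInstance : IsCyclic (Subgroup.zpowers g)),
      fx_ne_zero_of_mem (Subgroup.mem_zpowers g)⟩)
    (fun g p hp hpp => by
      obtain ⟨H, hH, h⟩ := hyper_count hpp g
      refine ⟨H, ?_, h⟩
      obtain ⟨C, hC, hcyc, -, -, hpow⟩ := hH
      refine IsCyclic.sub hcyc fun x hx => ?_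
      obtain ⟨k, hk⟩ := hpow x hx
      have h3 : Nat.Coprime (p ^ k) (orderOf x) :=
        Nat.Coprime.pow_left k ((Nat.Prime.coprime_iff_not_dvd hpp).2
          fun h4 => hp (h4.trans (orderOf_dvd_natCard x)))
      obtain ⟨n, hn⟩ := exists_pow_eq_self_of_coprime h3
      rw [← hn]
      exact C.pow_mem hk n)
  refine ⟨m, hm0, fun p hp hpm => ?_, hm⟩
  by_contra h
  exact hmP p h hp hpm

/-- Solomon's theorem -/
theorem solomon (G : Type) [Group G] [Finite G] (p : ℕ) (hp : p.Prime) :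
    ∃ m : ℕ, m ≠ 0 ∧ ¬ p ∣ m ∧
      (fun _ : G => (m : ℤ)) ∈ Submodule.span ℤ (fx '' {C : Subgroup G | IsHyper p C}) := by
  obtain ⟨m, hm0, hmP, hm⟩ := unit_span G {C : Subgroup G | IsHyper p C}
    (fun H hH H' hle => hH.le hle) (fun H hH x => hH.conj x) {p}
    (fun g => by
      obtain ⟨H, hH, h⟩ := hyper_count hp g
      refine ⟨H, hH, fun h0 => h ?_⟩
      rw [h0]
      exact dvd_zero _)
    (fun g q hq hqq => by
      rw [Set.mem_singleton_iff] at hq
      subst hq
      exact hyper_count hp g)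
  exact ⟨m, hm0, hmP p rfl hp, hm⟩

theorem rs_Kp {K K' M : Type} [Field K] [NumberField K] [Field K'] [NumberField K']
    [Field M] [NumberField M] [Algebra K K'] [Algebra K M] [Algebra K' M] [IsScalarTower K K' M]
    {p : ℕ} {x : Gal(M/K')} (hx : x ∈ Kp (⊥ : Subgroup Gal(M/K')) p) :
    rs K K' M x ∈ Kp (⊥ : Subgroup Gal(M/K)) p := by
  obtain ⟨k, hk⟩ := hx
  refine ⟨k, ?_⟩
  rw [Subgroup.mem_bot] at hk ⊢
  rw [← map_pow, hk, map_one]

/-- a combination of relations -/
theorem combine {G G0 : Type} [Group G] [Finite G] [Group G0] [Finite G0] (φ : G →* G0)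
    (hφ : Function.Surjective φ) (𝓒 : Set (Subgroup G0)) (B : Submodule ℤ (G → ℤ)) (m : ℕ)
    (hm0 : m ≠ 0) (hm : (fun _ : G0 => (m : ℤ)) ∈ Submodule.span ℤ (fx '' 𝓒)) (Q : ℕ → Prop)
    (hQ : ∀ a b, Q a → Q b → Q (a * b)) (hQ1 : Q 1) (hQm : Q m)
    (h : ∀ C ∈ 𝓒, ∃ a : ℕ, a ≠ 0 ∧ Q a ∧ (a : ℤ) • fx (C.comap φ) ∈ B) :
    ∃ a : ℕ, a ≠ 0 ∧ Q a ∧ (fun _ : G => (a : ℤ)) ∈ B := by
  classical
  have h1 := span_comap φ hφ 𝓒 m hm
  have hfin : Finite (Subgroup G0) := inferInstance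
  let _ : Fintype (Subgroup G0) := Fintype.ofFinite _
  choose! a ha0 haQ ha using h
  let c : ℕ := ∏ C ∈ Finset.univ.filter (· ∈ 𝓒), a C
  have hc0 : c ≠ 0 := Finset.prod_ne_zero_iff.2 fun C hC => ha0 C (Finset.mem_filter.1 hC).2
  have hcQ : Q c := Finset.prod_induction _ Q hQ hQ1 fun C hC => haQ C (Finset.mem_filter.1 hC).2
  have hcB : ∀ C ∈ 𝓒, (c : ℤ) • fx (C.comap φ) ∈ B := by
    intro C hC
    obtain ⟨d, hd⟩ : a C ∣ c := Finset.dvd_prod_of_mem _ (Finset.mem_filter.2 ⟨Finset.mem_univ C, hC⟩)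
    rw [hd, Nat.cast_mul, mul_comm, mul_smul]
    exact B.smul_mem _ (ha C hC)
  refine ⟨c * m, mul_ne_zero hc0 hm0, hQ _ _ hcQ hQm, ?_⟩
  have h2 : (fun _ : G => ((c * m : ℕ) : ℤ)) = (c : ℤ) • (fun _ : G => (m : ℤ)) := by
    funext g
    simp
  rw [h2]
  have h3 : ∀ f ∈ Submodule.span ℤ (fx '' (Subgroup.comap φ '' 𝓒)), (c : ℤ) • f ∈ B := by
    intro f hf
    induction hf using Submodule.span_induction with
    | mem x hx =>
      obtain ⟨_, ⟨C, hC, rfl⟩, rfl⟩ := hx
      exact hcB C hC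
    | zero => rw [smul_zero]; exact B.zero_mem
    | add y z _ _ hy hz => rw [smul_add]; exact B.add_mem hy hz
    | smul z y _ hy => rw [smul_comm]; exact B.smul_mem _ hy
  exact h3 _ h1

/-- **One bad place and cyclic or hyperelementary groups at once.** -/
theorem one_place_tower (K M : Type) [Field K] [NumberField K] [Field M] [NumberField M]
    [Algebra K M] [IsGalois K M] (S : Finset (HeightOneSpectrum (𝓞 K))) :
    ∃ (L : Type) (_ : Field L) (_ : NumberField L) (_ : Algebra K L) (_ : Algebra M L)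
      (_ : IsScalarTower K M L) (_ : IsGalois K L),
      (∃ m : ℕ, m ≠ 0 ∧ (∀ p : ℕ, p.Prime → p ∣ m → p ∣ Nat.card Gal(M/K)) ∧
        (fun _ : Gal(L/K) => (m : ℤ)) ∈ Submodule.span ℤ
          (fx '' {H | OneBadA ((⊥ : Subgroup Gal(M/K)) : Set Gal(M/K)) S H ∧
            IsCyclic (H.map (res K M))})) ∧
      (fun _ : Gal(L/K) => (1 : ℤ)) ∈ Submodule.span ℤ
          (fx '' {H | (OneBadA ((⊥ : Subgroup Gal(M/K)) : Set Gal(M/K)) S H ∧
              IsCyclic (H.map (res K M))) ∨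
            ∃ p : ℕ, p.Prime ∧ p ∣ Nat.card Gal(M/K) ∧ OneBadA (Kp (⊥ : Subgroup Gal(M/K)) p) S H ∧
              IsHyper p (H.map (res K M))}) ∧
      ∀ p : ℕ, p.Prime → p ∣ Nat.card Gal(M/K) → ∃ m : ℕ, m ≠ 0 ∧ ¬ p ∣ m ∧
        (fun _ : Gal(L/K) => (m : ℤ)) ∈ Submodule.span ℤ
          (fx '' {H | OneBadA (Kp (⊥ : Subgroup Gal(M/K)) p) S H ∧ IsHyper p (H.map (res K M))}) := by
  classical
  choose S' hS' using fun C : Subgroup Gal(M/K) =>
    exists_finset_above K (IntermediateField.fixedField C) M S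
  choose N iF iNF iA iM iT iG h1 h2 h3 using fun C : Subgroup Gal(M/K) =>
    one_place (IntermediateField.fixedField C) M (S' C)
  obtain ⟨L, _, _, _, _, t, hGL, hL⟩ := exists_common K M N
  have hs : Function.Surjective (res K M : Gal(L/K) →* Gal(M/K)) :=
    AlgEquiv.restrictNormalHom_surjective (F := K) (K₁ := M) L
  have hrange : ∀ C : Subgroup Gal(M/K),
      (rs K (IntermediateField.fixedField C) M).range = C := by
    intro C
    conv_rhs => rw [← IntermediateField.fixingSubgroup_fixedField C]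
    ext g
    constructor
    · rintro ⟨g', rfl⟩
      exact fun x => g'.commutes x
    · intro hg
      exact ⟨AlgEquiv.ofRingEquiv (f := (g : M ≃+* M)) hg, by
        ext x
        rfl⟩
  have hcard : ∀ C : Subgroup Gal(M/K),
      Nat.card Gal(M/IntermediateField.fixedField C) = Nat.card C := by
    intro C
    have e1 : Nat.card Gal(M/IntermediateField.fixedField C) =
        Nat.card (rs K (IntermediateField.fixedField C) M).range :=
      Nat.card_congr (MonoidHom.ofInjective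
        (rs_injective (K := K) (K' := IntermediateField.fixedField C) (L := M))).toEquiv
    rw [e1, hrange]
  have hbot : ∀ (C : Subgroup Gal(M/K)) (x : Gal(M/IntermediateField.fixedField C)),
      x ∈ ((⊥ : Subgroup Gal(M/IntermediateField.fixedField C)) : Set _) →
      rs K (IntermediateField.fixedField C) M x ∈ ((⊥ : Subgroup Gal(M/K)) : Set Gal(M/K)) := by
    intro C x hx
    have hx' : x = 1 := hx
    rw [hx', map_one]
    rfl
  have step1 : ∀ C : Subgroup Gal(M/K), ∃ a : ℕ, a ≠ 0 ∧ (∀ p : ℕ, p.Prime → p ∣ a → p ∣ Nat.card C) ∧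
      (a : ℤ) • fx (C.comap (res K M : Gal(L/K) →* Gal(M/K))) ∈ Submodule.span ℤ
      (fx '' {H : Subgroup Gal(L/K) | OneBadA ((⊥ : Subgroup Gal(M/K)) : Set Gal(M/K)) S H ∧
        H.map (res K M) ≤ C}) := by
    intro C
    obtain ⟨m, hm0, hmp, hm⟩ := h1 C
    rw [hcard] at hmp
    obtain ⟨e⟩ := hL C
    exact ⟨m, hm0, hmp, tower_step e (hS' C) C (hrange C) (hbot C) m hm⟩
  have step2 : ∀ (p : ℕ), p.Prime → ∀ C : Subgroup Gal(M/K), ∃ a : ℕ, a ≠ 0 ∧ ¬ p ∣ a ∧
      (a : ℤ) • fx (C.comap (res K M : Gal(L/K) →* Gal(M/K))) ∈ Submodule.span ℤ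
      (fx '' {H : Subgroup Gal(L/K) | OneBadA (Kp (⊥ : Subgroup Gal(M/K)) p) S H ∧
        H.map (res K M) ≤ C}) := by
    intro p hp C
    by_cases hpC : p ∣ Nat.card C
    · obtain ⟨m, hm0, hmp, hm⟩ := h3 C p hp (by rw [hcard]; exact hpC)
      obtain ⟨e⟩ := hL C
      exact ⟨m, hm0, hmp, tower_step e (hS' C) C (hrange C) (fun x hx => rs_Kp hx) m hm⟩
    · obtain ⟨m, hm0, hmp, hm⟩ := step1 C
      refine ⟨m, hm0, fun h => hpC (hmp p hp h), Submodule.span_mono (Set.image_mono ?_) hm⟩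
      rintro H ⟨hH, hH2⟩
      refine ⟨fun W W' hW hW' hb hb' => hH W W' hW hW' ?_ ?_, hH2⟩
      · obtain ⟨h, h4, h5, h6⟩ := hb
        refine ⟨h, h4, h5, fun h7 => h6 ?_⟩
        exact ⟨0, by rw [pow_zero, pow_one]; exact h7⟩
      · obtain ⟨h, h4, h5, h6⟩ := hb'
        refine ⟨h, h4, h5, fun h7 => h6 ?_⟩
        exact ⟨0, by rw [pow_zero, pow_one]; exact h7⟩
  have first : ∃ m : ℕ, m ≠ 0 ∧ (∀ p : ℕ, p.Prime → p ∣ m → p ∣ Nat.card Gal(M/K)) ∧
        (fun _ : Gal(L/K) => (m : ℤ)) ∈ Submodule.span ℤ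
          (fx '' {H | OneBadA ((⊥ : Subgroup Gal(M/K)) : Set Gal(M/K)) S H ∧
            IsCyclic (H.map (res K M))}) := by
    obtain ⟨m, hm0, hmp, hm⟩ := artin Gal(M/K)
    refine combine _ hs {C : Subgroup Gal(M/K) | IsCyclic C} _ m hm0 hm
      (fun a => ∀ p : ℕ, p.Prime → p ∣ a → p ∣ Nat.card Gal(M/K)) (fun a b ha hb p hp hpab => ?_)
      (fun p hp h => absurd (Nat.dvd_one.1 h) hp.ne_one) hmp
      (fun C hC => ?_)
    · rcases (Nat.Prime.dvd_mul hp).1 hpab with h | h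
      · exact ha p hp h
      · exact hb p hp h
    · obtain ⟨a, ha0, hap, ha⟩ := step1 C
      refine ⟨a, ha0, fun p hp h => (hap p hp h).trans (Subgroup.card_subgroup_dvd_card C), 
        Submodule.span_mono (Set.image_mono ?_) ha⟩
      rintro H ⟨hH, hH2⟩
      exact ⟨hH, IsCyclic.sub hC hH2⟩
  have third : ∀ p : ℕ, p.Prime → ∃ m : ℕ, m ≠ 0 ∧ ¬ p ∣ m ∧
        (fun _ : Gal(L/K) => (m : ℤ)) ∈ Submodule.span ℤ
          (fx '' {H | OneBadA (Kp (⊥ : Subgroup Gal(M/K)) p) S H ∧ IsHyper p (H.map (res K M))}) := by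
    intro p hp
    obtain ⟨m, hm0, hmp, hm⟩ := solomon Gal(M/K) p hp
    refine combine _ hs {C : Subgroup Gal(M/K) | IsHyper p C} _ m hm0 hm
      (fun a => ¬ p ∣ a) (fun a b ha hb hpab => ?_) (fun h => hp.ne_one (Nat.dvd_one.1 h)) hmp
      (fun C hC => ?_)
    · rcases (Nat.Prime.dvd_mul hp).1 hpab with h | h
      · exact ha h
      · exact hb h
    · obtain ⟨a, ha0, hap, ha⟩ := step2 p hp C
      refine ⟨a, ha0, hap, Submodule.span_mono (Set.image_mono ?_) ha⟩
      rintro H ⟨hH, hH2⟩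
      exact ⟨hH, hC.le hH2⟩
  have hsmul : ∀ m : ℕ, ((m : ℤ) • (fun _ : Gal(L/K) => (1 : ℤ))) = fun _ => (m : ℤ) := by
    intro m
    funext g
    simp
  refine ⟨L, inferInstance, inferInstance, inferInstance, inferInstance, t, hGL, first, ?_,
    fun p hp _ => third p hp⟩
  obtain ⟨m0, hm0, hm0p, hm0B⟩ := first
  obtain ⟨m, h4, h5, h6⟩ := exists_gen (Submodule.span ℤ
      (fx '' {H : Subgroup Gal(L/K) | (OneBadA ((⊥ : Subgroup Gal(M/K)) : Set Gal(M/K)) S H ∧
              IsCyclic (H.map (res K M))) ∨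
            ∃ p : ℕ, p.Prime ∧ p ∣ Nat.card Gal(M/K) ∧ OneBadA (Kp (⊥ : Subgroup Gal(M/K)) p) S H ∧
              IsHyper p (H.map (res K M))}))
      (fun _ : Gal(L/K) => (1 : ℤ)) Set.univ m0 hm0 (by
        rw [hsmul]
        exact Submodule.span_mono (Set.image_mono fun H hH => Or.inl hH) hm0B)
      (fun p _ hp => by
        by_cases hpc : p ∣ Nat.card Gal(M/K)
        · obtain ⟨m, hm1, hm2, hm3⟩ := third p hp
          refine ⟨m, hm2, ?_⟩
          rw [hsmul]
          exact Submodule.span_mono (Set.image_mono fun H hH =>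
            Or.inr ⟨p, hp, hpc, hH.1, hH.2⟩) hm3
        · refine ⟨m0, fun h => hpc (hm0p p hp h), ?_⟩
          rw [hsmul]
          exact Submodule.span_mono (Set.image_mono fun H hH => Or.inl hH) hm0B)
  have hm1 : m = 1 := by
    by_contra hne
    obtain ⟨p, hp, hpm⟩ := Nat.exists_prime_and_dvd hne
    exact h5 p trivial hp hpm
  rw [hsmul, hm1, Nat.cast_one] at h6
  exact h6

end Pool.Agent.H46.OP
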